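import Mathlib

/-! The modular polynomials `Φ_N` and the relation of isogeny on `Y(1)`. -/

set_option autoImplicit false

namespace Pool.Agent.Lib.MP_a325a5_ag.MU

open Polynomial UpperHalfPlane ModularForm EisensteinSeries

/-- The `j`-invariant on the upper half-plane: `E₄ ^ 3 / Δ`. -/
noncomputable def jInv (τ : ℍ) : ℂ := (E₄ τ) ^ 3 / discriminant τ

/-- The triples `(a, b, d)` of natural numbers with `a d = N`, `0 ≤ b < d` and
`gcd (a, b, d) = 1`. -/
def triples (N : ℕ) : Finset (ℕ × ℕ × ℕ) :=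
  (Finset.range (N + 1) ×ˢ Finset.range (N + 1) ×ˢ Finset.range (N + 1)).filter fun t =>
    t.1 * t.2.2 = N ∧ t.2.1 < t.2.2 ∧ Nat.gcd (Nat.gcd t.1 t.2.1) t.2.2 = 1

/-- The point `(a τ + b) / d` of the upper half-plane. -/
noncomputable def tpt (t : ℕ × ℕ × ℕ) (τ : ℍ) : ℍ :=
  ofComplex (((t.1 : ℂ) * τ + t.2.1) / t.2.2)

/-- `Φ = Φ(X, Y)`, a polynomial in `Y` whose coefficients are polynomials in `X`, is the modular
polynomial of level `N`: `Φ(j(τ), Y)` is the product of all `Y - j((a τ + b) / d)`. -/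
def IsModPoly (N : ℕ) (Φ : ℚ[X][X]) : Prop :=
  ∀ τ : ℍ, Φ.map (eval₂RingHom (Rat.castHom ℂ) (jInv τ)) =
    ∏ t ∈ triples N, (X - C (jInv (tpt t τ)))

open Classical in
/-- The modular polynomial of level `N`. -/
noncomputable def modPoly (N : ℕ) : ℚ[X][X] :=
  if h : ∃ Φ, IsModPoly N Φ then h.choose else 0

section

variable {L : Type} [Field L] [CharZero L]

/-- The value `Φ_N(x, y)` of the modular polynomial of level `N`. -/
noncomputable def phi (N : ℕ) (x y : L) : L :=
  (modPoly N).eval₂ (eval₂RingHom (Rat.castHom L) x) y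

/-- The value at `(x, y)` of the derivative of `Φ_N(X, Y)` with respect to `Y`. -/
noncomputable def dphi (N : ℕ) (x y : L) : L :=
  (derivative (modPoly N)).eval₂ (eval₂RingHom (Rat.castHom L) x) y

/-- `x` is a singular modulus (a CM point of `Y(1)`): `Φ_N(x, x) = 0` for some `N ≥ 2`. -/
def IsCM (x : L) : Prop := ∃ N, 2 ≤ N ∧ phi N x x = 0

/-- `x` and `y` are isogenous: `Φ_N(x, y) = 0` for some `N ≥ 1`. -/
def Isog (x y : L) : Prop := ∃ N, 1 ≤ N ∧ phi N x y = 0

end

/-- The facts on the modular polynomials which are used in the geometry of `Y(1)^n`. -/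
structure ModAx : Prop where
  /-- `Φ_N` is monic in `Y`. -/
  monic : ∀ N, 1 ≤ N → (modPoly N).Monic
  /-- `Φ_N(X, X)` is not the zero polynomial for `N ≥ 2`. -/
  diag : ∀ N, 2 ≤ N → (modPoly N).eval X ≠ 0
  /-- reflexivity -/
  refl : ∀ (L : Type) [Field L] [CharZero L] (x : L), phi 1 x x = 0
  /-- symmetry -/
  symm : ∀ (L : Type) [Field L] [CharZero L] (N : ℕ) (x y : L), 1 ≤ N → phi N x y = 0 →
    phi N y x = 0
  /-- transitivity -/
  trans : ∀ (L : Type) [Field L] [CharZero L] (N M : ℕ) (x y z : L), 1 ≤ N → 1 ≤ M →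
    phi N x y = 0 → phi M y z = 0 → Isog x z
  /-- the degree of the isogeny is unique outside the CM points -/
  uniq : ∀ (L : Type) [Field L] [CharZero L] (N M : ℕ) (x y : L), 1 ≤ N → 1 ≤ M → N ≠ M →
    phi N x y = 0 → phi M x y = 0 → IsCM x
  /-- simple roots outside the CM points -/
  simple : ∀ (L : Type) [Field L] [CharZero L] (N : ℕ) (x y : L), 1 ≤ N → phi N x y = 0 →
    dphi N x y = 0 → IsCM x
  /-- CM points are isogenous only to CM points -/
  cm : ∀ (L : Type) [Field L] [CharZero L] (N : ℕ) (x y : L), 1 ≤ N → phi N x y = 0 →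
    IsCM x → IsCM y
  /-- `0` is a CM point -/
  cm_zero : ∀ (L : Type) [Field L] [CharZero L], IsCM (0 : L)

end Pool.Agent.Lib.MP_a325a5_ag.MU
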