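import Pool.Agent.Lib.MP_a325a5_ag.MU.YBasic
import Pool.Agent.Lib.MP_a325a5_ag.UM.TD
import Pool.Agent.Lib.MP_a325a5_ag.UM.TDloc

/-! Y2: the number of isogeny classes which are not CM. -/

set_option autoImplicit false

namespace Pool.Agent.Lib.MP_a325a5_ag.MU

open MvPolynomial UM

variable {L : Type} [Field L] [CharZero L] {α : Type} [Fintype α]

omit [Fintype α] in
private theorem cls_eq (h : ModAx) (q : α → L) {i j : α} (hij : Isog (q i) (q j)) :
    {l | Isog (q i) (q l)} = {l | Isog (q j) (q l)} := by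
  ext l
  exact ⟨fun hl => isog_trans h (isog_symm h hij) hl, fun hl => isog_trans h hij hl⟩

omit [Fintype α] in
private theorem isog_of_cls_eq (h : ModAx) (q : α → L) {i j : α}
    (hij : {l | Isog (q i) (q l)} = {l | Isog (q j) (q l)}) : Isog (q i) (q j) := by
  have h1 : j ∈ {l | Isog (q j) (q l)} := isog_refl h (q j)
  rw [← hij] at h1
  exact h1

theorem ny_spec (h : ModAx) (q : α → L) :
    ∃ R : Finset α, R.card = ny q ∧ (∀ r ∈ R, ¬ IsCM (q r)) ∧
      (∀ r ∈ R, ∀ s ∈ R, Isog (q r) (q s) → r = s) ∧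
      ∀ i, ¬ IsCM (q i) → ∃ r ∈ R, Isog (q r) (q i) := by
  classical
  let 𝒞 : Set (Set α) := {C : Set α | ∃ i, ¬ IsCM (q i) ∧ C = {j | Isog (q i) (q j)}}
  have hfin : 𝒞.Finite := Set.toFinite _
  have hrep : ∀ C : 𝒞, ∃ i, ¬ IsCM (q i) ∧ (C : Set α) = {j | Isog (q i) (q j)} := fun C => C.2
  choose rep hr1 hr2 using hrep
  have hinj : Function.Injective rep := by
    intro C D hCD
    apply Subtype.ext
    rw [hr2 C, hr2 D, hCD]
  have : Fintype 𝒞 := hfin.fintype
  refine ⟨Finset.univ.image rep, ?_, ?_, ?_, ?_⟩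
  · rw [Finset.card_image_of_injective _ hinj, Finset.card_univ]
    have h1 : ny q = 𝒞.ncard := rfl
    rw [h1, Set.ncard_eq_toFinset_card' 𝒞, Set.toFinset_card]
  · intro r hr
    obtain ⟨C, -, rfl⟩ := Finset.mem_image.1 hr
    exact hr1 C
  · intro r hr s hs hrs
    obtain ⟨C, -, rfl⟩ := Finset.mem_image.1 hr
    obtain ⟨D, -, rfl⟩ := Finset.mem_image.1 hs
    have h1 : (C : Set α) = D := by
      rw [hr2 C, hr2 D]
      exact cls_eq h q hrs
    rw [Subtype.ext h1]
  · intro i hi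
    let C : 𝒞 := ⟨{j | Isog (q i) (q j)}, i, hi, rfl⟩
    refine ⟨rep C, Finset.mem_image_of_mem _ (Finset.mem_univ _), ?_⟩
    have h1 : {j | Isog (q i) (q j)} = {j | Isog (q (rep C)) (q j)} := hr2 C
    exact isog_of_cls_eq h q h1.symm

theorem card_le_ny (h : ModAx) (q : α → L) (R : Finset α) (h1 : ∀ r ∈ R, ¬ IsCM (q r))
    (h2 : ∀ r ∈ R, ∀ s ∈ R, Isog (q r) (q s) → r = s) : R.card ≤ ny q := by
  have h3 : (R : Set α).ncard ≤ ny q := by
    refine Set.ncard_le_ncard_of_injOn (fun r => {j | Isog (q r) (q j)}) ?_ ?_ (Set.toFinite _)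
    · intro r hr
      exact ⟨r, h1 r hr, rfl⟩
    · intro r hr s hs hrs
      exact h2 r hr s hs (isog_of_cls_eq h q hrs)
  rwa [Set.ncard_coe_finset] at h3

theorem ny_le_card (h : ModAx) (q : α → L) (R : Finset α)
    (h1 : ∀ i, ¬ IsCM (q i) → ∃ r ∈ R, Isog (q r) (q i)) : ny q ≤ R.card := by
  classical
  have h2 : {C : Set α | ∃ i, ¬ IsCM (q i) ∧ C = {j | Isog (q i) (q j)}} ⊆
      ((R.image fun r => {j | Isog (q r) (q j)} : Finset (Set α)) : Set (Set α)) := by
    rintro C ⟨i, hi, rfl⟩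
    obtain ⟨r, hr, hri⟩ := h1 i hi
    rw [Finset.mem_coe, Finset.mem_image]
    exact ⟨r, hr, cls_eq h q hri⟩
  have h3 := Set.ncard_le_ncard h2 (Set.toFinite _)
  rw [Set.ncard_coe_finset] at h3
  exact h3.trans Finset.card_image_le

theorem ny_le (h : ModAx) (q : α → L) : ny q ≤ Fintype.card α := by
  have h1 := ny_le_card h q Finset.univ fun i _ => ⟨i, Finset.mem_univ i, isog_refl h (q i)⟩
  rwa [Finset.card_univ] at h1

theorem ny_mono (h : ModAx) {k L' : Type} [Field k] [CharZero k] [Algebra k L] [Field L']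
    [CharZero L'] [Algebra k L'] (q : α → L) (q' : α → L') (hs : aloc k q' ≤ aloc k q) :
    ny q ≤ ny q' := by
  obtain ⟨R, hR, h1, h2, -⟩ := ny_spec h q
  rw [← hR]
  exact card_le_ny h q' R (fun r hr hcm => h1 r hr (isCM_spec hs hcm))
    fun r hr s hs' hrs => h2 r hr s hs' (isog_spec hs hrs)

/-- If every non CM coordinate is isogenous to some `q r`, `r ∈ R`, then all coordinates are
algebraic over the elements `q r`, `r ∈ R`. -/
private theorem atd_le_card_reps (h : ModAx) {k : Type} [Field k] [IsAlgClosed k] [CharZero k]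
    [Algebra k L] (q : α → L) (R : Finset α)
    (h1 : ∀ i, ¬ IsCM (q i) →
      IsAlgebraic (Algebra.adjoin k (Set.range fun r : R => q r)) (q i)) :
    atd k q ≤ R.card := by
  rw [← Fintype.card_coe R]
  refine atd_le_card_of_algebraic (K := k) q (fun r : R => q r) fun i => ?_
  by_cases hi : IsCM (q i)
  · obtain ⟨c, hc⟩ := exists_of_isCM (k := k) h hi
    rw [← hc]
    exact isAlgebraic_algebraMap
      (⟨algebraMap k L c, Subalgebra.algebraMap_mem _ c⟩ :
        Algebra.adjoin k (Set.range fun r : R => q r))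
  · exact h1 i hi

omit [CharZero L] in
private theorem isAlgebraic_of_mem {k : Type} [Field k] [Algebra k L] {T : Set L} {x : L}
    (hx : x ∈ T) : IsAlgebraic (Algebra.adjoin k T) x :=
  isAlgebraic_algebraMap (⟨x, Algebra.subset_adjoin hx⟩ : Algebra.adjoin k T)

theorem atd_le_ny (h : ModAx) {k : Type} [Field k] [IsAlgClosed k] [CharZero k] [Algebra k L]
    (q : α → L) : atd k q ≤ ny q := by
  obtain ⟨R, hR, -, -, h3⟩ := ny_spec h q
  rw [← hR]
  refine atd_le_card_reps h q R fun i hi => ?_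
  obtain ⟨r, hr, hri⟩ := h3 i hi
  refine isAlgebraic_adjoin_trans (S := {q r}) ?_ (isAlgebraic_of_isog h hri)
  rintro x rfl
  exact isAlgebraic_of_mem ⟨⟨r, hr⟩, rfl⟩

/-- If the transcendence degree is the number of classes then all non CM coordinates are
transcendental. -/
theorem transcendental_of_atd_eq_ny (h : ModAx) {k : Type} [Field k] [IsAlgClosed k] [CharZero k]
    [Algebra k L] (q : α → L) (hq : ny q ≤ atd k q) (i : α) (hi : ¬ IsCM (q i)) :
    Transcendental k (q i) := by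
  classical
  intro halg
  obtain ⟨R, hR, -, -, h3⟩ := ny_spec h q
  obtain ⟨r₀, hr₀, hri₀⟩ := h3 i hi
  have hempty : ∀ T : Set L, IsAlgebraic (Algebra.adjoin k T) (q i) := fun T =>
    halg.extendScalars (algebraMap k (Algebra.adjoin k T)).injective
  have h0 : ∀ T : Set L, IsAlgebraic (Algebra.adjoin k T) (q r₀) := by
    intro T
    refine isAlgebraic_adjoin_trans (S := {q i}) ?_ (isAlgebraic_of_isog h (isog_symm h hri₀))
    rintro x rfl
    exact hempty T
  have h4 : atd k q ≤ (R.erase r₀).card := by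
    refine atd_le_card_reps h q (R.erase r₀) fun j hj => ?_
    obtain ⟨r, hr, hrj⟩ := h3 j hj
    refine isAlgebraic_adjoin_trans (S := {q r}) ?_ (isAlgebraic_of_isog h hrj)
    rintro x rfl
    by_cases hrr : r = r₀
    · rw [hrr]
      exact h0 _
    · exact isAlgebraic_of_mem ⟨⟨r, Finset.mem_erase.2 ⟨hrr, hr⟩⟩, rfl⟩
  have h5 := Finset.card_erase_lt_of_mem hr₀
  omega

end Pool.Agent.Lib.MP_a325a5_ag.MU
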