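import Pool.Agent.Lib.MP_a325a5_ag.UM.TDloc
import Pool.Agent.Lib.MP_a325a5_ag.UL.DimThm

/-! Krull's height theorem for points: a point which is isolated among the specialisations of `γ`
on `g` hypersurfaces has transcendence degree at least that of `γ` minus `g`.  The proof is the one
of `UL.typical`. -/

set_option autoImplicit false

namespace Pool.Agent.Lib.MP_a325a5_ag.MU

open MvPolynomial UM

private theorem krull_aeval_comp {K R S : Type} [Field K] [CommRing R] [CommRing S] [Algebra K R]
    [Algebra K S] (φ : R →ₐ[K] S) {n : ℕ} (z : Fin n → R) (f : MvPolynomial (Fin n) K) :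
    aeval (fun k => φ (z k)) f = φ (aeval z f) := by
  have h : (aeval (fun k => φ (z k)) : MvPolynomial (Fin n) K →ₐ[K] S) = φ.comp (aeval z) := by
    apply MvPolynomial.algHom_ext
    intro i
    rw [aeval_X, AlgHom.comp_apply, aeval_X]
  rw [h, AlgHom.comp_apply]

private theorem krull_indep_quot {K R S : Type} [Field K] [CommRing R] [CommRing S] [Algebra K R]
    [Algebra K S] (P : Ideal R) (ψ : R →ₐ[K] S) (hψ : ∀ r, ψ r = 0 → r ∈ P) {n : ℕ}
    (z : Fin n → R) (hz : AlgebraicIndependent K (fun i => Ideal.Quotient.mk P (z i))) :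
    AlgebraicIndependent K (fun k => ψ (z k)) := by
  rw [algebraicIndependent_iff] at hz ⊢
  intro f hf
  apply hz f
  rw [krull_aeval_comp] at hf
  have e2 := hψ _ hf
  have e3 : aeval (fun k => Ideal.Quotient.mk P (z k)) f = Ideal.Quotient.mk P (aeval z f) :=
    krull_aeval_comp (Ideal.Quotient.mkₐ K P) z f
  rw [e3, Ideal.Quotient.eq_zero_iff_mem]
  exact e2

/-- every prime ideal is the ideal of a vector -/
private theorem krull_exists_point {K ι : Type} [Field K] (Q : Ideal (MvPolynomial ι K))
    [hQ : Q.IsPrime] :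
    ∃ (L' : Type) (_ : Field L') (_ : Algebra K L') (τ' : ι → L'), aloc K τ' = Q := by
  classical
  let B := MvPolynomial ι K ⧸ Q
  let L' := FractionRing B
  have hinj : Function.Injective (algebraMap B L') := IsFractionRing.injective B L'
  refine ⟨L', inferInstance, inferInstance,
    fun i => algebraMap B L' (Ideal.Quotient.mk Q (X i)), ?_⟩
  ext f
  rw [mem_aloc]
  have key : aeval (fun i => algebraMap B L' (Ideal.Quotient.mk Q (X i))) f =
      algebraMap B L' (Ideal.Quotient.mk Q f) := by
    have h1 : (aeval (fun i => algebraMap B L' (Ideal.Quotient.mk Q (X i))) :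
        MvPolynomial ι K →ₐ[K] L') =
        (IsScalarTower.toAlgHom K B L').comp (Ideal.Quotient.mkₐ K Q) := by
      apply MvPolynomial.algHom_ext
      intro i
      rw [aeval_X]
      rfl
    rw [h1]
    rfl
  rw [key, map_eq_zero_iff _ hinj, Ideal.Quotient.eq_zero_iff_mem]

theorem krull_pts {k L L₁ : Type} [Field k] [Field L] [Algebra k L] [Field L₁] [Algebra k L₁]
    {ι : Type} [Fintype ι] (γ : ι → L₁) (τ : ι → L) (hspec : aloc k γ ≤ aloc k τ) {g : ℕ}
    (f : Fin g → MvPolynomial ι k) (hf : ∀ j, f j ∈ aloc k τ)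
    (hiso : ∀ (L' : Type) [Field L'] [Algebra k L'] (τ' : ι → L'), aloc k γ ≤ aloc k τ' →
      aloc k τ' ≤ aloc k τ → (∀ j, f j ∈ aloc k τ') → atd k τ' ≤ atd k τ) :
    atd k γ ≤ atd k τ + g := by
  classical
  let I : Ideal (MvPolynomial ι k) := aloc k γ
  let J : Ideal (MvPolynomial ι k) := aloc k τ
  have : I.IsPrime := aloc_isPrime k γ
  have : J.IsPrime := aloc_isPrime k τ
  let R := MvPolynomial ι k ⧸ I
  let mkI : MvPolynomial ι k →+* R := Ideal.Quotient.mk I
  have hsurj : Function.Surjective mkI := Ideal.Quotient.mk_surjective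
  let P : Ideal R := J.map mkI
  have hker : RingHom.ker mkI = I := Ideal.mk_ker
  have hP : P.IsPrime := Ideal.map_isPrime_of_surjective hsurj (by rw [hker]; exact hspec)
  have hPcomap : P.comap mkI = J := by
    rw [Ideal.comap_map_of_surjective mkI hsurj]
    rw [← RingHom.ker_eq_comap_bot, hker]
    exact sup_eq_left.mpr hspec
  let a : Fin g → R := fun j => mkI (f j)
  have hmin : P ∈ (Ideal.span (Set.range a)).minimalPrimes := by
    refine ⟨⟨hP, ?_⟩, ?_⟩
    · rw [Ideal.span_le]
      rintro _ ⟨j, rfl⟩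
      exact Ideal.mem_map_of_mem mkI (hf j)
    · rintro P' ⟨hP', hsp⟩ hle
      haveI := hP'
      let Q : Ideal (MvPolynomial ι k) := P'.comap mkI
      haveI hQ : Q.IsPrime := Ideal.comap_isPrime mkI P'
      have hIQ : I ≤ Q := by
        rw [← hker]
        intro x hx
        rw [Ideal.mem_comap, (RingHom.mem_ker).mp hx]
        exact zero_mem _
      have hQJ : Q ≤ J := by
        rw [← hPcomap]
        exact Ideal.comap_mono hle
      obtain ⟨L', i1, i2, τ', hτ'⟩ := krull_exists_point Q
      letI := i1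
      letI := i2
      have hγτ' : aloc k γ ≤ aloc k τ' := by rw [hτ']; exact hIQ
      have hτ'τ : aloc k τ' ≤ aloc k τ := by rw [hτ']; exact hQJ
      have htd : atd k τ' ≤ atd k τ := by
        refine hiso L' τ' hγτ' hτ'τ fun j => ?_
        rw [hτ']
        exact hsp (Ideal.subset_span ⟨j, rfl⟩)
      have heq : aloc k τ' = aloc k τ := aloc_eq_of_atd_le τ τ' hτ'τ htd
      have hQJ' : Q = J := by rw [← hτ', heq]
      have h10 : P' = P := by
        have : P'.comap mkI = P.comap mkI := by
          rw [hPcomap]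
          exact hQJ'
        exact Ideal.comap_injective_of_surjective mkI hsurj this
      exact h10.ge
  by_cases hcase : atd k γ ≤ g
  · omega
  · obtain ⟨s, hs⟩ : ∃ s, atd k γ = s + g := ⟨atd k γ - g, by omega⟩
    obtain ⟨J0, hJ0, hcard, -⟩ := atd_spec (K := k) γ
    have hc : Fintype.card J0 = s + g := by
      rw [Fintype.card_coe, hcard, hs]
    let e : Fin (s + g) ≃ J0 := (Fintype.equivFinOfCardEq hc).symm
    let φ : R →ₐ[k] L₁ := Ideal.Quotient.liftₐ I (aeval γ) (fun x hx => mem_aloc.mp hx)
    let y : Fin (s + g) → R := fun l => mkI (X (e l : ι))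
    have hy : AlgebraicIndependent k y := by
      apply AlgebraicIndependent.of_comp φ
      have : (φ ∘ y) = (fun j : J0 => γ j) ∘ e := by
        funext l
        change (aeval γ : MvPolynomial ι k →ₐ[k] L₁) (X (e l : ι)) = _
        rw [aeval_X]
        rfl
      rw [this]
      exact hJ0.comp e e.injective
    haveI : Algebra.FiniteType k R := inferInstance
    obtain ⟨z, hz⟩ := UL.exists_indep_of_mem_minimalPrimes y hy a P hmin
    let ψ : R →ₐ[k] L := Ideal.Quotient.liftₐ I (aeval τ) (fun x hx => mem_aloc.mp (hspec hx))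
    have hψ : ∀ f : MvPolynomial ι k, ψ (mkI f) = aeval τ f := fun f => rfl
    have hψker : ∀ r : R, ψ r = 0 → r ∈ P := by
      intro r hr
      obtain ⟨f, rfl⟩ := hsurj r
      rw [hψ] at hr
      exact Ideal.mem_map_of_mem mkI (mem_aloc.mpr hr)
    have hq : AlgebraicIndependent k (fun l => ψ (z l)) := krull_indep_quot P ψ hψker z hz
    have hfin := le_atd (K := k) τ (fun l => ψ (z l)) hq (by
      intro l
      obtain ⟨f, hf⟩ := hsurj (z l)
      rw [← hf, hψ]
      have hmem : aeval τ f ∈ Algebra.adjoin k (Set.range fun i => τ i) := by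
        rw [Algebra.adjoin_range_eq_range_aeval]
        exact ⟨f, rfl⟩
      exact isAlgebraic_algebraMap (⟨_, hmem⟩ : Algebra.adjoin k (Set.range fun i => τ i)))
    rw [Fintype.card_fin] at hfin
    omega

end Pool.Agent.Lib.MP_a325a5_ag.MU
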