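import Pool.Agent.Lib.MP_a325a5_ag.MU.YBasic
import Pool.Agent.Lib.MP_a325a5_ag.MU.YCls

/-! The equations of a specialisation in `Y(1)^α`: if `q₁` specialises to `q` then there are
`ny q₁ - ny q` equations which hold at `q` and which imply, for all points between `q₁` and `q`, all
special relations of `q`. -/

set_option autoImplicit false

namespace Pool.Agent.Lib.MP_a325a5_ag.MU

open MvPolynomial UM

/-- A subset with a property and of maximal cardinality. -/
private theorem yk_max {α : Type} (R : Finset α) (Q : Finset α → Prop) (h0 : Q ∅) :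
    ∃ A ⊆ R, Q A ∧ ∀ B ⊆ R, Q B → B.card ≤ A.card := by
  classical
  obtain ⟨A, hA, hmax⟩ := Finset.exists_max_image (R.powerset.filter Q) Finset.card
    ⟨∅, Finset.mem_filter.mpr ⟨Finset.empty_mem_powerset R, h0⟩⟩
  rw [Finset.mem_filter, Finset.mem_powerset] at hA
  exact ⟨A, hA.1, hA.2, fun B hB hQ =>
    hmax B (Finset.mem_filter.mpr ⟨Finset.mem_powerset.mpr hB, hQ⟩)⟩

/-- A maximal subset of pairwise unrelated elements with the property `P`. -/
private theorem yk_maximal {α : Type} (R : Finset α) (P : α → Prop) (r : α → α → Prop)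
    (hr : ∀ x, r x x) (hs : ∀ x y, r x y → r y x) :
    ∃ R₀ ⊆ R, (∀ x ∈ R₀, P x) ∧ (∀ x ∈ R₀, ∀ y ∈ R₀, r x y → x = y) ∧
      ∀ x ∈ R, P x → ∃ y ∈ R₀, r y x := by
  classical
  obtain ⟨R₀, h0, ⟨h1, h2⟩, hmax⟩ := yk_max R
    (fun A => (∀ x ∈ A, P x) ∧ ∀ x ∈ A, ∀ y ∈ A, r x y → x = y)
    ⟨fun x hx => absurd hx (Finset.notMem_empty x),
      fun x hx => absurd hx (Finset.notMem_empty x)⟩
  refine ⟨R₀, h0, h1, h2, fun x hx hPx => ?_⟩
  by_contra hcon
  push Not at hcon
  have hx0 : x ∉ R₀ := fun h => hcon x h (hr x)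
  have h3 := hmax (insert x R₀) (Finset.insert_subset hx h0) ⟨?_, ?_⟩
  · rw [Finset.card_insert_of_notMem hx0] at h3
    omega
  · intro y hy
    rcases Finset.mem_insert.mp hy with hyx | hy
    · rw [hyx]
      exact hPx
    · exact h1 y hy
  · intro y hy z hz hyz
    rcases Finset.mem_insert.mp hy with hyx | hy
    · rcases Finset.mem_insert.mp hz with hzx | hz
      · rw [hyx, hzx]
      · rw [hyx] at hyz
        exact absurd (hs _ _ hyz) (hcon z hz)
    · rcases Finset.mem_insert.mp hz with hzx | hz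
      · rw [hzx] at hyz
        exact absurd hyz (hcon y hy)
      · exact h2 y hy z hz hyz

theorem exists_y_equations (h : ModAx) {k L L₁ : Type} [Field k] [IsAlgClosed k] [CharZero k]
    [Field L] [CharZero L] [Algebra k L] [Field L₁] [CharZero L₁] [Algebra k L₁] {α : Type}
    [Fintype α] (q : α → L) (q₁ : α → L₁) (hs : aloc k q₁ ≤ aloc k q) :
    ∃ (g : ℕ) (f : Fin g → MvPolynomial α k), g + ny q = ny q₁ ∧ (∀ j, f j ∈ aloc k q) ∧
      ∀ (L' : Type) [Field L'] [CharZero L'] [Algebra k L'] (q' : α → L'),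
        aloc k q₁ ≤ aloc k q' → aloc k q' ≤ aloc k q → (∀ j, f j ∈ aloc k q') →
          YSat k q q' := by
  classical
  obtain ⟨R, hRc, hR1, hR2, hR3⟩ := ny_spec h q₁
  obtain ⟨R₀, hR₀R, hR₀1, hR₀2, hR₀3⟩ := yk_maximal R (fun r => ¬ IsCM (q r))
    (fun r s => Isog (q r) (q s)) (fun r => isog_refl h (q r)) (fun r s hrs => isog_symm h hrs)
  have hcard : R₀.card = ny q := by
    apply le_antisymm
    · exact card_le_ny h q R₀ hR₀1 hR₀2
    · apply ny_le_card h q R₀
      intro i hi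
      have hi1 : ¬ IsCM (q₁ i) := fun hcm => hi (isCM_spec hs hcm)
      obtain ⟨r, hr, hri⟩ := hR3 i hi1
      have hri' : Isog (q r) (q i) := isog_spec hs hri
      have hr' : ¬ IsCM (q r) := fun hcm => hi (isCM_of_isog h hri' hcm)
      obtain ⟨r₀, hr₀, hr₀r⟩ := hR₀3 r hr hr'
      exact ⟨r₀, hr₀, isog_trans h hr₀r hri'⟩
  -- the equations
  have hex : ∀ r : α, r ∈ R → ∃ F : MvPolynomial α k, F ∈ aloc k q ∧
      ∀ (L' : Type) [Field L'] [CharZero L'] [Algebra k L'] (q' : α → L'), F ∈ aloc k q' →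
        (IsCM (q r) → ∃ c : k, q r = algebraMap k L c ∧ q' r = algebraMap k L' c) ∧
        (¬ IsCM (q r) → ∃ r₀ ∈ R₀, Isog (q r₀) (q r) ∧ Isog (q' r₀) (q' r)) := by
    intro r hr
    by_cases hcm : IsCM (q r)
    · obtain ⟨c, hc⟩ := exists_of_isCM (k := k) h hcm
      refine ⟨X r - C c, ?_, ?_⟩
      · rw [mem_aloc, map_sub, aeval_X, algHom_C, hc, sub_self]
      · intro L' _ _ _ q' hq'
        refine ⟨fun _ => ⟨c, hc.symm, ?_⟩, fun hn => absurd hcm hn⟩
        rw [mem_aloc, map_sub, aeval_X, algHom_C, sub_eq_zero] at hq'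
        exact hq'
    · obtain ⟨r₀, hr₀, N, hN, hphi⟩ := hR₀3 r hr hcm
      refine ⟨phiPoly k N r₀ r, ?_, ?_⟩
      · rw [mem_aloc, aeval_phiPoly, hphi]
      · intro L' _ _ _ q' hq'
        refine ⟨fun hn => absurd hn hcm, fun _ => ⟨r₀, hr₀, ⟨N, hN, hphi⟩, N, hN, ?_⟩⟩
        rw [mem_aloc, aeval_phiPoly] at hq'
        exact hq'
  choose! F hF1 hF2 using hex
  let e := (R \ R₀).equivFin
  have hmem : ∀ j, ((e.symm j : (R \ R₀ : Finset α)) : α) ∈ R := fun j =>
    (Finset.mem_sdiff.mp (e.symm j).2).1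
  refine ⟨(R \ R₀).card, fun j => F (e.symm j), ?_, fun j => hF1 _ (hmem j), ?_⟩
  · rw [← hcard, ← hRc]
    exact Finset.card_sdiff_add_card_eq_card hR₀R
  intro L' _ _ _ q' h1 h2 hf
  -- the properties of all representatives
  have hP : ∀ r ∈ R,
      (IsCM (q r) → ∃ c : k, q r = algebraMap k L c ∧ q' r = algebraMap k L' c) ∧
        (¬ IsCM (q r) → ∃ r₀ ∈ R₀, Isog (q r₀) (q r) ∧ Isog (q' r₀) (q' r)) := by
    intro r hr
    by_cases hr0 : r ∈ R₀
    · exact ⟨fun hcm => absurd hcm (hR₀1 r hr0), fun _ => ⟨r, hr0, isog_refl h _, isog_refl h _⟩⟩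
    · have h3 : F (e.symm (e ⟨r, Finset.mem_sdiff.mpr ⟨hr, hr0⟩⟩)) ∈ aloc k q' :=
        hf (e ⟨r, Finset.mem_sdiff.mpr ⟨hr, hr0⟩⟩)
      rw [Equiv.symm_apply_apply] at h3
      exact hF2 r hr L' q' h3
  have hconst : ∀ i (c : k), IsCM c → q i = algebraMap k L c → q' i = algebraMap k L' c := by
    intro i c hc hic
    by_cases hi : IsCM (q₁ i)
    · obtain ⟨c', hc'⟩ := exists_of_isCM (k := k) h hi
      have h3 : q' i = algebraMap k L' c' := const_spec h1 hc'.symm
      have h4 : q i = algebraMap k L c' := const_spec h2 h3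
      have h5 : c = c' := (algebraMap k L).injective (hic.symm.trans h4)
      rw [h5]
      exact h3
    · obtain ⟨r, hr, hri⟩ := hR3 i hi
      have h3 : Isog (q r) (q i) := isog_spec hs hri
      have h4 : Isog (q' r) (q' i) := isog_spec h1 hri
      have h5 : IsCM (q i) := by
        rw [hic, isCM_algebraMap]
        exact hc
      have h6 : IsCM (q r) := isCM_of_isog h (isog_symm h h3) h5
      obtain ⟨c₁, hc₁, hc₁'⟩ := (hP r hr).1 h6
      rw [hc₁'] at h4
      obtain ⟨c₂, hc₂⟩ := exists_of_isog_algebraMap h h4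
      have h7 : q i = algebraMap k L c₂ := const_spec h2 hc₂.symm
      have h8 : c = c₂ := (algebraMap k L).injective (hic.symm.trans h7)
      rw [h8]
      exact hc₂.symm
  refine ⟨?_, hconst⟩
  intro i j N hN hij
  by_cases hi : IsCM (q i)
  · have hj : IsCM (q j) := h.cm L N _ _ hN hij hi
    obtain ⟨ci, hci⟩ := exists_of_isCM (k := k) h hi
    obtain ⟨cj, hcj⟩ := exists_of_isCM (k := k) h hj
    rw [← hci, isCM_algebraMap] at hi
    rw [← hcj, isCM_algebraMap] at hj
    have h3 := hconst i ci hi hci.symm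
    have h4 := hconst j cj hj hcj.symm
    rw [h3, h4, phi_algebraMap]
    rw [← hci, ← hcj, phi_algebraMap, map_eq_zero] at hij
    rw [hij, map_zero]
  · have hj : ¬ IsCM (q j) := fun hcm => hi (h.cm L N _ _ hN (h.symm L N _ _ hN hij) hcm)
    obtain ⟨r, hr, hri⟩ := hR3 i fun hcm => hi (isCM_spec hs hcm)
    obtain ⟨s, hs', hsj⟩ := hR3 j fun hcm => hj (isCM_spec hs hcm)
    have ar : Isog (q r) (q i) := isog_spec hs hri
    have ar' : Isog (q' r) (q' i) := isog_spec h1 hri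
    have as : Isog (q s) (q j) := isog_spec hs hsj
    have as' : Isog (q' s) (q' j) := isog_spec h1 hsj
    obtain ⟨r₀, hr₀, br, br'⟩ := (hP r hr).2 fun hcm => hi (isCM_of_isog h ar hcm)
    obtain ⟨s₀, hs₀, bs, bs'⟩ := (hP s hs').2 fun hcm => hj (isCM_of_isog h as hcm)
    have h3 : Isog (q r₀) (q s₀) :=
      isog_trans h (isog_trans h br ar) (isog_trans h ⟨N, hN, hij⟩
        (isog_symm h (isog_trans h bs as)))
    have h4 : r₀ = s₀ := hR₀2 r₀ hr₀ s₀ hs₀ h3
    have h5 : Isog (q' i) (q' j) := by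
      refine isog_trans h (isog_symm h (isog_trans h br' ar')) ?_
      rw [h4]
      exact isog_trans h bs' as'
    obtain ⟨M, hM, hM'⟩ := h5
    have h6 : phi M (q i) (q j) = 0 := phi_spec h2 hM'
    have h7 : N = M := by
      by_contra hne
      exact hi (h.uniq L N M _ _ hN hM hne hij h6)
    rw [h7]
    exact hM'

end Pool.Agent.Lib.MP_a325a5_ag.MU
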