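import Pool.Agent.Lib.MP_a325a5_ag.UM.LocSet

/-! The product of irreducible sets, indexed by the classes of an equivalence relation on the
coordinates, is irreducible and closed. -/

set_option autoImplicit false

namespace Pool.Agent.Lib.MP_a325a5_ag.MU

open MvPolynomial UM

/-- The condition on the coordinates with the property `p`. -/
private def ypH {k L α : Type} [Field k] [Field L] [Algebra k L] (q : α → L) (x : α → k)
    (p : α → Prop) : Prop :=
  aloc k (fun j : {j // p j} => q j) ≤ aloc k (fun j : {j // p j} => x j)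

private theorem ypH_congr {k L α : Type} [Field k] [Field L] [Algebra k L] (q : α → L)
    (x x' : α → k) (p p' : α → Prop) (hp : p = p') (hx : ∀ j, p' j → x j = x' j) :
    ypH q x p ↔ ypH q x' p' := by
  subst hp
  unfold ypH
  have h : (fun j : {j // p j} => x j) = fun j : {j // p j} => x' j := by
    funext j
    exact hx j.1 j.2
  rw [h]

open Classical in
/-- The point `x` with the coordinates in `p` replaced by `u`. -/
private noncomputable def ypU {k α : Type} (p : α → Prop) (x : α → k) (u : {j // p j} → k) :
    α → k :=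
  fun j => if h : p j then u ⟨j, h⟩ else x j

open Classical in
/-- The polynomial `u ↦ f (x with p := u)`. -/
private noncomputable def ypS {k α : Type} [Field k] (p : α → Prop) (x : α → k)
    (f : MvPolynomial α k) : MvPolynomial {j // p j} k :=
  aeval (fun j => if h : p j then X ⟨j, h⟩ else C (x j)) f

private theorem ypS_eval {k α : Type} [Field k] (p : α → Prop) (x : α → k)
    (f : MvPolynomial α k) (u : {j // p j} → k) :
    eval u (ypS p x f) = eval (ypU p x u) f := by
  classical
  unfold ypS ypU
  have h : (eval u).comp (aeval (fun j => if h : p j then X ⟨j, h⟩ else C (x j)) :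
      MvPolynomial α k →ₐ[k] MvPolynomial {j // p j} k).toRingHom =
      eval (fun j => if h : p j then u ⟨j, h⟩ else x j) := by
    apply MvPolynomial.ringHom_ext
    · intro r
      simp [MvPolynomial.algebraMap_eq]
    · intro i
      by_cases hi : p i
      · simp [hi]
      · simp [hi]
  exact RingHom.congr_fun h f

private theorem yp_self {k α : Type} (p : α → Prop) (x : α → k) :
    ypU p x (fun j => x j) = x := by
  classical
  funext j
  unfold ypU
  split_ifs <;> rfl

/-- The irreducible set of a class. -/
private theorem yp_irr {k L α : Type} [Field k] [IsAlgClosed k] [Field L] [Algebra k L]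
    [Fintype α] (q : α → L) (p : α → Prop) :
    ∃ T : Set ({j // p j} → k), AIrr T ∧
      ∀ u, u ∈ T ↔ aloc k (fun j : {j // p j} => q j) ≤ aloc k u := by
  classical
  obtain ⟨T, hT, h⟩ := exists_airr (K := k) (fun j : {j // p j} => q j)
  refine ⟨T, hT, fun u => ?_⟩
  rw [amem_iff_le_aloc hT, h]

/-- The exchange argument. -/
private theorem yp_exchange {k : Type} [Field k] [IsAlgClosed k] {α : Type} [Fintype α]
    (s : Setoid α) {L : Type} [Field L] [Algebra k L] (q : α → L) (T : Finset α) :
    ∀ (f g : MvPolynomial α k) (x y : α → k), (∀ i, ypH q x (s.r i)) → (∀ i, ypH q y (s.r i)) →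
      (∀ j, x j ≠ y j → ∃ i ∈ T, s.r i j) → eval x f ≠ 0 → eval y g ≠ 0 →
        ∃ z : α → k, (∀ i, ypH q z (s.r i)) ∧ eval z f ≠ 0 ∧ eval z g ≠ 0 := by
  classical
  induction T using Finset.induction_on with
  | empty =>
    intro f g x y hx hy hxy hf hg
    have h : x = y := by
      funext j
      by_contra hj
      obtain ⟨i, hi, -⟩ := hxy j hj
      exact absurd hi (Finset.notMem_empty i)
    subst h
    exact ⟨x, hx, hf, hg⟩
  | insert i T hiT ih =>
    intro f g x y hx hy hxy hf hg
    obtain ⟨S, hS, hmem⟩ := yp_irr (k := k) q (s.r i)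
    have k1 : ypS (s.r i) x f ∉ avan S := by
      intro h
      have h1 := h (fun j => x j) ((hmem _).2 (hx i))
      rw [ypS_eval, yp_self] at h1
      exact hf h1
    have k2 : ypS (s.r i) y g ∉ avan S := by
      intro h
      have h1 := h (fun j => y j) ((hmem _).2 (hy i))
      rw [ypS_eval, yp_self] at h1
      exact hg h1
    have k3 : ypS (s.r i) x f * ypS (s.r i) y g ∉ avan S := by
      intro h
      rcases hS.1.mem_or_mem h with h | h
      · exact k1 h
      · exact k2 h
    rw [mem_avan] at k3
    push Not at k3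
    obtain ⟨u, hu, h3⟩ := k3
    rw [map_mul, ypS_eval, ypS_eval] at h3
    have h4 := left_ne_zero_of_mul h3
    have h5 := right_ne_zero_of_mul h3
    have key : ∀ w : α → k, (∀ i', ypH q w (s.r i')) →
        ∀ i', ypH q (ypU (s.r i) w u) (s.r i') := by
      intro w hw i'
      by_cases h : s.r i i'
      · have e1 : s.r i' = s.r i := by
          funext j
          exact propext ⟨fun h' => s.iseqv.trans h h', fun h' => s.iseqv.trans (s.iseqv.symm h) h'⟩
        rw [ypH_congr q (ypU (s.r i) w u) (ypU (s.r i) w u) _ _ e1 (fun _ _ => rfl)]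
        unfold ypH
        have e2 : (fun j : {j // s.r i j} => ypU (s.r i) w u j) = u := by
          funext j
          unfold ypU
          rw [dif_pos j.2]
        rw [e2]
        exact (hmem u).1 hu
      · rw [ypH_congr q (ypU (s.r i) w u) w _ _ rfl (fun j hj => ?_)]
        · exact hw i'
        · unfold ypU
          rw [dif_neg]
          intro h'
          exact h (s.iseqv.trans h' (s.iseqv.symm hj))
    refine ih f g (ypU (s.r i) x u) (ypU (s.r i) y u) (key x hx) (key y hy) ?_ h4 h5
    intro j hj
    have hnp : ¬ s.r i j := by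
      intro h
      apply hj
      unfold ypU
      rw [dif_pos h, dif_pos h]
    have hxy' : x j ≠ y j := by
      intro h
      apply hj
      unfold ypU
      rw [dif_neg hnp, dif_neg hnp, h]
    obtain ⟨i', hi', hr⟩ := hxy j hxy'
    rcases Finset.mem_insert.1 hi' with h | h
    · subst h
      exact absurd hr hnp
    · exact ⟨i', h, hr⟩

/-- There is a point. -/
private theorem yp_nonempty {k : Type} [Field k] [IsAlgClosed k] {α : Type} [Fintype α]
    (s : Setoid α) {L : Type} [Field L] [Algebra k L] (q : α → L) :
    ∃ x : α → k, ∀ i, ypH q x (s.r i) := by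
  have h1 : ∀ i, ∃ u : {j // s.r i j} → k,
      aloc k (fun j : {j // s.r i j} => q j) ≤ aloc k u := by
    intro i
    obtain ⟨S, hS, hmem⟩ := yp_irr (k := k) q (s.r i)
    obtain ⟨u, hu⟩ := hS.nonempty
    exact ⟨u, (hmem u).1 hu⟩
  choose u hu using h1
  let rep : α → α := fun i => (Quotient.mk s i).out
  have hrep : ∀ i, s.r (rep i) i := fun i => Quotient.exact (Quotient.out_eq (Quotient.mk s i))
  have hrep' : ∀ i j, s.r i j → rep i = rep j := by
    intro i j h
    have : Quotient.mk s i = Quotient.mk s j := Quotient.sound h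
    change (Quotient.mk s i).out = (Quotient.mk s j).out
    rw [this]
  have huc : ∀ a b (_ : a = b) (j : α) (ha : s.r a j) (hb : s.r b j),
      u a ⟨j, ha⟩ = u b ⟨j, hb⟩ := by
    intro a b h j ha hb
    subst h
    rfl
  refine ⟨fun j => u (rep j) ⟨j, hrep j⟩, fun i => ?_⟩
  have e1 : s.r i = s.r (rep i) := by
    funext j
    exact propext ⟨fun h' => s.iseqv.trans (hrep i) h',
      fun h' => s.iseqv.trans (s.iseqv.symm (hrep i)) h'⟩
  rw [ypH_congr q _ (fun j => u (rep j) ⟨j, hrep j⟩) _ _ e1 (fun _ _ => rfl)]
  unfold ypH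
  have e2 : (fun j : {j // s.r (rep i) j} => u (rep j) ⟨j, hrep j⟩) = u (rep i) := by
    funext j
    exact huc _ _ (hrep' _ _ (s.iseqv.trans (s.iseqv.symm j.2) (hrep i))) j.1 _ _
  rw [e2]
  exact hu (rep i)

theorem class_prod_prime {k : Type} [Field k] [IsAlgClosed k] {α : Type} [Fintype α]
    (s : Setoid α) {L : Type} [Field L] [Algebra k L] (q : α → L) :
    AIrr {x : α → k | ∀ i, aloc k (fun j : {j // s.r i j} => q j) ≤
      aloc k (fun j : {j // s.r i j} => x j)} := by
  refine ⟨⟨?_, ?_⟩, ?_⟩
  · intro htop
    rw [Ideal.eq_top_iff_one] at htop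
    obtain ⟨x, hx⟩ := yp_nonempty (k := k) s q
    have h1 := htop x hx
    rw [map_one] at h1
    exact one_ne_zero h1
  · intro f g hfg
    by_contra hcon
    push Not at hcon
    obtain ⟨hf, hg⟩ := hcon
    rw [mem_avan] at hf hg
    push Not at hf hg
    obtain ⟨x, hx, h1⟩ := hf
    obtain ⟨y, hy, h2⟩ := hg
    obtain ⟨z, hz, h3, h4⟩ := yp_exchange s q Finset.univ f g x y hx hy
      (fun j _ => ⟨j, Finset.mem_univ j, s.iseqv.refl j⟩) h1 h2
    have h5 := hfg z hz
    rw [map_mul] at h5
    exact mul_ne_zero h3 h4 h5
  · intro x hx i g hg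
    have h1 : rename (Subtype.val : {j // s.r i j} → α) g ∈
        avan {x : α → k | ∀ i, aloc k (fun j : {j // s.r i j} => q j) ≤
          aloc k (fun j : {j // s.r i j} => x j)} := by
      intro z hz
      rw [eval_rename]
      exact mem_aloc_self.mp (hz i hg)
    have h2 := hx _ h1
    rw [eval_rename] at h2
    exact mem_aloc_self.mpr h2

end Pool.Agent.Lib.MP_a325a5_ag.MU
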