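import Pool.Agent.Lib.MP_a325a5_ag.MU.YBasic
import Pool.Agent.Lib.MP_a325a5_ag.MU.YCls
import Pool.Agent.Lib.MP_a325a5_ag.MU.YKer
import Pool.Agent.Lib.MP_a325a5_ag.MU.Krull
import Pool.Agent.Lib.MP_a325a5_ag.MU.YProd
import Pool.Agent.Lib.MP_a325a5_ag.UM.LocSet

/-! The generic point of a special subvariety of `Y(1)^α`: its transcendence degree is the number of its
classes, and a special subvariety is the product of its projections to the isogeny classes of its
coordinates. -/

set_option autoImplicit false

namespace Pool.Agent.Lib.MP_a325a5_ag.MU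

open MvPolynomial UM

private theorem yg_charZero {k L : Type} [Field k] [CharZero k] [Field L] [Algebra k L] :
    CharZero L :=
  charZero_of_injective_algebraMap (algebraMap k L).injective

/-- The modular equations which hold on the closed set hold at its generic point and conversely. -/
private theorem yg_phi {k L : Type} [Field k] [CharZero k] [Field L] [CharZero L] [Algebra k L]
    {α : Type} {W : Set (α → k)} {q : α → L} (hq : aloc k q = avan W) (N : ℕ) (i j : α) :
    phi N (q i) (q j) = 0 ↔ ∀ x ∈ W, phi N (x i) (x j) = 0 := by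
  rw [← aeval_phiPoly (k := k) N i j q, ← mem_aloc, hq, mem_avan]
  refine forall₂_congr fun x _ => ?_
  rw [← aeval_phiPoly (k := k) N i j x, ← mem_aloc_self, mem_aloc]

private theorem yg_const {k L : Type} [Field k] [Field L] [Algebra k L]
    {α : Type} {W : Set (α → k)} {q : α → L} (hq : aloc k q = avan W) (i : α) (c : k) :
    q i = algebraMap k L c ↔ ∀ x ∈ W, x i = c := by
  have h1 : q i = algebraMap k L c ↔ (X i - C c : MvPolynomial α k) ∈ aloc k q := by
    rw [mem_aloc, map_sub, aeval_X, aeval_C, sub_eq_zero]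
  rw [h1, hq, mem_avan]
  refine forall₂_congr fun x _ => ?_
  rw [map_sub, eval_X, eval_C, sub_eq_zero]

private theorem yg_generic (k : Type) [Field k] [IsAlgClosed k] (α : Type) [Fintype α] :
    ∃ (L : Type) (_ : Field L) (_ : Algebra k L) (γ : α → L), aloc k γ = ⊥ ∧
      Fintype.card α ≤ atd k γ := by
  have hinf : Infinite k := IsAlgClosed.instInfinite
  have h0 : avan (Set.univ : Set (α → k)) = ⊥ := by
    rw [eq_bot_iff]
    intro f hf
    rw [Ideal.mem_bot]
    apply MvPolynomial.funext
    intro x
    rw [map_zero]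
    exact hf x (Set.mem_univ x)
  have h1 : AIrr (Set.univ : Set (α → k)) := by
    refine ⟨?_, fun x _ => Set.mem_univ x⟩
    rw [h0]
    exact Ideal.isPrime_bot
  obtain ⟨L, iL, iA, γ, hγ⟩ := exists_ageneric _ h1
  refine ⟨L, iL, iA, γ, hγ.trans h0, ?_⟩
  refine le_atd γ γ ?_ ?_
  · rw [algebraicIndependent_iff_injective_aeval, injective_iff_map_eq_zero]
    intro f hf
    have h2 : f ∈ aloc k γ := mem_aloc.mpr hf
    rw [hγ, h0, Ideal.mem_bot] at h2
    exact h2
  · intro j
    exact isAlgebraic_algebraMap (⟨γ j, Algebra.subset_adjoin ⟨j, rfl⟩⟩ :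
      Algebra.adjoin k (Set.range fun i => γ i))

theorem atd_of_ycomp (h : ModAx) {k L : Type} [Field k] [IsAlgClosed k] [CharZero k] [Field L]
    [CharZero L] [Algebra k L] {α : Type} [Fintype α] (T : Set (α → k)) (hT : T ∈ YSpecial k α)
    (q : α → L) (hq : aloc k q = avan T) : atd k q = ny q := by
  obtain ⟨E, F, hE, hF, hirr, hsub, hmax⟩ := hT
  obtain ⟨L₁, iL₁, iA₁, γ, hγ, hγc⟩ := yg_generic k α
  have hc₁ : CharZero L₁ := yg_charZero (k := k)
  have hspec : aloc k γ ≤ aloc k q := by
    rw [hγ]
    exact bot_le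
  obtain ⟨g, f, hg, hf, H⟩ := exists_y_equations h q γ hspec
  have hk : atd k γ ≤ atd k q + g := by
    refine krull_pts γ q hspec f hf ?_
    intro L' _ _ τ' h1 h2 h3
    have hc' : CharZero L' := yg_charZero (k := k)
    obtain ⟨hs1, hs2⟩ := H L' τ' h1 h2 h3
    obtain ⟨W, hW, hWq⟩ := exists_airr (K := k) τ'
    have hTW : T ⊆ W := by
      rw [asubset_iff hW, hWq, ← hq]
      exact h2
    have hWV : W ⊆ ylocus E F := by
      intro x hx
      constructor
      · intro e he
        have h4 : phi e.2.2 (q e.1) (q e.2.1) = 0 := by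
          rw [yg_phi hq]
          intro y hy
          exact (hsub hy).1 e he
        have h5 := hs1 _ _ _ (hE e he) h4
        rw [yg_phi hWq.symm] at h5
        exact h5 x hx
      · intro e he
        have h4 : q e.1 = algebraMap k L e.2 := by
          rw [yg_const hq]
          intro y hy
          exact (hsub hy).2 e he
        have h5 := hs2 _ _ (hF e he) h4
        rw [yg_const hWq.symm] at h5
        exact h5 x hx
    have hWT := hmax W hW hTW hWV
    have h6 : aloc k τ' = aloc k q := by
      rw [← hWq, hWT, hq]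
    exact (atd_congr q τ' h6).le
  have h7 := ny_le h γ
  have h8 := atd_le_ny h (k := k) q
  omega

/-- A special subvariety is the product of its projections to the isogeny classes. -/
theorem yspecial_eq_prod (h : ModAx) {k L : Type} [Field k] [IsAlgClosed k] [CharZero k] [Field L]
    [CharZero L] [Algebra k L] {α : Type} [Fintype α] (T : Set (α → k)) (hT : T ∈ YSpecial k α)
    (q : α → L) (hq : aloc k q = avan T) :
    T = {x : α → k | ∀ i, aloc k (fun j : {j // Isog (q i) (q j)} => q j) ≤
      aloc k (fun j : {j // Isog (q i) (q j)} => x j)} := by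
  obtain ⟨E, F, hE, hF, hirr, hsub, hmax⟩ := hT
  let s : Setoid α :=
    { r := fun i j => Isog (q i) (q j)
      iseqv := ⟨fun i => isog_refl h (q i), fun hij => isog_symm h hij,
        fun hij hjl => isog_trans h hij hjl⟩ }
  have hP : AIrr {x : α → k | ∀ i, aloc k (fun j : {j // Isog (q i) (q j)} => q j) ≤
      aloc k (fun j : {j // Isog (q i) (q j)} => x j)} := class_prod_prime s q
  symm
  refine hmax _ hP ?_ ?_
  · intro x hx i f hf
    have h1 : rename Subtype.val f ∈ aloc k q := by
      rw [mem_aloc, aeval_rename]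
      exact mem_aloc.mp hf
    have h2 : rename Subtype.val f ∈ aloc k x := by
      rw [hq] at h1
      exact (amem_iff_le_aloc hirr x).mp hx h1
    rw [mem_aloc, aeval_rename] at h2
    exact mem_aloc.mpr h2
  · intro x hx
    constructor
    · intro e he
      have h4 : phi e.2.2 (q e.1) (q e.2.1) = 0 := by
        rw [yg_phi hq]
        intro y hy
        exact (hsub hy).1 e he
      have h5 : phiPoly k e.2.2 (⟨e.1, isog_refl h (q e.1)⟩ : {j // Isog (q e.1) (q j)})
          ⟨e.2.1, e.2.2, hE e he, h4⟩ ∈
          aloc k (fun j : {j // Isog (q e.1) (q j)} => q j) := by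
        rw [mem_aloc, aeval_phiPoly]
        exact h4
      have h6 := hx e.1 h5
      rw [mem_aloc, aeval_phiPoly] at h6
      exact h6
    · intro e he
      have h4 : q e.1 = algebraMap k L e.2 := by
        rw [yg_const hq]
        intro y hy
        exact (hsub hy).2 e he
      have h5 : (X (⟨e.1, isog_refl h (q e.1)⟩ : {j // Isog (q e.1) (q j)}) - C e.2 :
          MvPolynomial {j // Isog (q e.1) (q j)} k) ∈
          aloc k (fun j : {j // Isog (q e.1) (q j)} => q j) := by
        rw [mem_aloc, map_sub, aeval_X, aeval_C, sub_eq_zero]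
        exact h4
      have h6 := hx e.1 h5
      rw [mem_aloc, map_sub, aeval_X, aeval_C, sub_eq_zero] at h6
      exact h6

end Pool.Agent.Lib.MP_a325a5_ag.MU
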