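import Pool.Agent.Lib.MP_a325a5_ag.MU.YDefs
import Pool.Agent.Lib.MP_a325a5_ag.UM.Pts

/-! Unique branches of the modular correspondences through non CM points. -/

set_option autoImplicit false

namespace Pool.Agent.Lib.MP_a325a5_ag.MU

open MvPolynomial UM

open scoped TensorProduct nonZeroDivisors

/-- Two domains which are integral over a Dedekind domain `A` and map to a domain `L` compatibly with
`A` embed into a third domain which maps to `L`. -/
private theorem yub_compositum {A D₁ D₂ L : Type} [CommRing A] [IsDedekindDomain A]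
    [CommRing D₁] [IsDomain D₁] [CommRing D₂] [IsDomain D₂] [CommRing L] [IsDomain L]
    [Algebra A D₁] [Algebra A D₂] [Algebra A L]
    (i₁ : Function.Injective (algebraMap A D₁)) (i₂ : Function.Injective (algebraMap A D₂))
    (n₁ : Algebra.IsIntegral A D₁) (n₂ : Algebra.IsIntegral A D₂)
    (σ₁ : D₁ →ₐ[A] L) (σ₂ : D₂ →ₐ[A] L) :
    ∃ (Q : Type) (_ : CommRing Q) (_ : IsDomain Q) (_ : Algebra A Q) (j₁ : D₁ →ₐ[A] Q)
      (j₂ : D₂ →ₐ[A] Q) (τ : Q →ₐ[A] L), Function.Injective j₁ ∧ Function.Injective j₂ ∧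
      (∀ x, τ (j₁ x) = σ₁ x) ∧ ∀ x, τ (j₂ x) = σ₂ x := by
  have tf₁ : Module.IsTorsionFree A D₁ := by
    rw [Module.isTorsionFree_iff_algebraMap_injective]
    exact i₁
  have tf₂ : Module.IsTorsionFree A D₂ := by
    rw [Module.isTorsionFree_iff_algebraMap_injective]
    exact i₂
  have fl₁ : Module.Flat A D₁ := inferInstance
  have fl₂ : Module.Flat A D₂ := inferInstance
  have fl : Module.Flat A (D₁ ⊗[A] D₂) := inferInstance
  let σ : D₁ ⊗[A] D₂ →ₐ[A] L := Algebra.TensorProduct.productMap σ₁ σ₂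
  let 𝔪 : Ideal (D₁ ⊗[A] D₂) := RingHom.ker σ
  have h𝔪 : 𝔪.IsPrime := RingHom.ker_isPrime σ
  obtain ⟨𝔮, h𝔮, h𝔮𝔪⟩ := Ideal.exists_minimalPrimes_le (bot_le : (⊥ : Ideal (D₁ ⊗[A] D₂)) ≤ 𝔪)
  have hp : 𝔮.IsPrime := h𝔮.1.1
  have hA : ∀ a : A, a ≠ 0 → algebraMap A (D₁ ⊗[A] D₂) a ∉ 𝔮 := by
    intro a ha hmem
    apply notMem_nonZeroDivisors_of_mem_mem_minimalPrimes hmem h𝔮
    have hreg : IsSMulRegular (D₁ ⊗[A] D₂) a :=
      Module.Flat.isSMulRegular_of_nonZeroDivisors (mem_nonZeroDivisors_of_ne_zero ha)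
    rw [mem_nonZeroDivisors_iff_right]
    intro x hx
    apply hreg.right_eq_zero_of_smul
    rw [Algebra.smul_def, mul_comm]
    exact hx
  have key : ∀ (D : Type) [CommRing D] [IsDomain D] [Algebra A D] (_ : Algebra.IsIntegral A D)
      (j : D →ₐ[A] (D₁ ⊗[A] D₂) ⧸ 𝔮), Function.Injective j := by
    intro D _ _ _ hD j
    rw [injective_iff_map_eq_zero]
    have : RingHom.ker j = ⊥ := by
      apply Ideal.eq_bot_of_comap_eq_bot (R := A)
      rw [eq_bot_iff]
      intro a ha
      by_contra h0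
      apply hA a h0
      rw [Ideal.mem_comap, RingHom.mem_ker, AlgHom.commutes] at ha
      rw [← Ideal.Quotient.eq_zero_iff_mem]
      exact ha
    intro x hx
    have : x ∈ RingHom.ker j := hx
    rw [‹RingHom.ker j = ⊥›] at this
    exact this
  refine ⟨(D₁ ⊗[A] D₂) ⧸ 𝔮, inferInstance, inferInstance, inferInstance,
    (Ideal.Quotient.mkₐ A 𝔮).comp Algebra.TensorProduct.includeLeft,
    (Ideal.Quotient.mkₐ A 𝔮).comp Algebra.TensorProduct.includeRight,
    Ideal.Quotient.liftₐ 𝔮 σ (fun x hx => h𝔮𝔪 hx), key D₁ n₁ _, key D₂ n₂ _, ?_, ?_⟩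
  · intro x
    simp [σ]
  · intro x
    simp [σ]

/-- The value of the modular polynomial in a ring which contains `ℚ`. -/
private noncomputable def yub_val {B : Type} [CommRing B] (c : ℚ →+* B) (N : ℕ) (x y : B) : B :=
  (modPoly N).eval₂ (Polynomial.eval₂RingHom c x) y

private theorem yub_map {B B' : Type} [CommRing B] [CommRing B'] (f : B →+* B') (c : ℚ →+* B)
    (c' : ℚ →+* B') (N : ℕ) (x y : B) : f (yub_val c N x y) = yub_val c' N (f x) (f y) := by
  rw [yub_val, yub_val, Polynomial.hom_eval₂]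
  congr 1
  apply Polynomial.ringHom_ext
  · intro r
    have := RingHom.congr_fun (Subsingleton.elim (f.comp c) c') r
    simpa using this
  · simp

private theorem yub_phi {L : Type} [Field L] [CharZero L] (c : ℚ →+* L) (N : ℕ) (x y : L) :
    yub_val c N x y = phi N x y := by
  rw [yub_val, phi, Subsingleton.elim c (Rat.castHom L)]

/-- In a domain `Q` which maps to a field `L`, two roots of `Φ_N(x, Y)` with the same image are
equal if the image is a simple root. -/
private theorem yub_eq {Q L : Type} [CommRing Q] [IsDomain Q] [Field L] [CharZero L]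
    (c : ℚ →+* Q) (τ : Q →+* L) (N : ℕ) (x y z : Q) (hy : yub_val c N x y = 0)
    (hz : yub_val c N x z = 0) (hyz : τ y = τ z) (hd : dphi N (τ x) (τ z) ≠ 0) : y = z := by
  let F : Polynomial Q := (modPoly N).map (Polynomial.eval₂RingHom c x)
  have hFy : F.eval y = 0 := by
    rw [Polynomial.eval_map]
    exact hy
  have hFz : F.eval z = 0 := by
    rw [Polynomial.eval_map]
    exact hz
  obtain ⟨G, hG⟩ := Polynomial.dvd_iff_isRoot.2 (show F.IsRoot z from hFz)
  by_contra hne
  have hGy : G.eval y = 0 := by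
    rw [hG, Polynomial.eval_mul] at hFy
    rcases mul_eq_zero.1 hFy with h | h
    · exfalso
      apply hne
      rw [Polynomial.eval_sub, Polynomial.eval_X, Polynomial.eval_C] at h
      exact sub_eq_zero.1 h
    · exact h
  apply hd
  have e1 : (modPoly N).map (Polynomial.eval₂RingHom (Rat.castHom L) (τ x)) = F.map τ := by
    rw [Polynomial.map_map]
    congr 1
    apply Polynomial.ringHom_ext
    · intro r
      have := RingHom.congr_fun (Subsingleton.elim (Rat.castHom L) (τ.comp c)) r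
      simp only [RingHom.comp_apply, Polynomial.coe_eval₂RingHom, Polynomial.eval₂_C]
      exact this
    · simp
  have e2 : dphi N (τ x) (τ z) = (Polynomial.derivative (F.map τ)).eval (τ z) := by
    rw [dphi, ← e1, Polynomial.derivative_map, Polynomial.eval_map]
  have e3 : (G.map τ).eval (τ z) = 0 := by
    rw [← hyz, Polynomial.eval_map, Polynomial.eval₂_hom, hGy, map_zero]
  rw [e2, hG]
  simp [e3]

/-- The coordinate ring of `ξ` is integral over `k[ξ a]`, which is a polynomial ring. -/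
private theorem yub_ring (h : ModAx) {k K : Type} [Field k] [CharZero k] [Field K] [CharZero K]
    [Algebra k K] {κ : Type} (a : κ) (N : κ → ℕ) (hN : ∀ b, 1 ≤ N b) (ξ : κ → K)
    (hξ : ∀ b, phi (N b) (ξ a) (ξ b) = 0) (t : Transcendental k (ξ a)) :
    Function.Injective
      (Polynomial.aeval (R := k) (Ideal.Quotient.mk (aloc k ξ) (X a))).toRingHom ∧
    (Polynomial.aeval (R := k) (Ideal.Quotient.mk (aloc k ξ) (X a))).toRingHom.IsIntegral ∧
    ∀ b, yub_val ((algebraMap k (MvPolynomial κ k ⧸ aloc k ξ)).comp (Rat.castHom k)) (N b)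
      (Ideal.Quotient.mk (aloc k ξ) (X a)) (Ideal.Quotient.mk (aloc k ξ) (X b)) = 0 := by
  let ψ : (MvPolynomial κ k ⧸ aloc k ξ) →ₐ[k] K :=
    Ideal.Quotient.liftₐ (aloc k ξ) (aeval ξ) (fun f hf => mem_aloc.1 hf)
  have hψ : ∀ f : MvPolynomial κ k, ψ (Ideal.Quotient.mk (aloc k ξ) f) = aeval ξ f := fun f => rfl
  have hinj : Function.Injective ψ := by
    rw [injective_iff_map_eq_zero]
    intro x hx
    obtain ⟨f, rfl⟩ := Ideal.Quotient.mk_surjective x
    rw [hψ] at hx
    exact Ideal.Quotient.eq_zero_iff_mem.2 (mem_aloc.2 hx)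
  have hval : ∀ b, yub_val ((algebraMap k (MvPolynomial κ k ⧸ aloc k ξ)).comp (Rat.castHom k)) (N b)
      (Ideal.Quotient.mk (aloc k ξ) (X a)) (Ideal.Quotient.mk (aloc k ξ) (X b)) = 0 := by
    intro b
    apply hinj
    have e : ψ (Ideal.Quotient.mk (aloc k ξ) (X a)) = ξ a := by rw [hψ, aeval_X]
    have e' : ψ (Ideal.Quotient.mk (aloc k ξ) (X b)) = ξ b := by rw [hψ, aeval_X]
    have := yub_map ψ.toRingHom
      ((algebraMap k (MvPolynomial κ k ⧸ aloc k ξ)).comp (Rat.castHom k)) (Rat.castHom K) (N b)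
      (Ideal.Quotient.mk (aloc k ξ) (X a)) (Ideal.Quotient.mk (aloc k ξ) (X b))
    rw [yub_phi] at this
    rw [map_zero]
    refine this.trans ?_
    have e1 : ψ.toRingHom (Ideal.Quotient.mk (aloc k ξ) (X a)) = ξ a := e
    have e2 : ψ.toRingHom (Ideal.Quotient.mk (aloc k ξ) (X b)) = ξ b := e'
    rw [e1, e2]
    exact hξ b
  refine ⟨?_, ?_, hval⟩
  · have h1 := transcendental_iff_injective.1 t
    have h2 : ∀ f : Polynomial k, ψ (Polynomial.aeval (Ideal.Quotient.mk (aloc k ξ) (X a)) f)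
        = Polynomial.aeval (ξ a) f := by
      intro f
      rw [← Polynomial.aeval_algHom_apply, hψ, aeval_X]
    intro f g hfg
    apply h1
    rw [← h2, ← h2]
    exact congrArg ψ hfg
  · intro x
    obtain ⟨f, rfl⟩ := Ideal.Quotient.mk_surjective x
    induction f using MvPolynomial.induction_on with
    | C c =>
      have : Ideal.Quotient.mk (aloc k ξ) (C c) =
          (Polynomial.aeval (R := k) (Ideal.Quotient.mk (aloc k ξ) (X a))).toRingHom
            (Polynomial.C c) := by
        simp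
        rfl
      rw [this]
      exact RingHom.isIntegralElem_map _
    | add f g hf hg =>
      rw [map_add]
      exact RingHom.IsIntegralElem.add _ hf hg
    | mul_X f b hf =>
      rw [map_mul]
      refine RingHom.IsIntegralElem.mul _ hf ?_
      refine ⟨(modPoly (N b)).map (Polynomial.mapRingHom (Rat.castHom k)),
        (h.monic (N b) (hN b)).map _, ?_⟩
      have hr : ((Polynomial.aeval (R := k) (Ideal.Quotient.mk (aloc k ξ) (X a))).toRingHom).comp
          (Polynomial.mapRingHom (Rat.castHom k)) =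
          Polynomial.eval₂RingHom ((algebraMap k (MvPolynomial κ k ⧸ aloc k ξ)).comp
            (Rat.castHom k)) (Ideal.Quotient.mk (aloc k ξ) (X a)) := by
        apply Polynomial.ringHom_ext
        · intro r
          simp
        · simp
      rw [Polynomial.eval₂_map, hr]
      exact hval b

theorem unique_branch (h : ModAx) {k L L₁ L₂ : Type} [Field k] [IsAlgClosed k] [CharZero k]
    [Field L] [CharZero L] [Algebra k L] [Field L₁] [CharZero L₁] [Algebra k L₁] [Field L₂]
    [CharZero L₂] [Algebra k L₂] {κ : Type} [Fintype κ] (a : κ) (N : κ → ℕ) (hN : ∀ b, 1 ≤ N b)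
    (p : κ → L) (hp : ∀ b, phi (N b) (p a) (p b) = 0) (hcm : ¬ IsCM (p a))
    (η : κ → L₁) (η' : κ → L₂) (h1 : aloc k η ≤ aloc k p) (h2 : aloc k η' ≤ aloc k p)
    (e1 : ∀ b, phi (N b) (η a) (η b) = 0) (e2 : ∀ b, phi (N b) (η' a) (η' b) = 0)
    (t1 : Transcendental k (η a)) (t2 : Transcendental k (η' a)) :
    aloc k η = aloc k η' := by
  obtain ⟨inj₁, int₁, val₁⟩ := yub_ring h a N hN η e1 t1
  obtain ⟨inj₂, int₂, val₂⟩ := yub_ring h a N hN η' e2 t2
  let _ : Algebra (Polynomial k) (MvPolynomial κ k ⧸ aloc k η) :=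
    (Polynomial.aeval (R := k) (Ideal.Quotient.mk (aloc k η) (X a))).toRingHom.toAlgebra
  let _ : Algebra (Polynomial k) (MvPolynomial κ k ⧸ aloc k η') :=
    (Polynomial.aeval (R := k) (Ideal.Quotient.mk (aloc k η') (X a))).toRingHom.toAlgebra
  let _ : Algebra (Polynomial k) L := (Polynomial.aeval (R := k) (p a)).toRingHom.toAlgebra
  let s₁ : (MvPolynomial κ k ⧸ aloc k η) →ₐ[k] L :=
    Ideal.Quotient.liftₐ (aloc k η) (aeval p) (fun f hf => mem_aloc.1 (h1 hf))
  let s₂ : (MvPolynomial κ k ⧸ aloc k η') →ₐ[k] L :=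
    Ideal.Quotient.liftₐ (aloc k η') (aeval p) (fun f hf => mem_aloc.1 (h2 hf))
  have hs₁ : ∀ f : MvPolynomial κ k, s₁ (Ideal.Quotient.mk (aloc k η) f) = aeval p f := fun f => rfl
  have hs₂ : ∀ f : MvPolynomial κ k, s₂ (Ideal.Quotient.mk (aloc k η') f) = aeval p f :=
    fun f => rfl
  let σ₁ : (MvPolynomial κ k ⧸ aloc k η) →ₐ[Polynomial k] L :=
    { s₁.toRingHom with
      commutes' := fun f => by
        change s₁ (Polynomial.aeval (Ideal.Quotient.mk (aloc k η) (X a)) f) =
          Polynomial.aeval (p a) f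
        rw [← Polynomial.aeval_algHom_apply, hs₁, aeval_X] }
  let σ₂ : (MvPolynomial κ k ⧸ aloc k η') →ₐ[Polynomial k] L :=
    { s₂.toRingHom with
      commutes' := fun f => by
        change s₂ (Polynomial.aeval (Ideal.Quotient.mk (aloc k η') (X a)) f) =
          Polynomial.aeval (p a) f
        rw [← Polynomial.aeval_algHom_apply, hs₂, aeval_X] }
  obtain ⟨Q, _, _, _, j₁, j₂, τ, hj₁, hj₂, hτ₁, hτ₂⟩ := yub_compositum
    (A := Polynomial k) (D₁ := MvPolynomial κ k ⧸ aloc k η) (D₂ := MvPolynomial κ k ⧸ aloc k η')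
    (L := L) inj₁ inj₂ ⟨int₁⟩ ⟨int₂⟩ σ₁ σ₂
  have hC : ∀ c : k, j₁ (Ideal.Quotient.mk (aloc k η) (C c)) =
      j₂ (Ideal.Quotient.mk (aloc k η') (C c)) := by
    intro c
    have u₁ : Ideal.Quotient.mk (aloc k η) (C c) =
        algebraMap (Polynomial k) (MvPolynomial κ k ⧸ aloc k η) (Polynomial.C c) := by
      change _ = Polynomial.aeval (Ideal.Quotient.mk (aloc k η) (X a)) (Polynomial.C c)
      rw [Polynomial.aeval_C]
      rfl
    have u₂ : Ideal.Quotient.mk (aloc k η') (C c) =
        algebraMap (Polynomial k) (MvPolynomial κ k ⧸ aloc k η') (Polynomial.C c) := by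
      change _ = Polynomial.aeval (Ideal.Quotient.mk (aloc k η') (X a)) (Polynomial.C c)
      rw [Polynomial.aeval_C]
      rfl
    rw [u₁, u₂, AlgHom.commutes, AlgHom.commutes]
  have ha : j₁ (Ideal.Quotient.mk (aloc k η) (X a)) =
      j₂ (Ideal.Quotient.mk (aloc k η') (X a)) := by
    have u₁ : Ideal.Quotient.mk (aloc k η) (X a) =
        algebraMap (Polynomial k) (MvPolynomial κ k ⧸ aloc k η) Polynomial.X := by
      change _ = Polynomial.aeval (Ideal.Quotient.mk (aloc k η) (X a)) Polynomial.X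
      rw [Polynomial.aeval_X]
    have u₂ : Ideal.Quotient.mk (aloc k η') (X a) =
        algebraMap (Polynomial k) (MvPolynomial κ k ⧸ aloc k η') Polynomial.X := by
      change _ = Polynomial.aeval (Ideal.Quotient.mk (aloc k η') (X a)) Polynomial.X
      rw [Polynomial.aeval_X]
    rw [u₁, u₂, AlgHom.commutes, AlgHom.commutes]
  let c : ℚ →+* Q := j₁.toRingHom.comp
    ((algebraMap k (MvPolynomial κ k ⧸ aloc k η)).comp (Rat.castHom k))
  have hX : ∀ b, j₁ (Ideal.Quotient.mk (aloc k η) (X b)) =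
      j₂ (Ideal.Quotient.mk (aloc k η') (X b)) := by
    intro b
    have v₁ : yub_val c (N b) (j₁ (Ideal.Quotient.mk (aloc k η) (X a)))
        (j₁ (Ideal.Quotient.mk (aloc k η) (X b))) = 0 := by
      have := yub_map j₁.toRingHom
        ((algebraMap k (MvPolynomial κ k ⧸ aloc k η)).comp (Rat.castHom k)) c (N b)
        (Ideal.Quotient.mk (aloc k η) (X a)) (Ideal.Quotient.mk (aloc k η) (X b))
      rw [val₁ b, map_zero] at this
      exact this.symm
    have v₂ : yub_val c (N b) (j₂ (Ideal.Quotient.mk (aloc k η') (X a)))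
        (j₂ (Ideal.Quotient.mk (aloc k η') (X b))) = 0 := by
      have := yub_map j₂.toRingHom
        ((algebraMap k (MvPolynomial κ k ⧸ aloc k η')).comp (Rat.castHom k)) c (N b)
        (Ideal.Quotient.mk (aloc k η') (X a)) (Ideal.Quotient.mk (aloc k η') (X b))
      rw [val₂ b, map_zero] at this
      exact this.symm
    rw [ha] at v₁
    have w₁ : τ (j₁ (Ideal.Quotient.mk (aloc k η) (X b))) = p b := by
      rw [hτ₁]
      exact (hs₁ (X b)).trans (aeval_X _ _)
    have w₂ : ∀ i, τ (j₂ (Ideal.Quotient.mk (aloc k η') (X i))) = p i := by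
      intro i
      rw [hτ₂]
      exact (hs₂ (X i)).trans (aeval_X _ _)
    apply yub_eq c τ.toRingHom (N b) (j₂ (Ideal.Quotient.mk (aloc k η') (X a))) _ _ v₁ v₂
    · change τ _ = τ _
      rw [w₁, w₂]
    · change dphi (N b) (τ _) (τ _) ≠ 0
      rw [w₂, w₂]
      intro h0
      exact hcm (h.simple L (N b) (p a) (p b) (hN b) (hp b) h0)
  have hf : j₁.toRingHom.comp (Ideal.Quotient.mk (aloc k η)) =
      j₂.toRingHom.comp (Ideal.Quotient.mk (aloc k η')) := by
    apply MvPolynomial.ringHom_ext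
    · exact hC
    · exact hX
  ext f
  constructor
  · intro hm
    rw [← Ideal.Quotient.eq_zero_iff_mem] at hm ⊢
    apply hj₂
    rw [map_zero]
    have := RingHom.congr_fun hf f
    refine this.symm.trans ?_
    change j₁ (Ideal.Quotient.mk (aloc k η) f) = 0
    rw [hm, map_zero]
  · intro hm
    rw [← Ideal.Quotient.eq_zero_iff_mem] at hm ⊢
    apply hj₁
    rw [map_zero]
    have := RingHom.congr_fun hf f
    refine this.trans ?_
    change j₂ (Ideal.Quotient.mk (aloc k η') f) = 0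
    rw [hm, map_zero]

end Pool.Agent.Lib.MP_a325a5_ag.MU
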