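import Pool.Agent.Lib.MP_a325a5_ag.MU.YBasic
import Pool.Agent.Lib.MP_a325a5_ag.MU.YCls
import Pool.Agent.Lib.MP_a325a5_ag.MU.YUB
import Pool.Agent.Lib.MP_a325a5_ag.MU.YGen
import Pool.Agent.Lib.MP_a325a5_ag.UM.Least

/-! The smallest special subvariety of `Y(1)^α` containing a point. -/

set_option autoImplicit false

namespace Pool.Agent.Lib.MP_a325a5_ag.MU

open MvPolynomial UM

private theorem yl_restrict {k L L' : Type} [Field k] [Field L] [Algebra k L] [Field L']
    [Algebra k L'] {α κ : Type} (e : κ → α) (q : α → L) (q' : α → L')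
    (h : aloc k q' ≤ aloc k q) :
    aloc k (fun j => q' (e j)) ≤ aloc k (fun j => q (e j)) := by
  intro f hf
  have h1 : rename e f ∈ aloc k q' := by
    rw [mem_aloc, aeval_rename]
    exact mem_aloc.mp hf
  have h2 := mem_aloc.mp (h h1)
  rw [aeval_rename] at h2
  exact mem_aloc.mpr h2

/-- The component of the locus of all special relations of `q` is contained in every special
subvariety containing `q`. -/
theorem yspecial_subset (h : ModAx) {k L L₁ : Type} [Field k] [IsAlgClosed k] [CharZero k]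
    [Field L] [CharZero L] [Algebra k L] [Field L₁] [CharZero L₁] [Algebra k L₁] {α : Type}
    [Fintype α] (q : α → L) (T T' : Set (α → k)) (hT : T ∈ YSpecial k α)
    (hT' : T' ∈ YSpecial k α) (hTq : avan T ≤ aloc k q) (hTq' : avan T' ≤ aloc k q)
    (η : α → L₁) (hη : aloc k η = avan T) (hsat : YSat k q η) : T ⊆ T' := by
  classical
  have hT'irr : AIrr T' := by
    obtain ⟨E, F, -, -, hc⟩ := hT'
    exact hc.1
  obtain ⟨L₂, i1, i2, η', hη'⟩ := exists_ageneric T' hT'irr
  have : CharZero L₂ := charZero_of_injective_algebraMap (algebraMap k L₂).injective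
  have hq1 : aloc k η ≤ aloc k q := by rw [hη]; exact hTq
  have hq2 : aloc k η' ≤ aloc k q := by rw [hη']; exact hTq'
  rw [yspecial_eq_prod h T' hT' η' hη']
  intro x hx i
  have hηx : aloc k η ≤ aloc k x := by
    rw [hη]
    intro f hf
    exact mem_aloc_self.mpr (hf x hx)
  by_cases hcm : IsCM (q i)
  · have h1 : ∀ j : {j // Isog (η' i) (η' j)}, q j = algebraMap k L (x j) := by
      intro j
      have h2 : Isog (q i) (q j) := isog_spec hq2 j.2
      have h3 : IsCM (q j) := isCM_of_isog h h2 hcm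
      obtain ⟨c, hc⟩ := exists_of_isCM (k := k) h h3
      rw [← hc] at h3
      have h4 : IsCM c := (isCM_algebraMap c).mp h3
      have h5 : η j = algebraMap k L₁ c := hsat.2 j c h4 hc.symm
      have h6 : x j = algebraMap k k c := const_spec hηx h5
      rw [h6, ← hc]
      rfl
    have h7 : (fun j : {j // Isog (η' i) (η' j)} => q j) =
        fun j : {j // Isog (η' i) (η' j)} => algebraMap k L (x j) := funext h1
    have h8 : aloc k (fun j : {j // Isog (η' i) (η' j)} => x j) =
        aloc k (fun j : {j // Isog (η' i) (η' j)} => q j) := by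
      rw [h7]
      exact (aloc_algebraMap (K := k) (L := L) (fun j : {j // Isog (η' i) (η' j)} => x j)).symm
    rw [h8]
    exact yl_restrict (fun j : {j // Isog (η' i) (η' j)} => (j : α)) q η' hq2
  · have hN : ∀ b : {j // Isog (η' i) (η' j)}, ∃ N, 1 ≤ N ∧ phi N (η' i) (η' b) = 0 :=
      fun b => b.2
    choose N hN1 hN2 using hN
    have hT'ny := atd_of_ycomp h T' hT' η' hη'
    have hTny := atd_of_ycomp h T hT η hη
    have key := unique_branch (k := k) h
      (⟨i, isog_refl h _⟩ : {j // Isog (η' i) (η' j)}) N hN1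
      (fun j : {j // Isog (η' i) (η' j)} => q j) (fun b => phi_spec hq2 (hN2 b)) hcm
      (fun j : {j // Isog (η' i) (η' j)} => η' j) (fun j : {j // Isog (η' i) (η' j)} => η j)
      (yl_restrict (fun j : {j // Isog (η' i) (η' j)} => (j : α)) q η' hq2)
      (yl_restrict (fun j : {j // Isog (η' i) (η' j)} => (j : α)) q η hq1)
      hN2 (fun b => hsat.1 _ _ _ (hN1 b) (phi_spec hq2 (hN2 b)))
      (transcendental_of_atd_eq_ny h η' hT'ny.ge i fun h0 => hcm (isCM_spec hq2 h0))
      (transcendental_of_atd_eq_ny h η hTny.ge i fun h0 => hcm (isCM_spec hq1 h0))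
    rw [key]
    exact yl_restrict (fun j : {j // Isog (η' i) (η' j)} => (j : α)) x η hηx

private theorem yl_dm_le {k : Type} [Field k] {α : Type} [Fintype α] (W : Set (α → k))
    (hW : AIrr W) : dm W ≤ Fintype.card α := by
  classical
  obtain ⟨L, i1, i2, q, hq⟩ := exists_ageneric W hW
  rw [dm_eq W q hq]
  unfold atd
  exact Finset.sup_le fun J _ => Finset.card_le_univ J

/-- Every irreducible closed subset of `V` is contained in a component of `V`. -/
private theorem yl_exists_comp {k : Type} [Field k] {α : Type} [Fintype α] (V Z : Set (α → k))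
    (hZ : AIrr Z) (hZV : Z ⊆ V) : ∃ T, IsComp T V ∧ Z ⊆ T := by
  obtain ⟨T, ⟨hT, hZT, hTV⟩, hmin⟩ :=
    (measure (fun T : Set (α → k) => Fintype.card α - dm T)).wf.has_min
      {T | AIrr T ∧ Z ⊆ T ∧ T ⊆ V} ⟨Z, hZ, subset_rfl, hZV⟩
  refine ⟨T, ⟨hT, hTV, fun W hW hTW hWV => ?_⟩, hZT⟩
  have h1 : Fintype.card α - dm T ≤ Fintype.card α - dm W :=
    not_lt.mp (hmin W ⟨hW, hZT.trans hTW, hWV⟩)
  have h2 := yl_dm_le T hT
  have h3 := yl_dm_le W hW
  exact ((dm_mono hT hW hTW).2 (by omega)).symm

theorem exists_yleast (h : ModAx) {k L : Type} [Field k] [IsAlgClosed k] [CharZero k] [Field L]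
    [CharZero L] [Algebra k L] {α : Type} [Fintype α] (q : α → L) :
    ∃ T : Set (α → k), Least (YSpecial k α) T q ∧ dm T = ny q := by
  classical
  let E : Set (α × α × ℕ) := {e | 1 ≤ e.2.2 ∧ phi e.2.2 (q e.1) (q e.2.1) = 0}
  let F : Set (α × k) := {f | IsCM f.2 ∧ q f.1 = algebraMap k L f.2}
  obtain ⟨Z, hZ, hZq⟩ := exists_airr (K := k) q
  have hZV : Z ⊆ ylocus E F := by
    intro x hx
    have hqx : aloc k q ≤ aloc k x := by
      rw [← hZq]
      intro f hf
      exact mem_aloc_self.mpr (hf x hx)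
    constructor
    · rintro ⟨i, j, N⟩ ⟨hN, he⟩
      -- the relation holds at `q`, so at the specialisation `x`
      have h1 : phiPoly k N i j ∈ aloc k q := by
        rw [mem_aloc, aeval_phiPoly]
        exact he
      have h2 := mem_aloc.mp (hqx h1)
      rw [aeval_phiPoly] at h2
      exact h2
    · rintro ⟨i, c⟩ ⟨hc, he⟩
      have h1 : (X i - C c : MvPolynomial α k) ∈ aloc k q := by
        rw [mem_aloc, map_sub, aeval_X, aeval_C, sub_eq_zero]
        exact he
      have h2 := mem_aloc_self.mp (hqx h1)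
      rw [map_sub, eval_X, eval_C, sub_eq_zero] at h2
      exact h2
  obtain ⟨T, hTc, hZT⟩ := yl_exists_comp (ylocus E F) Z hZ hZV
  have hTS : T ∈ YSpecial k α := ⟨E, F, fun e he => he.1, fun f hf => hf.1, hTc⟩
  obtain ⟨L₁, i1, i2, η, hη⟩ := exists_ageneric T hTc.1
  have : CharZero L₁ := charZero_of_injective_algebraMap (algebraMap k L₁).injective
  have hTq : avan T ≤ aloc k q := by
    rw [← hZq]
    exact avan_anti hZT
  have hηq : aloc k η ≤ aloc k q := by rw [hη]; exact hTq
  have hsat : YSat k q η := by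
    constructor
    · intro i j N hN he
      have h1 : phiPoly k N i j ∈ aloc k η := by
        rw [hη, mem_avan]
        intro x hx
        have h2 := (hTc.2.1 hx).1 (i, j, N) ⟨hN, he⟩
        rw [← MvPolynomial.coe_aeval_eq_eval, RingHom.coe_coe, aeval_phiPoly]
        exact h2
      have h2 := mem_aloc.mp h1
      rw [aeval_phiPoly] at h2
      exact h2
    · intro i c hc he
      have h1 : (X i - C c : MvPolynomial α k) ∈ aloc k η := by
        rw [hη, mem_avan]
        intro x hx
        rw [map_sub, eval_X, eval_C, sub_eq_zero]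
        exact (hTc.2.1 hx).2 (i, c) ⟨hc, he⟩
      have h2 := mem_aloc.mp h1
      rw [map_sub, aeval_X, aeval_C, sub_eq_zero] at h2
      exact h2
  have hiso : ∀ i j, Isog (η i) (η j) ↔ Isog (q i) (q j) := by
    intro i j
    refine ⟨fun h1 => isog_spec hηq h1, ?_⟩
    rintro ⟨N, hN, he⟩
    exact ⟨N, hN, hsat.1 i j N hN he⟩
  have hcm : ∀ i, IsCM (η i) ↔ IsCM (q i) := by
    intro i
    refine ⟨fun h1 => isCM_spec hηq h1, ?_⟩
    intro h1
    obtain ⟨c, hc⟩ := exists_of_isCM (k := k) h h1
    rw [← hc, isCM_algebraMap] at h1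
    rw [hsat.2 i c h1 hc.symm, isCM_algebraMap]
    exact h1
  have hny : ny η = ny q := by
    unfold ny
    simp only [hiso, hcm]
  refine ⟨T, ⟨hTS, hTq, fun T' hT' hT'q => ?_⟩, ?_⟩
  · exact yspecial_subset h q T T' hTS hT' hTq hT'q η hη hsat
  · rw [dm_eq T η hη, atd_of_ycomp h T hTS η hη, hny]

theorem yfamily (h : ModAx) (k : Type) [Field k] [IsAlgClosed k] [CharZero k] (α : Type)
    [Fintype α] : Family (Set.univ : Set (α → k)) (YSpecial k α) where
  irr := by
    rintro T ⟨E, F, -, -, hc⟩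
    exact hc.1
  sub := fun T _ => Set.subset_univ T
  top := by
    have h0 : ylocus (k := k) (∅ : Set (α × α × ℕ)) ∅ = Set.univ := by
      ext x
      simp [ylocus]
    have h1 : avan (Set.univ : Set (α → k)) = ⊥ := by
      rw [eq_bot_iff]
      intro f hf
      rw [Ideal.mem_bot]
      apply MvPolynomial.funext
      intro x
      rw [map_zero]
      exact hf x (Set.mem_univ x)
    refine ⟨∅, ∅, by simp, by simp, ?_, ?_, ?_⟩
    · refine ⟨?_, fun x _ => Set.mem_univ x⟩
      rw [h1]
      exact Ideal.isPrime_bot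
    · rw [h0]
    · intro W _ hW _
      exact Set.eq_univ_of_univ_subset hW
  inter := by
    intro T₁ hT₁ T₂ hT₂ Z hZ hZT
    obtain ⟨L, i1, i2, q, hq⟩ := exists_ageneric Z hZ
    have : CharZero L := charZero_of_injective_algebraMap (algebraMap k L).injective
    obtain ⟨T₃, hT₃, -⟩ := exists_yleast (k := k) h q
    have hirr : AIrr T₃ := by
      obtain ⟨E, F, -, -, hc⟩ := hT₃.1
      exact hc.1
    refine ⟨T₃, hT₃.1, ?_, Set.subset_inter ?_ ?_⟩
    · rw [asubset_iff hirr, ← hq]
      exact hT₃.2.1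
    · refine hT₃.2.2 T₁ hT₁ ?_
      rw [hq]
      exact avan_anti (hZT.trans Set.inter_subset_left)
    · refine hT₃.2.2 T₂ hT₂ ?_
      rw [hq]
      exact avan_anti (hZT.trans Set.inter_subset_right)

end Pool.Agent.Lib.MP_a325a5_ag.MU
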