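import Pool.Agent.Lib.MP_a325a5_ag.MU.YLeast

/-! The smallest special subvariety of `Y(1)^α` containing a point, and its specialisations. -/

set_option autoImplicit false

namespace Pool.Agent.Lib.MP_a325a5_ag.MU

open MvPolynomial UM

private theorem y2_dm_le {k : Type} [Field k] {α : Type} [Fintype α] (W : Set (α → k))
    (hW : AIrr W) : dm W ≤ Fintype.card α := by
  classical
  obtain ⟨L, i1, i2, q, hq⟩ := exists_ageneric W hW
  rw [dm_eq W q hq]
  unfold atd
  exact Finset.sup_le fun J _ => Finset.card_le_univ J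

/-- Every irreducible closed subset of `V` is contained in a component of `V`. -/
private theorem y2_exists_comp {k : Type} [Field k] {α : Type} [Fintype α] (V Z : Set (α → k))
    (hZ : AIrr Z) (hZV : Z ⊆ V) : ∃ T, IsComp T V ∧ Z ⊆ T := by
  obtain ⟨T, ⟨hT, hZT, hTV⟩, hmin⟩ :=
    (measure (fun T : Set (α → k) => Fintype.card α - dm T)).wf.has_min
      {T | AIrr T ∧ Z ⊆ T ∧ T ⊆ V} ⟨Z, hZ, subset_rfl, hZV⟩
  refine ⟨T, ⟨hT, hTV, fun W hW hTW hWV => ?_⟩, hZT⟩
  have h1 : Fintype.card α - dm T ≤ Fintype.card α - dm W :=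
    not_lt.mp (hmin W ⟨hW, hZT.trans hTW, hWV⟩)
  have h2 := y2_dm_le T hT
  have h3 := y2_dm_le W hW
  exact ((dm_mono hT hW hTW).2 (by omega)).symm

/-- The special relations of `q` cut out a closed subset: it contains the closed set of every
point at which they hold. -/
theorem yleast_sat (h : ModAx) {k L L' : Type} [Field k] [IsAlgClosed k] [CharZero k] [Field L]
    [CharZero L] [Algebra k L] [Field L'] [CharZero L'] [Algebra k L'] {α : Type} [Fintype α]
    (q : α → L) (q' : α → L') (T : Set (α → k)) (hT : Least (YSpecial k α) T q)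
    (hs : aloc k q' ≤ aloc k q) (hsat : YSat k q q') : avan T ≤ aloc k q' := by
  classical
  let E : Set (α × α × ℕ) := {e | 1 ≤ e.2.2 ∧ phi e.2.2 (q e.1) (q e.2.1) = 0}
  let F : Set (α × k) := {f | IsCM f.2 ∧ q f.1 = algebraMap k L f.2}
  obtain ⟨Z, hZ, hZq⟩ := exists_airr (K := k) q'
  have hZV : Z ⊆ ylocus E F := by
    intro x hx
    have hqx : aloc k q' ≤ aloc k x := by
      rw [← hZq]
      intro f hf
      exact mem_aloc_self.mpr (hf x hx)
    constructor
    · rintro ⟨i, j, N⟩ ⟨hN, he⟩
      have h1 : phiPoly k N i j ∈ aloc k q' := by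
        rw [mem_aloc, aeval_phiPoly]
        exact hsat.1 i j N hN he
      have h2 := mem_aloc.mp (hqx h1)
      rw [aeval_phiPoly] at h2
      exact h2
    · rintro ⟨i, c⟩ ⟨hc, he⟩
      have h1 : (X i - C c : MvPolynomial α k) ∈ aloc k q' := by
        rw [mem_aloc, map_sub, aeval_X, aeval_C, sub_eq_zero]
        exact hsat.2 i c hc he
      have h2 := mem_aloc_self.mp (hqx h1)
      rw [map_sub, eval_X, eval_C, sub_eq_zero] at h2
      exact h2
  obtain ⟨W, hWc, hZW⟩ := y2_exists_comp (ylocus E F) Z hZ hZV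
  have hWS : W ∈ YSpecial k α := ⟨E, F, fun e he => he.1, fun f hf => hf.1, hWc⟩
  obtain ⟨L₁, i1, i2, η, hη⟩ := exists_ageneric W hWc.1
  have : CharZero L₁ := charZero_of_injective_algebraMap (algebraMap k L₁).injective
  have hWq' : avan W ≤ aloc k q' := by
    rw [← hZq]
    exact avan_anti hZW
  have hsat' : YSat k q η := by
    constructor
    · intro i j N hN he
      have h1 : phiPoly k N i j ∈ aloc k η := by
        rw [hη, mem_avan]
        intro x hx
        have h2 := (hWc.2.1 hx).1 (i, j, N) ⟨hN, he⟩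
        rw [← MvPolynomial.coe_aeval_eq_eval, RingHom.coe_coe, aeval_phiPoly]
        exact h2
      have h2 := mem_aloc.mp h1
      rw [aeval_phiPoly] at h2
      exact h2
    · intro i c hc he
      have h1 : (X i - C c : MvPolynomial α k) ∈ aloc k η := by
        rw [hη, mem_avan]
        intro x hx
        rw [map_sub, eval_X, eval_C, sub_eq_zero]
        exact (hWc.2.1 hx).2 (i, c) ⟨hc, he⟩
      have h2 := mem_aloc.mp h1
      rw [map_sub, aeval_X, aeval_C, sub_eq_zero] at h2
      exact h2
  have hWT : W ⊆ T :=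
    yspecial_subset h q W T hWS hT.1 (hWq'.trans hs) hT.2.1 η hη hsat'
  exact (avan_anti hWT).trans hWq'

theorem dm_yleast (h : ModAx) {k L : Type} [Field k] [IsAlgClosed k] [CharZero k] [Field L]
    [CharZero L] [Algebra k L] {α : Type} [Fintype α] (q : α → L) (T : Set (α → k))
    (hT : Least (YSpecial k α) T q) : dm T = ny q := by
  obtain ⟨T', hT', hd⟩ := exists_yleast (k := k) h q
  rw [hT.unique hT']
  exact hd

end Pool.Agent.Lib.MP_a325a5_ag.MU
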