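import Pool.Agent.Lib.MP_a325a5_ag.MU.YKer
import Pool.Agent.Lib.MP_a325a5_ag.MU.Krull
import Pool.Agent.Lib.MP_a325a5_ag.UL.TypA

/-! The inequality of defects for points of `Y(1)^α × 𝔾_m^β`: isolated points have small defect.

The number of equations of a point `τ` inside the locus of `γ` is `mr γ - mr τ` for the torus part
(`UL.exists_kernel_basis`) and `ny γ - ny τ` for the modular part (`exists_y_equations`); Krull's
height theorem (`krull_pts`). -/

set_option autoImplicit false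

namespace Pool.Agent.Lib.MP_a325a5_ag.MU

open MvPolynomial UM

section

variable {K : Type} [Field K] {ι : Type} [Fintype ι]

/-- the binomial of an exponent vector -/
private noncomputable def ytypBin (K : Type) [Field K] (α : Type) {ι : Type} [Fintype ι]
    (h : ι → ℤ) : MvPolynomial (α ⊕ ι) K :=
  ∏ i, X (Sum.inr i) ^ (h i).toNat - ∏ i, X (Sum.inr i) ^ (-h i).toNat

private theorem ytyp_prod_split {M : Type} [CommGroup M] (p : ι → M) (h : ι → ℤ) :
    ∏ i, p i ^ h i = (∏ i, p i ^ (h i).toNat) / ∏ i, p i ^ (-h i).toNat := by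
  rw [← Finset.prod_div_distrib]
  refine Finset.prod_congr rfl fun i _ => ?_
  rw [← zpow_natCast, ← zpow_natCast, div_eq_mul_inv, ← zpow_sub]
  congr 1
  omega

private theorem ytyp_bin_mem {L : Type} [Field L] [Algebra K L] {α : Type} (p : Pt L α ι)
    (h : ι → ℤ) : ytypBin K α h ∈ aloc K (co p) ↔ ∏ i, p.2 i ^ h i = 1 := by
  rw [mem_aloc, ytypBin, ytyp_prod_split, div_eq_one, map_sub, map_prod, map_prod, sub_eq_zero]
  simp only [map_pow, aeval_X, co_inr]
  constructor
  · intro hh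
    apply Units.ext
    push_cast
    exact hh
  · intro hh
    have := congrArg (fun u : Lˣ => (u : L)) hh
    push_cast at this
    exact this

/-- The torsion relations follow from the kernel basis. -/
private theorem ytyp_tors [IsAlgClosed K] {L L₁ L' : Type} [Field L] [Algebra K L]
    [Field L₁] [Algebra K L₁] [Field L'] [Algebra K L'] (γ : ι → L₁ˣ) (τ : ι → Lˣ) (τ' : ι → L'ˣ)
    (h1 : UL.locus K γ ≤ UL.locus K τ') (h2 : UL.locus K τ' ≤ UL.locus K τ) {g : ℕ}
    (h : Fin g → (ι → ℤ))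
    (hk : ∀ a : ι → ℤ, ∏ i, τ i ^ a i = 1 → ∃ n : Fin g → ℤ,
        ∏ i, γ i ^ a i = ∏ j, (∏ i, γ i ^ h j i) ^ n j)
    (hb : ∀ j, ∏ i, τ' i ^ h j i = 1) (c : ι → ℤ) (ζ : Kˣ) (hζ : IsOfFinOrder ζ)
    (hc : ∏ i, τ i ^ c i = UL.cst K L ζ) : ∏ i, τ' i ^ c i = UL.cst K L' ζ := by
  classical
  obtain ⟨M, hM0, hM⟩ := isOfFinOrder_iff_pow_eq_one.mp hζ
  have h3 : ∏ i, τ i ^ ((M : ℤ) * c i) = 1 := by
    have : ∏ i, τ i ^ ((M : ℤ) * c i) = (∏ i, τ i ^ c i) ^ M := by
      rw [← Finset.prod_pow]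
      refine Finset.prod_congr rfl fun i _ => ?_
      rw [mul_comm, zpow_mul, zpow_natCast]
    rw [this, hc, ← map_pow, hM, map_one]
  obtain ⟨n, hn⟩ := hk (fun i => (M : ℤ) * c i) h3
  have hexp : ∀ {G : Type} [CommGroup G] (p : ι → G),
      ∏ i, p i ^ ((M : ℤ) * c i - ∑ j, n j * h j i) =
        (∏ i, p i ^ ((M : ℤ) * c i)) / ∏ j, (∏ i, p i ^ h j i) ^ n j := by
    intro G _ p
    have e1 : ∏ j, (∏ i, p i ^ h j i) ^ n j = ∏ i, p i ^ (∑ j, n j * h j i) := by
      have e2 : ∀ i, p i ^ (∑ j, n j * h j i) = ∏ j, p i ^ (n j * h j i) := by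
        intro i
        induction (Finset.univ : Finset (Fin g)) using Finset.induction_on with
        | empty => simp
        | insert x s hx ih => rw [Finset.sum_insert hx, Finset.prod_insert hx, zpow_add, ih]
      simp_rw [e2]
      rw [Finset.prod_comm]
      refine Finset.prod_congr rfl fun j _ => ?_
      rw [← Finset.prod_zpow]
      refine Finset.prod_congr rfl fun i _ => ?_
      rw [← zpow_mul, mul_comm]
    rw [e1, ← Finset.prod_div_distrib]
    refine Finset.prod_congr rfl fun i _ => ?_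
    rw [zpow_sub, div_eq_mul_inv]
  have h4 : ∏ i, γ i ^ ((M : ℤ) * c i - ∑ j, n j * h j i) = 1 := by
    rw [hexp, hn, div_self']
  have h5 := UL.monomial_spec_one τ' γ h1 _ h4
  rw [hexp] at h5
  have h6 : ∏ j, (∏ i, τ' i ^ h j i) ^ n j = 1 := by
    apply Finset.prod_eq_one
    intro j _
    rw [hb j, one_zpow]
  rw [h6, div_one] at h5
  have h7 : (∏ i, τ' i ^ c i) ^ M = 1 := by
    rw [← h5, ← Finset.prod_pow]
    refine Finset.prod_congr rfl fun i _ => ?_
    rw [mul_comm, zpow_mul, zpow_natCast]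
  obtain ⟨ζ', hζ', hζ'e⟩ := UL.exists_cst_of_isOfFinOrder (K := K) (∏ i, τ' i ^ c i)
    (isOfFinOrder_iff_pow_eq_one.mpr ⟨M, hM0, h7⟩)
  have h8 := UL.monomial_spec τ τ' h2 c ζ' hζ'e.symm
  have h9 : ζ' = ζ := UL.cst_injective (K := K) (L := L) (h8.symm.trans hc)
  rw [← hζ'e, h9]

omit [Fintype ι] in
/-- polynomials in the affine coordinates -/
private theorem ytyp_inl {L : Type} [Field L] [Algebra K L] {α : Type} (p : Pt L α ι)
    (f : MvPolynomial α K) : rename Sum.inl f ∈ aloc K (co p) ↔ f ∈ aloc K p.1 := by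
  rw [mem_aloc, mem_aloc, aeval_rename]
  rfl

end

theorem mixed_typical (h : ModAx) {k L L₁ : Type} [Field k] [IsAlgClosed k] [CharZero k]
    [Field L] [CharZero L] [Algebra k L] [Field L₁] [CharZero L₁] [Algebra k L₁] {α β : Type}
    [Fintype α] [Fintype β] (γ : Pt L₁ α β) (τ : Pt L α β)
    (hspec : aloc k (co γ) ≤ aloc k (co τ))
    (hiso : ∀ (L' : Type) [Field L'] [CharZero L'] [Algebra k L'] (τ' : Pt L' α β),
      aloc k (co γ) ≤ aloc k (co τ') → aloc k (co τ') ≤ aloc k (co τ) →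
      (∀ (a : β → ℤ) (ζ : kˣ), IsOfFinOrder ζ → ∏ i, τ.2 i ^ a i = UL.cst k L ζ →
        ∏ i, τ'.2 i ^ a i = UL.cst k L' ζ) → YSat k τ.1 τ'.1 →
      atd k (co τ') ≤ atd k (co τ)) :
    UL.mr τ.2 + ny τ.1 + atd k (co γ) ≤ UL.mr γ.2 + ny γ.1 + atd k (co τ) := by
  classical
  obtain ⟨g, b, hg, hb1, hb2⟩ := UL.exists_kernel_basis γ.2 τ.2 (locus_snd_le τ γ hspec)
  obtain ⟨g', f', hg', hf1, hf2⟩ := exists_y_equations h τ.1 γ.1 (aloc_fst_le τ γ hspec)
  have key := krull_pts (co γ) (co τ) hspec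
    (Fin.append (fun j => ytypBin k α (b j)) fun j => rename Sum.inl (f' j)) (by
      intro j
      induction j using Fin.addCases with
      | left j =>
        rw [Fin.append_left]
        exact (ytyp_bin_mem τ (b j)).mpr (hb1 j)
      | right j =>
        rw [Fin.append_right]
        exact (ytyp_inl τ (f' j)).mpr (hf1 j)) (by
      intro L' _ _ t ht1 ht2 ht3
      have hcz : CharZero L' := charZero_of_injective_algebraMap (algebraMap k L').injective
      have hne : ∀ i : β, t (Sum.inr i) ≠ 0 := by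
        intro i hi
        have h1 : (X (Sum.inr i) : MvPolynomial (α ⊕ β) k) ∈ aloc k t := by
          rw [mem_aloc, aeval_X, hi]
        have h2 := ht2 h1
        rw [mem_aloc, aeval_X, co_inr] at h2
        exact (τ.2 i).ne_zero h2
      obtain ⟨τ', hτ'⟩ : ∃ τ' : Pt L' α β, co τ' = t := by
        refine ⟨(fun i => t (Sum.inl i), fun i => Units.mk0 _ (hne i)), ?_⟩
        funext i
        rcases i with i | i
        · rfl
        · rfl
      subst hτ'
      refine hiso L' τ' ht1 ht2 ?_ ?_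
      · refine ytyp_tors γ.2 τ.2 τ'.2 (locus_snd_le τ' γ ht1) (locus_snd_le τ τ' ht2) b hb2 ?_
        intro j
        have h1 := ht3 (Fin.castAdd g' j)
        rw [Fin.append_left] at h1
        exact (ytyp_bin_mem τ' (b j)).mp h1
      · refine hf2 L' τ'.1 (aloc_fst_le τ' γ ht1) (aloc_fst_le τ τ' ht2) ?_
        intro j
        have h1 := ht3 (Fin.natAdd g j)
        rw [Fin.append_right] at h1
        exact (ytyp_inl τ' (f' j)).mp h1)
  omega

end Pool.Agent.Lib.MP_a325a5_ag.MU
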