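import Pool.Agent.Lib.MP_a325a5_ag.MU.Defs
import Pool.Agent.Lib.MP_a325a5_ag.MU.YTyp
import Pool.Agent.Lib.MP_a325a5_ag.MU.YLeast
import Pool.Agent.Lib.MP_a325a5_ag.MU.YLeast2
import Pool.Agent.Lib.MP_a325a5_ag.UM.Comp
import Pool.Agent.Lib.MP_a325a5_ag.UL.MonA

/-! Atypical special subvarieties of `Y(1)^α × 𝔾_m^β`: the codimensions differ iff they satisfy the
strict inequality. -/

set_option autoImplicit false
set_option linter.style.haveILetI false

namespace Pool.Agent.Lib.MP_a325a5_ag.MU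

open MvPolynomial UM

/-- The inequality of codimensions for special subvarieties of `X`. -/
private theorem atyp_le (h : ModAx) {k K : Type} [Field k] [IsAlgClosed k] [CharZero k] [Field K]
    [IsAlgClosed K] [CharZero K] [Algebra k K] {α β : Type} [Fintype α] [Fintype β]
    (X Z : Set (Pt K α β)) (hX : IrrClosed X) (hZ : SpecialIn (YSpecial k α) X Z) :
    zdim X + zdim (hull (YSpecial k α) Z) ≤ zdim (hull (YSpecial k α) X) + zdim Z := by
  obtain ⟨hZi, hZX, hmax, -⟩ := hZ
  have hF := yfamily h k α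
  obtain ⟨L, _, _, γX, hγX⟩ := exists_generic X hX
  letI : Algebra k L := ((algebraMap K L).comp (algebraMap k K)).toAlgebra
  haveI : IsScalarTower k K L := IsScalarTower.of_algebraMap_eq' rfl
  haveI : CharZero L := charZero_of_injective_algebraMap (algebraMap K L).injective
  obtain ⟨L', _, _, γZ, hγZ⟩ := exists_generic Z hZi
  letI : Algebra k L' := ((algebraMap K L').comp (algebraMap k K)).toAlgebra
  haveI : IsScalarTower k K L' := IsScalarTower.of_algebraMap_eq' rfl
  haveI : CharZero L' := charZero_of_injective_algebraMap (algebraMap K L').injective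
  obtain ⟨TX, hTX, hdX⟩ := exists_yleast h (k := k) γX.1
  obtain ⟨TZ, hTZ, hdZ⟩ := exists_yleast h (k := k) γZ.1
  have key : UL.mr γZ.2 + ny γZ.1 + atd K (co γX) ≤ UL.mr γX.2 + ny γX.1 + atd K (co γZ) := by
    refine mixed_typical h γX γZ ?_ ?_
    · rw [hγX, hγZ]
      exact vanIdeal_anti hZX
    · intro M _ _ _ τ' h1 h2 h3 h4
      letI : Algebra k M := ((algebraMap K M).comp (algebraMap k K)).toAlgebra
      haveI : IsScalarTower k K M := IsScalarTower.of_algebraMap_eq' rfl
      obtain ⟨W, hW, hWτ⟩ := exists_irrClosed (K := K) τ'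
      have hZW : Z ⊆ W := (subset_iff hW).mpr (by rw [hWτ, ← hγZ]; exact h2)
      have hWX : W ⊆ X := (subset_iff hX).mpr (by rw [hWτ, ← hγX]; exact h1)
      have hsat : YSat k γZ.1 τ'.1 := by
        refine ⟨h4.1, fun i c hc hi => ?_⟩
        have h5 := h4.2 i (algebraMap k K c) ((isCM_algebraMap c).mpr hc) (by
          rw [hi, ← IsScalarTower.algebraMap_apply])
        rw [h5, ← IsScalarTower.algebraMap_apply]
      have hle : avan TZ ≤ aloc k τ'.1 :=
        yleast_sat h γZ.1 τ'.1 TZ hTZ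
          (aloc_restrict_le k (K := K) γZ.1 τ'.1 (aloc_fst_le γZ τ' h2)) hsat
      have hWh : W ⊆ hull (YSpecial k α) Z := by
        intro x hx
        have hxτ : aloc K (co τ') ≤ aloc K (co x) := by
          rw [← hWτ]
          exact (mem_iff_le_aloc hW x).mp hx
        rw [mem_hull_iff hF Z hZi γZ hγZ TZ hTZ]
        refine ⟨?_, fun a ζ hζ hr => ?_⟩
        · rw [mem_bc]
          exact hle.trans (aloc_restrict_le k (K := K) x.1 τ'.1 (aloc_fst_le x τ' hxτ))
        · have h5 := h3 a ζ hζ hr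
          have h6 := UL.monomial_spec (K := K) x.2 τ'.2 (locus_snd_le x τ' hxτ) a ζ h5
          rw [h6]
          apply Units.ext
          rfl
      have hWZ : W = Z := hmax W hW hZW (Set.subset_inter hWX hWh)
      refine (atd_congr (co γZ) (co τ') ?_).le
      rw [← hWτ, hWZ, hγZ]
  rw [zdim_eq X γX hγX, zdim_eq Z γZ hγZ, zdim_hull hF X hX γX hγX TX hTX,
    zdim_hull hF Z hZi γZ hγZ TZ hTZ, hdX, hdZ]
  have h1 : atd K (co γX) + (ny γZ.1 + UL.mr γZ.2) ≤ (ny γX.1 + UL.mr γX.2) + atd K (co γZ) := by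
    omega
  exact_mod_cast h1

theorem atypical_iff (h : ModAx) {k K : Type} [Field k] [IsAlgClosed k] [CharZero k] [Field K]
    [IsAlgClosed K] [CharZero K] [Algebra k K] {α β : Type} [Fintype α] [Fintype β]
    (X Z : Set (Pt K α β)) (hX : IrrClosed X) :
    MU.Atypical (YSpecial k α) X Z ↔ UM.Atypical (YSpecial k α) X Z :=
  ⟨fun hZ => ⟨hZ.1, lt_of_le_of_ne (atyp_le h X Z hX hZ.1) hZ.2⟩, fun hZ => ⟨hZ.1, hZ.2.ne⟩⟩

theorem hlatyp_eq (h : ModAx) {k K : Type} [Field k] [IsAlgClosed k] [CharZero k] [Field K]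
    [IsAlgClosed K] [CharZero K] [Algebra k K] {α β : Type} [Fintype α] [Fintype β]
    (X : Set (Pt K α β)) (hX : IrrClosed X) :
    MU.HLatyp (YSpecial k α) X = UM.HLatyp (YSpecial k α) X := by
  unfold MU.HLatyp UM.HLatyp
  congr 1
  ext Z
  exact atypical_iff h X Z hX

theorem maxAtypical_eq (h : ModAx) {k K : Type} [Field k] [IsAlgClosed k] [CharZero k] [Field K]
    [IsAlgClosed K] [CharZero K] [Algebra k K] {α β : Type} [Fintype α] [Fintype β]
    (X : Set (Pt K α β)) (hX : IrrClosed X) :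
    MU.MaxAtypical (YSpecial k α) X = UM.MaxAtypical (YSpecial k α) X := by
  ext Z
  change (MU.Atypical (YSpecial k α) X Z ∧ ∀ W, MU.Atypical (YSpecial k α) X W → Z ⊆ W → W = Z) ↔
    (UM.Atypical (YSpecial k α) X Z ∧ ∀ W, UM.Atypical (YSpecial k α) X W → Z ⊆ W → W = Z)
  simp only [atypical_iff h X _ hX]

end Pool.Agent.Lib.MP_a325a5_ag.MU
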