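import Pool.Agent.Lib.MP_a325a5_ag.MU.EDefs
import Pool.Agent.Lib.MP_a325a5_ag.UM.CoeffsM

/-! Dependence of the encoding of a point on the point. -/

set_option autoImplicit false

namespace Pool.Agent.Lib.MP_a325a5_ag.MU

open MvPolynomial UM UL

section

variable {k K : Type} [Field k] [Field K] [Algebra k K] {α β : Type} (R : Finset α)

open Classical in
/-- the universal values of the coordinates -/
private noncomputable def ct_val {e : ℕ} (c : Fin e → Kˣ) (I : Finset ((β ⊕ R) ⊕ Fin e)) :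
    α ⊕ (Un R ⊕ I) → MvPolynomial (Un R) (MvPolynomial (α ⊕ β) K) :=
  Sum.elim (fun i => if h : i ∈ R then C (X (Sum.inl i)) else X (⟨i, h⟩ : Un R))
    (Sum.elim (fun u => X u)
      (fun j => C (Sum.elim (Sum.elim (fun b => X (Sum.inr b)) (fun r : R => X (Sum.inl r.1)))
        (fun j => C ((c j : Kˣ) : K)) (j : (β ⊕ R) ⊕ Fin e))))

/-- the evaluation -/
private noncomputable def ct_ev {L : Type} [Field L] [Algebra K L] (p : Pt L α β) :
    MvPolynomial (Un R) (MvPolynomial (α ⊕ β) K) →+* RatFun (Un R) L :=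
  (algebraMap (MvPolynomial (Un R) L) (RatFun (Un R) L)).comp
    (MvPolynomial.map ((aeval (co p) : MvPolynomial (α ⊕ β) K →ₐ[K] L) :
        MvPolynomial (α ⊕ β) K →+* L))

private theorem ct_ev_X {L : Type} [Field L] [Algebra K L] (p : Pt L α β) (u : Un R) :
    ct_ev (K := K) R p (X u) = rvar L u := by
  unfold ct_ev rvar
  rw [RingHom.comp_apply, MvPolynomial.map_X]

private theorem ct_ev_C {L : Type} [Field L] [Algebra K L] (p : Pt L α β)
    (h : MvPolynomial (α ⊕ β) K) : ct_ev (K := K) R p (C h) = rcst (Un R) (aeval (co p) h) := by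
  unfold ct_ev rcst
  rw [RingHom.comp_apply, MvPolynomial.map_C]
  rfl

private theorem ct_ev_ne {L : Type} [Field L] [Algebra K L] (p : Pt L α β)
    (H : MvPolynomial (Un R) (MvPolynomial (α ⊕ β) K)) :
    ct_ev (K := K) R p H ≠ 0 ↔ ∃ m, aeval (co p) (coeff m H) ≠ 0 := by
  unfold ct_ev
  rw [RingHom.comp_apply]
  have h5 : Function.Injective (algebraMap (MvPolynomial (Un R) L) (RatFun (Un R) L)) :=
    IsFractionRing.injective _ _
  rw [Ne, map_eq_zero_iff _ h5, ← Ne, MvPolynomial.ne_zero_iff]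
  refine exists_congr fun m => ?_
  rw [MvPolynomial.coeff_map]
  rfl

end

theorem exists_coeffs {k K : Type} [Field k] [Field K] [Algebra k K] {α β : Type} [Fintype α]
    [Fintype β] (R : Finset α) {e : ℕ} (c : Fin e → Kˣ) (I : Finset ((β ⊕ R) ⊕ Fin e))
    (S : Sys (Un R ⊕ I)) (G : MvPolynomial (α ⊕ (α ⊕ (S.D ⊕ S.D))) k) :
    ∃ 𝒯 : Set (MvPolynomial (α ⊕ β) K), ∀ (L : Type) [Field L] [Algebra K L] [Algebra k L]
      [IsScalarTower k K L] (x : Pt L α β) (hx : ∀ r ∈ R, x.1 r ≠ 0)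
      (hy : ∀ b, S.rel (fy R fun i : I => fam R c x hx i) b = 0),
      G ∉ aloc k (co (thPt S (fwu R x.1 hx) (fy R fun i : I => fam R c x hx i) hy)) ↔
        ∃ g ∈ 𝒯, aeval (co x) g ≠ 0 := by
  classical
  obtain ⟨𝒯₀, h𝒯⟩ := exists_coeffs_cfgPt (α := α) S
    (rename (Sum.elim Sum.inl (Sum.elim Sum.inl (fun d => Sum.inr (Sum.inr d))) :
      α ⊕ (α ⊕ (S.D ⊕ S.D)) → α ⊕ (Un R ⊕ (S.D ⊕ S.D))) G)
  refine ⟨{g | ∃ h ∈ 𝒯₀, ∃ m, g = coeff m (aeval (ct_val R c I) h)}, fun L _ _ _ _ x hx hy => ?_⟩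
  have key := h𝒯 (RatFun (Un R) L) (fw R x.1) (fy R fun i : I => fam R c x hx i) hy
  have e1 : G ∉ aloc k (co (thPt S (fwu R x.1 hx) (fy R fun i : I => fam R c x hx i) hy)) ↔
      rename (Sum.elim Sum.inl (Sum.elim Sum.inl (fun d => Sum.inr (Sum.inr d))) :
      α ⊕ (α ⊕ (S.D ⊕ S.D)) → α ⊕ (Un R ⊕ (S.D ⊕ S.D))) G ∉
        aloc k (co (cfgPt S (fw R x.1) (fy R fun i : I => fam R c x hx i) hy)) := by
    rw [mem_aloc, mem_aloc, aeval_rename]
    have : co (thPt S (fwu R x.1 hx) (fy R fun i : I => fam R c x hx i) hy) =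
        co (cfgPt S (fw R x.1) (fy R fun i : I => fam R c x hx i) hy) ∘
          (Sum.elim Sum.inl (Sum.elim Sum.inl (fun d => Sum.inr (Sum.inr d))) :
          α ⊕ (α ⊕ (S.D ⊕ S.D)) → α ⊕ (Un R ⊕ (S.D ⊕ S.D))) := by
      funext j
      rcases j with i | i | d
      · rfl
      · rfl
      · rfl
    rw [this]
  rw [e1, key]
  have e2 : ∀ h : MvPolynomial (α ⊕ (Un R ⊕ I)) k,
      aeval (Sum.elim (fw R x.1) (fun i => ((fy R fun i : I => fam R c x hx i) i :
        RatFun (Un R) L))) h = ct_ev (K := K) R x (aeval (ct_val R c I) h) := by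
    intro h
    have h2 : ct_ev (K := K) R x (aeval (ct_val R c I) h) =
        eval₂Hom ((ct_ev (K := K) R x).comp
          (algebraMap k (MvPolynomial (Un R) (MvPolynomial (α ⊕ β) K))))
          (fun j => ct_ev (K := K) R x (ct_val R c I j)) h := by
      rw [MvPolynomial.map_aeval]
    have h3 : (ct_ev (K := K) R x).comp
        (algebraMap k (MvPolynomial (Un R) (MvPolynomial (α ⊕ β) K))) =
        algebraMap k (RatFun (Un R) L) := by
      ext a
      rw [RingHom.comp_apply]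
      have e1 : algebraMap k (MvPolynomial (Un R) (MvPolynomial (α ⊕ β) K)) a =
        C (C (algebraMap k K a)) := rfl
      rw [e1, ct_ev_C, MvPolynomial.algHom_C, ← IsScalarTower.algebraMap_apply]
      rw [IsScalarTower.algebraMap_apply k L (RatFun (Un R) L)]
      rfl
    have h4 : (fun j => ct_ev (K := K) R x (ct_val R c I j)) =
        Sum.elim (fw R x.1) (fun i => ((fy R fun i : I => fam R c x hx i) i :
          RatFun (Un R) L)) := by
      funext j
      rcases j with i | u | j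
      · show ct_ev (K := K) R x (if h : i ∈ R then C (X (Sum.inl i)) else X (⟨i, h⟩ : Un R)) =
          fw R x.1 i
        unfold fw
        split_ifs with hi
        · rw [ct_ev_C, aeval_X]
          rfl
        · rw [ct_ev_X]
      · exact ct_ev_X R x u
      · show ct_ev (K := K) R x (C (Sum.elim (Sum.elim (fun b => X (Sum.inr b))
          (fun r : R => X (Sum.inl r.1))) (fun j => C ((c j : Kˣ) : K))
          (j : (β ⊕ R) ⊕ Fin e))) = rcst (Un R) ((fam R c x hx j : Lˣ) : L)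
        rw [ct_ev_C]
        congr 1
        rcases (j : (β ⊕ R) ⊕ Fin e) with (b | r) | j
        · rw [Sum.elim_inl, Sum.elim_inl, aeval_X]
          rfl
        · rw [Sum.elim_inl, Sum.elim_inr, aeval_X]
          rfl
        · rw [Sum.elim_inr, MvPolynomial.algHom_C]
          rfl
    rw [h2, h3, h4]
    rfl
  constructor
  · rintro ⟨h, hh, hne⟩
    rw [e2, ct_ev_ne] at hne
    obtain ⟨m, hm⟩ := hne
    exact ⟨_, ⟨h, hh, m, rfl⟩, hm⟩
  · rintro ⟨_, ⟨h, hh, m, rfl⟩, hm⟩
    refine ⟨h, hh, ?_⟩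
    rw [e2, ct_ev_ne]
    exact ⟨m, hm⟩

end Pool.Agent.Lib.MP_a325a5_ag.MU
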