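import Pool.Agent.Lib.MP_a325a5_ag.MU.EDefs
import Pool.Agent.Lib.MP_a325a5_ag.UL.MR
import Pool.Agent.Lib.MP_a325a5_ag.UM.RatTd

/-! Adjoining free variables to a point: multiplicative rank, transcendence degree, monomials
(MU, row E4a). -/

set_option autoImplicit false

namespace Pool.Agent.Lib.MP_a325a5_ag.MU

open MvPolynomial UM UL

section free

variable {L : Type} [Field L] {α : Type} [Fintype α] (R : Finset α)

/-- the constants as a ring homomorphism -/
private noncomputable def Free_rh (U E : Type) [Field E] : E →+* RatFun U E :=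
  (algebraMap (MvPolynomial U E) (RatFun U E)).comp C

private theorem Free_rh_apply (U : Type) {E : Type} [Field E] (c : E) :
    Free_rh U E c = rcst U c := rfl

private theorem Free_rh_inj (U : Type) (E : Type) [Field E] :
    Function.Injective (Free_rh U E) := (Free_rh U E).injective

theorem card_un : Fintype.card (Un R) + R.card = Fintype.card α := by
  classical
  have h1 : Fintype.card (Un R) = Fintype.card {i // i ∉ R} :=
    Fintype.card_congr (Equiv.refl _)
  have h2 : Fintype.card {i // i ∉ R} = Fintype.card α - Fintype.card {i // i ∈ R} :=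
    Fintype.card_subtype_compl _
  have h3 : Fintype.card {i // i ∈ R} = R.card := Fintype.card_coe R
  have h4 : R.card ≤ Fintype.card α := Finset.card_le_univ R
  omega

theorem card_fy {I : Type} [Fintype I] :
    Fintype.card (Un R ⊕ I) + R.card = Fintype.card I + Fintype.card α := by
  have h := card_un R
  rw [Fintype.card_sum]
  omega

omit [Fintype α] in
private theorem Free_inl {I : Type} (p : I → Lˣ) (u : Un R) :
    ((fy R p (Sum.inl u) : (RatFun (Un R) L)ˣ) : RatFun (Un R) L) = rvar L u := rfl

omit [Fintype α] in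
private theorem Free_inr {I : Type} (p : I → Lˣ) (i : I) :
    ((fy R p (Sum.inr i) : (RatFun (Un R) L)ˣ) : RatFun (Un R) L) = rcst (Un R) (p i : L) := rfl

/-- the multiplicative relations -/
private theorem Free_rel {I : Type} [Fintype I] (p : I → Lˣ) (c : Un R ⊕ I → ℤ)
    (hc : ∏ i, fy R p i ^ c i = 1) :
    (∀ t, c (Sum.inl t) = 0) ∧ ∏ j, p j ^ c (Sum.inr j) = 1 := by
  have h1 := congrArg (fun w : (RatFun (Un R) L)ˣ => (w : RatFun (Un R) L)) hc
  simp only [Fintype.prod_sum_type, Units.val_mul, Units.coe_prod, Units.val_zpow_eq_zpow_val,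
    Units.val_one, Free_inl, Free_inr] at h1
  obtain ⟨h6, h7⟩ := lin_independent (U := Un R) (T := Un R) (E := L) id (fun _ => 0)
    (fun i j hij _ => hij) (fun i => c (Sum.inl i)) (∏ j, p j ^ c (Sum.inr j))
    (by
      rw [← h1, Units.coe_prod, ← Free_rh_apply, map_prod]
      simp only [Units.val_zpow_eq_zpow_val, map_zpow₀, ← Free_rh_apply, map_zero, add_zero, id_eq]
      ring)
  exact ⟨fun t => congrFun h6 t, h7⟩

theorem mr_fy {I : Type} [Fintype I] (p : I → Lˣ) :
    mr (fy R p) + R.card = mr p + Fintype.card α := by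
  classical
  have hcard := card_un R
  suffices hmain : mr (fy R p) = Fintype.card (Un R) + mr p by omega
  -- the constants have the same rank
  have h0 : mr (fun j => fy R p (Sum.inr j)) = mr p := by
    apply mr_congr
    intro b
    have hval : ((∏ j, fy R p (Sum.inr j) ^ b j : (RatFun (Un R) L)ˣ) : RatFun (Un R) L) =
        Free_rh (Un R) L ((∏ j, p j ^ b j : Lˣ) : L) := by
      rw [Units.coe_prod, Units.coe_prod, map_prod]
      refine Finset.prod_congr rfl fun j _ => ?_
      rw [Units.val_zpow_eq_zpow_val, Units.val_zpow_eq_zpow_val, map_zpow₀, Free_inr]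
      rfl
    refine Iff.symm ⟨?_, ?_⟩
    · intro h
      rw [h, Units.val_one] at hval
      have h1 : Free_rh (Un R) L 1 = Free_rh (Un R) L ((∏ j, p j ^ b j : Lˣ) : L) := by
        rw [map_one]
        exact hval
      have h2 := Free_rh_inj _ _ h1
      exact Units.ext (by rw [Units.val_one]; exact h2.symm)
    · intro h
      rw [h, Units.val_one, map_one] at hval
      exact Units.ext (by rw [Units.val_one]; exact hval)
  apply le_antisymm
  · have h1 := mr_sumElim_le (fun j => fy R p (Sum.inr j)) (fun t => fy R p (Sum.inl t))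
    have h2 : mr (fy R p) ≤ mr (Sum.elim (fun j => fy R p (Sum.inr j))
        (fun t => fy R p (Sum.inl t))) := by
      apply mr_le_of_pow_mem
      intro i
      refine ⟨1, one_pos, ?_⟩
      rw [pow_one]
      apply Subgroup.subset_closure
      rcases i with t | j
      · exact ⟨Sum.inr t, rfl⟩
      · exact ⟨Sum.inl j, rfl⟩
    rw [h0] at h1
    omega
  · obtain ⟨J, hJ, hJ2, -⟩ := mr_spec p
    have hJ3 := (mr_eq_card_iff (fun i : J => p i)).1 (by rw [hJ2, Fintype.card_coe])
    have h1 : mr (fun i : Un R ⊕ J => fy R p (Sum.map id (fun j : J => (j : I)) i)) =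
        Fintype.card (Un R ⊕ J) := by
      rw [mr_eq_card_iff]
      intro b hb
      have h2 := Free_rel R p
        (Sum.elim (fun t => b (Sum.inl t)) (fun i => if hi : i ∈ J then b (Sum.inr ⟨i, hi⟩) else 0))
        (by
          rw [← hb, Fintype.prod_sum_type, Fintype.prod_sum_type]
          congr 1
          have e1 : ∏ i, fy R p (Sum.inr i) ^ (if hi : i ∈ J then b (Sum.inr ⟨i, hi⟩) else 0) =
              ∏ i ∈ J, fy R p (Sum.inr i) ^ (if hi : i ∈ J then b (Sum.inr ⟨i, hi⟩) else 0) := by
            symm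
            apply Finset.prod_subset (Finset.subset_univ J)
            intro i _ hi
            rw [dif_neg hi, zpow_zero]
          simp only [Sum.elim_inr, Sum.map_inr]
          rw [e1, ← Finset.prod_coe_sort]
          refine Finset.prod_congr rfl fun i _ => ?_
          rw [dif_pos i.2])
      obtain ⟨h3, h4⟩ := h2
      have h5 := hJ3 (fun j => b (Sum.inr j)) (by
        rw [← h4]
        have e1 : ∏ i, p i ^ (if hi : i ∈ J then b (Sum.inr ⟨i, hi⟩) else 0) =
            ∏ i ∈ J, p i ^ (if hi : i ∈ J then b (Sum.inr ⟨i, hi⟩) else 0) := by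
          symm
          apply Finset.prod_subset (Finset.subset_univ J)
          intro i _ hi
          rw [dif_neg hi, zpow_zero]
        simp only [Sum.elim_inr]
        rw [e1, ← Finset.prod_coe_sort J]
        refine Finset.prod_congr rfl fun i _ => ?_
        rw [dif_pos i.2])
      funext i
      rcases i with t | j
      · exact h3 t
      · exact congrFun h5 j
    have h2 : mr (fun i : Un R ⊕ J => fy R p (Sum.map id (fun j : J => (j : I)) i)) ≤
        mr (fy R p) := by
      apply mr_le_of_pow_mem
      intro i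
      refine ⟨1, one_pos, ?_⟩
      rw [pow_one]
      exact Subgroup.subset_closure ⟨_, rfl⟩
    rw [h1, Fintype.card_sum, Fintype.card_coe, hJ] at h2
    exact h2

private theorem Free_alg {k E : Type} [Field k] [Field E] [Algebra k E] {S : Set E} {x : E}
    (hx : x ∈ Algebra.adjoin k S) : IsAlgebraic (Algebra.adjoin k S) x :=
  isAlgebraic_algebraMap (⟨x, hx⟩ : Algebra.adjoin k S)

theorem td_fy {k : Type} [Field k] [Algebra k L] {I : Type} [Fintype I] (p : I → Lˣ) :
    td k (fy R p) + R.card = td k p + Fintype.card α := by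
  classical
  have hcard := card_un R
  have h1 := atd_ratFun (k := k) (U := Un R) (fun i => (p i : L))
  have h2 : td k (fy R p) = atd k (Sum.elim (fun j => rcst (Un R) (p j : L))
      (fun u : Un R => rvar L u)) := by
    rw [ul_td]
    apply le_antisymm
    · apply atd_le_of_algebraic
      rintro (u | i)
      · exact Free_alg (Algebra.subset_adjoin ⟨Sum.inr u, rfl⟩)
      · exact Free_alg (Algebra.subset_adjoin ⟨Sum.inl i, rfl⟩)
    · apply atd_le_of_algebraic
      rintro (i | u)
      · exact Free_alg (Algebra.subset_adjoin ⟨Sum.inr i, rfl⟩)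
      · exact Free_alg (Algebra.subset_adjoin ⟨Sum.inl u, rfl⟩)
  rw [h2, h1, ul_td]
  omega

theorem fwu_pow {I : Type} [Fintype I] (p : I → Lˣ) (s : α → L) (hs : ∀ r ∈ R, s r ≠ 0)
    (hrel : ∀ r : R, ∃ (N : ℕ) (a : I → ℤ), 0 < N ∧
      Units.mk0 (s r) (hs r r.2) ^ N = ∏ i, p i ^ a i) (i : α) :
    ∃ (N : ℕ) (a : Un R ⊕ I → ℤ), 0 < N ∧ fwu R s hs i ^ N = ∏ j, fy R p j ^ a j := by
  classical
  by_cases h : i ∈ R
  · obtain ⟨N, a, hN, ha⟩ := hrel ⟨i, h⟩
    refine ⟨N, Sum.elim (fun _ => 0) a, hN, ?_⟩
    apply Units.ext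
    have h1 := congrArg (fun w : Lˣ => Free_rh (Un R) L (w : L)) ha
    simp only [Units.val_pow_eq_pow_val, Units.val_mk0, Units.coe_prod,
      Units.val_zpow_eq_zpow_val, map_pow, map_prod, map_zpow₀] at h1
    have h2 : ((fwu R s hs i : (RatFun (Un R) L)ˣ) : RatFun (Un R) L) = Free_rh (Un R) L (s i) := by
      change fw R s i = _
      unfold fw
      rw [dif_pos h]
      rfl
    rw [Units.val_pow_eq_pow_val, h2, h1, Units.coe_prod, Fintype.prod_sum_type]
    simp only [Sum.elim_inl, Sum.elim_inr, zpow_zero, Units.val_one, Finset.prod_const_one,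
      one_mul, Units.val_zpow_eq_zpow_val, Free_inr]
    rfl
  · let u : Un R := ⟨i, h⟩
    refine ⟨1, Pi.single (Sum.inl u) 1, one_pos, ?_⟩
    have h1 : ∏ j, fy R p j ^ (Pi.single (Sum.inl u) 1 : Un R ⊕ I → ℤ) j =
        fy R p (Sum.inl u) ^ (Pi.single (Sum.inl u) 1 : Un R ⊕ I → ℤ) (Sum.inl u) := by
      apply Finset.prod_eq_single (Sum.inl u)
      · intro j _ hj
        rw [Pi.single_eq_of_ne hj, zpow_zero]
      · intro h1
        exact absurd (Finset.mem_univ _) h1
    rw [h1, Pi.single_eq_same, zpow_one, pow_one]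
    apply Units.ext
    change fw R s i = rvar L u
    unfold fw
    rw [dif_neg h]

end free

end Pool.Agent.Lib.MP_a325a5_ag.MU
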