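import Pool.Agent.Lib.MP_a325a5_ag.MU.EDefs

/-! Specialisations of points with free variables and of the coordinates of a point
(MU, row E4c). -/

set_option autoImplicit false

namespace Pool.Agent.Lib.MP_a325a5_ag.MU

open MvPolynomial UM UL

section free

variable {L : Type} [Field L] {α : Type} [Fintype α] (R : Finset α)

omit [Fintype α] in
/-- a polynomial in the variables and `p` -/
private theorem FreeLoc_aeval {k : Type} [Field k] [Algebra k L] {I : Type} (p : I → Lˣ)
    (f : MvPolynomial (Un R ⊕ I) k) :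
    aeval (fun i => (fy R p i : RatFun (Un R) L)) f =
      algebraMap (MvPolynomial (Un R) L) (RatFun (Un R) L)
        (MvPolynomial.map ((aeval (fun i => (p i : L)) : MvPolynomial I k →ₐ[k] L) :
          MvPolynomial I k →+* L) (sumAlgEquiv k (Un R) I f)) := by
  induction f using MvPolynomial.induction_on with
  | C c =>
    rw [aeval_C]
    have h1 : sumAlgEquiv k (Un R) I (C c) = C (C c) := sumAlgEquiv_C_inl _ _ _ c
    rw [h1, map_C]
    have h2 : ((aeval (fun i => (p i : L)) : MvPolynomial I k →ₐ[k] L) :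
        MvPolynomial I k →+* L) (C c) = algebraMap k L c := aeval_C _ c
    rw [h2]
    rfl
  | add f g hf hg => rw [map_add, map_add, map_add, map_add, hf, hg]
  | mul_X f i hf =>
    rw [map_mul, map_mul, map_mul, map_mul, hf, aeval_X]
    congr 1
    rcases i with u | i
    · have h1 : sumAlgEquiv k (Un R) I (X (Sum.inl u)) = X u := sumAlgEquiv_X_inl _ _ _ u
      rw [h1, map_X]
      rfl
    · have h1 : sumAlgEquiv k (Un R) I (X (Sum.inr i)) = C (X i) := sumAlgEquiv_X_inr _ _ _ i
      rw [h1, map_C]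
      have h2 : ((aeval (fun i => (p i : L)) : MvPolynomial I k →ₐ[k] L) :
          MvPolynomial I k →+* L) (X i) = (p i : L) := aeval_X _ i
      rw [h2]
      rfl

theorem locus_fy_le {L' : Type} [Field L'] {k : Type} [Field k] [Algebra k L] [Algebra k L']
    {I : Type} (p : I → Lˣ) (p' : I → L'ˣ) (hp : locus k p ≤ locus k p') :
    locus k (fy R p) ≤ locus k (fy R p') := by
  intro f hf
  rw [mem_locus, FreeLoc_aeval,
    map_eq_zero_iff _ (IsFractionRing.injective (MvPolynomial (Un R) L) (RatFun (Un R) L))] at hf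
  rw [mem_locus, FreeLoc_aeval]
  have h1 : MvPolynomial.map ((aeval (fun i => (p' i : L')) : MvPolynomial I k →ₐ[k] L') :
      MvPolynomial I k →+* L') (sumAlgEquiv k (Un R) I f) = 0 := by
    apply MvPolynomial.ext
    intro m
    have h2 := congrArg (coeff m) hf
    rw [coeff_map, coeff_zero] at h2
    rw [coeff_map, coeff_zero]
    exact mem_locus.1 (hp (mem_locus.2 h2))
  rw [h1, map_zero]

end free

theorem locus_fam_le {k K F L : Type} [Field k] [Field K] [Field F] [Algebra k K] [Algebra K F]
    [Algebra k F] [IsScalarTower k K F] [Field L] [Algebra K L] [Algebra k L]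
    [IsScalarTower k K L] {α β : Type} (R : Finset α) {e : ℕ} (c : Fin e → Kˣ)
    (I : Finset ((β ⊕ R) ⊕ Fin e)) (γ : Pt F α β) (hγ : ∀ r ∈ R, γ.1 r ≠ 0) (x : Pt L α β)
    (hx : ∀ r ∈ R, x.1 r ≠ 0) (hs : aloc K (co γ) ≤ aloc K (co x)) :
    locus k (fun i : I => fam R c γ hγ i) ≤ locus k (fun i : I => fam R c x hx i) := by
  let σ : (β ⊕ R) ⊕ Fin e → MvPolynomial (α ⊕ β) K :=
    Sum.elim (Sum.elim (fun b => X (Sum.inr b)) (fun r => X (Sum.inl (r : α)))) (fun j => C (c j : K))
  have key : ∀ (M : Type) [Field M] [Algebra K M] [Algebra k M] [IsScalarTower k K M]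
      (z : Pt M α β) (hz : ∀ r ∈ R, z.1 r ≠ 0) (f : MvPolynomial I k),
      aeval (co z) (aeval (fun i : I => σ i) f) = aeval (fun i : I => (fam R c z hz i : M)) f := by
    intro M _ _ _ _ z hz f
    have h1 : ((aeval (co z) : MvPolynomial (α ⊕ β) K →ₐ[K] M).restrictScalars k).comp
        (aeval (fun i : I => σ i) : MvPolynomial I k →ₐ[k] MvPolynomial (α ⊕ β) K) =
        aeval (fun i : I => (fam R c z hz i : M)) := by
      apply MvPolynomial.algHom_ext
      intro i
      rw [AlgHom.comp_apply, aeval_X, aeval_X, AlgHom.restrictScalars_apply]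
      obtain ⟨i, hi⟩ := i
      rcases i with (b | r) | j
      · exact aeval_X _ _
      · exact aeval_X _ _
      · exact aeval_C _ _
    exact congrArg (fun g : MvPolynomial I k →ₐ[k] M => g f) h1
  intro f hf
  rw [mem_locus] at hf ⊢
  rw [← key F γ hγ] at hf
  rw [← key L x hx]
  exact mem_aloc.1 (hs (mem_aloc.2 hf))

end Pool.Agent.Lib.MP_a325a5_ag.MU
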