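import Pool.Agent.Lib.MP_a325a5_ag.MU.EDefs
import Pool.Agent.Lib.MP_a325a5_ag.MU.YCls

/-! E4b: the number of isogeny classes after replacing coordinates by new variables. -/

set_option autoImplicit false

namespace Pool.Agent.Lib.MP_a325a5_ag.MU

open MvPolynomial UM UL

private theorem freeny_rcst_eq {U L : Type} [Field L] (c : L) :
    rcst U c = algebraMap L (RatFun U L) c := by
  unfold rcst
  rw [← MvPolynomial.algebraMap_eq, ← IsScalarTower.algebraMap_apply]

private theorem freeny_ind {U L : Type} [Field L] :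
    AlgebraicIndependent L (fun u : U => rvar L u) := by
  exact (MvPolynomial.algebraicIndependent_X U L).map'
    (f := IsScalarTower.toAlgHom L (MvPolynomial U L) (RatFun U L))
    (IsFractionRing.injective (MvPolynomial U L) (RatFun U L))

private theorem freeny_tr {U L : Type} [Field L] (T : Set U) (u : U) (hu : u ∉ T) :
    Transcendental (Algebra.adjoin L ((fun u : U => rvar L u) '' T)) (rvar L u) :=
  freeny_ind.transcendental_adjoin hu

section free

variable {L : Type} [Field L] {α : Type} [Fintype α] (R : Finset α)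

omit [Fintype α] in
private theorem freeny_var (s : α → L) {j : α} (hj : j ∉ R) :
    ∃ u : Un R, u.1 = j ∧ fw R s j = rvar L u := by
  refine ⟨⟨j, hj⟩, rfl, ?_⟩
  unfold fw
  exact dif_neg hj

omit [Fintype α] in
private theorem freeny_cst (s : α → L) {j : α} (hj : j ∈ R) :
    fw R s j = algebraMap L (RatFun (Un R) L) (s j) := by
  rw [← freeny_rcst_eq]
  unfold fw
  exact dif_pos hj

omit [Fintype α] in
private theorem freeny_isog_var (h : ModAx) [CharZero L] (s : α → L) {i j : α} (hj : j ∉ R)
    (hij : Isog (fw R s i) (fw R s j)) : i = j := by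
  by_contra hne
  obtain ⟨v, hv, hfj⟩ := freeny_var R s hj
  have halg := isAlgebraic_of_isog (k := L) h hij
  rw [hfj] at halg
  by_cases hi : i ∈ R
  · have hfi := freeny_cst R s hi
    apply freeny_tr (L := L) (∅ : Set (Un R)) v (Set.notMem_empty v)
    refine UM.isAlgebraic_adjoin_trans (S := {fw R s i}) ?_ halg
    rintro x rfl
    rw [hfi]
    exact isAlgebraic_algebraMap (⟨algebraMap L _ (s i), Subalgebra.algebraMap_mem _ _⟩ :
      Algebra.adjoin L ((fun u : Un R => rvar L u) '' ∅))
  · obtain ⟨u, hu, hfi⟩ := freeny_var R s hi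
    apply freeny_tr (L := L) ({u} : Set (Un R)) v (by
      intro h2
      rw [Set.mem_singleton_iff] at h2
      apply hne
      rw [← hu, ← hv, h2])
    rw [Set.image_singleton, ← hfi]
    exact halg

omit [Fintype α] in
private theorem freeny_cm_var (h : ModAx) [CharZero L] (k : Type) [Field k] [IsAlgClosed k]
    [CharZero k] [Algebra k L] (s : α → L) {i : α} (hi : i ∉ R) : ¬ IsCM (fw R s i) := by
  intro hcm
  obtain ⟨u, -, hfi⟩ := freeny_var R s hi
  obtain ⟨c, hc⟩ := exists_of_isCM (k := k) (L := RatFun (Un R) L) h hcm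
  apply freeny_tr (L := L) (∅ : Set (Un R)) u (Set.notMem_empty u)
  rw [← hfi, ← hc, IsScalarTower.algebraMap_apply k L (RatFun (Un R) L)]
  exact isAlgebraic_algebraMap (⟨algebraMap L _ (algebraMap k L c), Subalgebra.algebraMap_mem _ _⟩ :
      Algebra.adjoin L ((fun u : Un R => rvar L u) '' ∅))

theorem ny_fw (h : ModAx) [CharZero L] (k : Type) [Field k] [IsAlgClosed k] [CharZero k]
    [Algebra k L] (s : α → L) (h1 : ∀ r ∈ R, ¬ IsCM (s r))
    (h2 : ∀ r ∈ R, ∀ t ∈ R, Isog (s r) (s t) → r = t) : ny (fw R s) = Fintype.card α := by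
  classical
  apply le_antisymm (ny_le h _)
  rw [← Finset.card_univ]
  apply card_le_ny h
  · intro i _
    by_cases hi : i ∈ R
    · rw [freeny_cst R s hi, isCM_algebraMap]
      exact h1 i hi
    · exact freeny_cm_var R h k s hi
  · intro i _ j _ hij
    by_cases hj : j ∈ R
    · by_cases hi : i ∈ R
      · rw [freeny_cst R s hi, freeny_cst R s hj, isog_algebraMap] at hij
        exact h2 i hi j hj hij
      · exact (freeny_isog_var R h s hi (isog_symm h hij)).symm
    · exact freeny_isog_var R h s hj hij

theorem ny_fw_le (h : ModAx) [CharZero L] (s : α → L) :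
    ny (fw R s) + R.card ≤ ny s + Fintype.card α := by
  classical
  obtain ⟨R', hR', h1, h2, h3⟩ := ny_spec h (fun r : R => s r)
  have hle : R'.card ≤ ny s := by
    have h4 := card_le_ny h s (R'.map (Function.Embedding.subtype _)) (by
      intro r hr
      obtain ⟨t, ht, rfl⟩ := Finset.mem_map.1 hr
      exact h1 t ht) (by
      intro r hr t ht hrt
      obtain ⟨a, ha, rfl⟩ := Finset.mem_map.1 hr
      obtain ⟨b, hb, rfl⟩ := Finset.mem_map.1 ht
      rw [h2 a ha b hb hrt])
    rwa [Finset.card_map] at h4
  have h5 := ny_le_card h (fw R s) (Rᶜ ∪ R'.map (Function.Embedding.subtype _)) (by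
    intro i hi
    by_cases hiR : i ∈ R
    · rw [freeny_cst R s hiR, isCM_algebraMap] at hi
      obtain ⟨r, hr, hri⟩ := h3 ⟨i, hiR⟩ hi
      refine ⟨r, Finset.mem_union_right _ (Finset.mem_map.2 ⟨r, hr, rfl⟩), ?_⟩
      rw [freeny_cst R s hiR]
      show Isog (fw R s r) _
      rw [freeny_cst R s r.2, isog_algebraMap]
      exact hri
    · exact ⟨i, Finset.mem_union_left _ (Finset.mem_compl.2 hiR), isog_refl h _⟩)
  have h6 := Finset.card_union_le Rᶜ (R'.map (Function.Embedding.subtype (· ∈ R)))
  rw [Finset.card_map, Finset.card_compl] at h6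
  have h7 := Finset.card_le_univ R
  omega

end free

end Pool.Agent.Lib.MP_a325a5_ag.MU
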