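import Pool.Agent.Lib.MP_a325a5_ag.MU.Defs
import Pool.Agent.Lib.MP_a325a5_ag.MU.YCls
import Pool.Agent.Lib.MP_a325a5_ag.UM.LocSet
import Pool.Agent.Lib.MP_a325a5_ag.UM.TDloc
import Pool.Agent.Lib.MP_a325a5_ag.UL.Line

/-! The variety `Δ^α × ℓ^D`.

The generic point is `(x_i; x_i, t_e, 1 - t_e)` with independent variables `x_i`, `t_e`. -/

set_option autoImplicit false

namespace Pool.Agent.Lib.MP_a325a5_ag.MU

open MvPolynomial UM UL

section

variable {k : Type} [Field k] {α D : Type}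

/-- The polynomial map `(x, t) ↦ (x; x, t, 1 - t)`. -/
private noncomputable def ldP (k : Type) [Field k] (α D : Type) :
    α ⊕ (α ⊕ (D ⊕ D)) → MvPolynomial (α ⊕ D) k :=
  Sum.elim (fun i => X (Sum.inl i)) (Sum.elim (fun i => X (Sum.inl i))
    (Sum.elim (fun e => X (Sum.inr e)) (fun e => 1 - X (Sum.inr e))))

private theorem ldP_co {E : Type} [Field E] [Algebra k E] (p : Pt E α (α ⊕ (D ⊕ D)))
    (h1 : ∀ i, (p.2 (Sum.inl i) : E) = p.1 i)
    (h2 : ∀ e, (p.2 (Sum.inr (Sum.inl e)) : E) + p.2 (Sum.inr (Sum.inr e)) = 1) :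
    co p = fun j => aeval (Sum.elim p.1 (fun e => (p.2 (Sum.inr (Sum.inl e)) : E)))
      (ldP k α D j) := by
  funext j
  rcases j with j | j | e | e
  · simp [ldP]
  · simp [ldP, h1]
  · simp [ldP]
  · have h3 := h2 e
    change (p.2 (Sum.inr (Sum.inr e)) : E) = aeval _ (1 - X (Sum.inr e))
    rw [map_sub, map_one, aeval_X]
    exact eq_sub_of_add_eq' h3

/-- the generic point -/
private noncomputable def ldG (k : Type) [Field k] (α D : Type) :
    Pt (RatFun (α ⊕ D) k) α (α ⊕ (D ⊕ D)) :=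
  (fun i => rvar k (Sum.inl i : α ⊕ D),
    Sum.elim (fun i => Units.mk0 (rvar k (Sum.inl i : α ⊕ D)) (by
        have h := rvar_add_rcst_ne_zero (E := k) (Sum.inl i : α ⊕ D) 0
        rwa [rcst, map_zero, map_zero, add_zero] at h))
      (Sum.elim (fun e => Units.mk0 (rvar k (Sum.inr e : α ⊕ D)) (by
        have h := rvar_add_rcst_ne_zero (E := k) (Sum.inr e : α ⊕ D) 0
        rwa [rcst, map_zero, map_zero, add_zero] at h))
        (fun e => Units.mk0 (1 - rvar k (Sum.inr e : α ⊕ D)) (by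
          have h1 : 1 - rvar k (Sum.inr e : α ⊕ D) =
              - (rvar k (Sum.inr e : α ⊕ D) + rcst (α ⊕ D) (-1 : k)) := by
            rw [rcst, map_neg, map_neg, map_one, map_one]
            ring
          rw [h1]
          exact neg_ne_zero.mpr (rvar_add_rcst_ne_zero _ _)))))

private theorem ldG_inl (i : α) : ((ldG k α D).2 (Sum.inl i) : RatFun (α ⊕ D) k) =
    (ldG k α D).1 i := rfl

private theorem ldG_line (e : D) : ((ldG k α D).2 (Sum.inr (Sum.inl e)) : RatFun (α ⊕ D) k) +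
    (ldG k α D).2 (Sum.inr (Sum.inr e)) = 1 := by
  change rvar k (Sum.inr e : α ⊕ D) + (1 - rvar k (Sum.inr e : α ⊕ D)) = 1
  ring

private theorem ld_aeval_rvar (k : Type) [Field k] (U : Type) :
    (aeval (fun i : U => rvar k i) : MvPolynomial U k →ₐ[k] RatFun U k) =
      IsScalarTower.toAlgHom k (MvPolynomial U k) (RatFun U k) := by
  apply MvPolynomial.algHom_ext
  intro i
  rw [aeval_X]
  rfl

private theorem ld_rvar_indep (k : Type) [Field k] (U : Type) :
    AlgebraicIndependent k (fun i : U => rvar k i) := by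
  rw [algebraicIndependent_iff_injective_aeval, ld_aeval_rvar]
  exact IsFractionRing.injective (MvPolynomial U k) (RatFun U k)

private theorem ldG_mem (f : MvPolynomial (α ⊕ (α ⊕ (D ⊕ D))) k) :
    f ∈ aloc k (co (ldG k α D)) ↔ bind₁ (ldP k α D) f = 0 := by
  have h1 : Sum.elim (ldG k α D).1
      (fun e => ((ldG k α D).2 (Sum.inr (Sum.inl e)) : RatFun (α ⊕ D) k)) =
      fun i : α ⊕ D => rvar k i := by
    funext i
    rcases i with i | i <;> rfl
  rw [mem_aloc, ldP_co (k := k) (ldG k α D) ldG_inl ldG_line, h1, ← aeval_bind₁, ld_aeval_rvar]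
  exact map_eq_zero_iff _ (IsFractionRing.injective (MvPolynomial (α ⊕ D) k) (RatFun (α ⊕ D) k))

/-- the points satisfying the equations are the specialisations of the generic point -/
private theorem ld_key {E : Type} [Field E] [Algebra k E] (p : Pt E α (α ⊕ (D ⊕ D))) :
    aloc k (co (ldG k α D)) ≤ aloc k (co p) ↔ (∀ i, (p.2 (Sum.inl i) : E) = p.1 i) ∧
      ∀ e, (p.2 (Sum.inr (Sum.inl e)) : E) + p.2 (Sum.inr (Sum.inr e)) = 1 := by
  constructor
  · intro h
    refine ⟨fun i => ?_, fun e => ?_⟩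
    · have h1 : (X (Sum.inr (Sum.inl i)) - X (Sum.inl i) : MvPolynomial (α ⊕ (α ⊕ (D ⊕ D))) k) ∈
          aloc k (co (ldG k α D)) := by
        rw [ldG_mem]
        simp [ldP]
      have h2 := mem_aloc.mp (h h1)
      rw [map_sub, aeval_X, aeval_X] at h2
      exact sub_eq_zero.mp h2
    · have h1 : (X (Sum.inr (Sum.inr (Sum.inl e))) + X (Sum.inr (Sum.inr (Sum.inr e))) - 1 :
          MvPolynomial (α ⊕ (α ⊕ (D ⊕ D))) k) ∈ aloc k (co (ldG k α D)) := by
        rw [ldG_mem]
        simp [ldP]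
      have h2 := mem_aloc.mp (h h1)
      rw [map_sub, map_add, map_one, aeval_X, aeval_X] at h2
      exact sub_eq_zero.mp h2
  · rintro ⟨h1, h2⟩ f hf
    rw [ldG_mem] at hf
    rw [mem_aloc, ldP_co (k := k) p h1 h2, ← aeval_bind₁, hf, map_zero]

private theorem ld_main [IsAlgClosed k] [Fintype α] [Fintype D] :
    IrrClosed (LD k α D) ∧ vanIdeal (LD k α D) = aloc k (co (ldG k α D)) := by
  obtain ⟨Z, hZ, hZγ⟩ := UM.exists_irrClosed (K := k) (ldG k α D)
  have h1 : Z = LD k α D := by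
    ext p
    rw [UM.mem_iff_le_aloc hZ, hZγ]
    exact ld_key p
  rw [← h1]
  exact ⟨hZ, hZγ⟩

private theorem ld_atd [Fintype α] [Fintype D] :
    atd k (co (ldG k α D)) = Fintype.card α + Fintype.card D := by
  rw [← Fintype.card_sum]
  apply le_antisymm
  · apply atd_le_card_of_algebraic (K := k) (co (ldG k α D)) (fun i : α ⊕ D => rvar k i)
    intro j
    have hmem : co (ldG k α D) j ∈ Algebra.adjoin k (Set.range (fun i : α ⊕ D => rvar k i)) := by
      rcases j with j | j | e | e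
      · exact Algebra.subset_adjoin ⟨Sum.inl j, rfl⟩
      · exact Algebra.subset_adjoin ⟨Sum.inl j, rfl⟩
      · exact Algebra.subset_adjoin ⟨Sum.inr e, rfl⟩
      · exact sub_mem (one_mem _) (Algebra.subset_adjoin ⟨Sum.inr e, rfl⟩)
    exact isAlgebraic_algebraMap
      (⟨_, hmem⟩ : Algebra.adjoin k (Set.range (fun i : α ⊕ D => rvar k i)))
  · apply le_atd (K := k) (co (ldG k α D)) (fun i : α ⊕ D => rvar k i) (ld_rvar_indep k _)
    intro j
    have hmem : rvar k j ∈ Algebra.adjoin k (Set.range fun i => co (ldG k α D) i) := by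
      rcases j with j | j
      · exact Algebra.subset_adjoin ⟨Sum.inl j, rfl⟩
      · exact Algebra.subset_adjoin ⟨Sum.inr (Sum.inr (Sum.inl j)), rfl⟩
    exact isAlgebraic_algebraMap
      (⟨_, hmem⟩ : Algebra.adjoin k (Set.range fun i => co (ldG k α D) i))

private theorem ld_mr [Fintype α] [Fintype D] :
    mr (ldG k α D).2 = Fintype.card α + 2 * Fintype.card D := by
  have hcard : Fintype.card (α ⊕ (D ⊕ D)) = Fintype.card α + 2 * Fintype.card D := by
    rw [Fintype.card_sum, Fintype.card_sum]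
    ring
  rw [← hcard, mr_eq_card_iff]
  intro a ha
  have h1 := congrArg (fun u : (RatFun (α ⊕ D) k)ˣ => (u : RatFun (α ⊕ D) k)) ha
  simp only [Units.coe_prod, Units.val_zpow_eq_zpow_val, Units.val_one] at h1
  have h2 := lin_independent (U := α ⊕ D) (T := α ⊕ (D ⊕ D)) (E := k)
    (Sum.elim Sum.inl (Sum.elim Sum.inr Sum.inr))
    (Sum.elim (fun _ => 0) (Sum.elim (fun _ => 0) (fun _ => -1))) (by
      rintro (i | i | i) (j | j | j) hb hs
      · exact congrArg Sum.inl (Sum.inl_injective hb)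
      · simp at hb
      · simp at hb
      · simp at hb
      · exact congrArg (fun t => Sum.inr (Sum.inl t)) (Sum.inr_injective hb)
      · simp at hs
      · simp at hb
      · simp at hs
      · exact congrArg (fun t => Sum.inr (Sum.inr t)) (Sum.inr_injective hb)) a
    (∏ i : D, (-1 : kˣ) ^ a (Sum.inr (Sum.inr i))) (by
      rw [← h1, Fintype.prod_sum_type, Fintype.prod_sum_type, Fintype.prod_sum_type,
        Fintype.prod_sum_type]
      have e0 : ∀ i : α, (rvar k (Sum.inl i : α ⊕ D) + rcst (α ⊕ D) (0 : k)) =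
          ((ldG k α D).2 (Sum.inl i) : RatFun (α ⊕ D) k) := by
        intro i
        rw [rcst, map_zero, map_zero, add_zero]
        rfl
      have e1 : ∀ i : D, (rvar k (Sum.inr i : α ⊕ D) + rcst (α ⊕ D) (0 : k)) =
          ((ldG k α D).2 (Sum.inr (Sum.inl i)) : RatFun (α ⊕ D) k) := by
        intro i
        rw [rcst, map_zero, map_zero, add_zero]
        rfl
      have e2 : ∀ i : D, ((ldG k α D).2 (Sum.inr (Sum.inr i)) : RatFun (α ⊕ D) k) ^
            a (Sum.inr (Sum.inr i)) =
          (-1) ^ a (Sum.inr (Sum.inr i)) * (rvar k (Sum.inr i : α ⊕ D) +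
            rcst (α ⊕ D) (-1 : k)) ^ a (Sum.inr (Sum.inr i)) := by
        intro i
        rw [← mul_zpow]
        congr 1
        rw [neg_one_mul, rcst, map_neg, map_neg, map_one, map_one]
        change 1 - rvar k (Sum.inr i : α ⊕ D) = _
        ring
      have e3 : rcst (α ⊕ D) ((∏ i : D, (-1 : kˣ) ^ a (Sum.inr (Sum.inr i)) : kˣ) : k) =
          ∏ i : D, (-1 : RatFun (α ⊕ D) k) ^ a (Sum.inr (Sum.inr i)) := by
        rw [Units.coe_prod, rcst, map_prod, map_prod]
        refine Finset.prod_congr rfl (fun i _ => ?_)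
        rw [Units.val_zpow_eq_zpow_val]
        have e4 : ∀ w : k, algebraMap (MvPolynomial (α ⊕ D) k) (RatFun (α ⊕ D) k) (C w) =
            algebraMap k (RatFun (α ⊕ D) k) w := by
          intro w
          rw [IsScalarTower.algebraMap_apply k (MvPolynomial (α ⊕ D) k) (RatFun (α ⊕ D) k)]
          rfl
        rw [e4, map_zpow₀]
        simp
      simp only [Sum.elim_inl, Sum.elim_inr]
      rw [Finset.prod_congr rfl (fun i _ => e2 i), Finset.prod_mul_distrib,
        Finset.prod_congr rfl (fun i _ => congrArg (fun w => w ^ a (Sum.inl i)) (e0 i)),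
        Finset.prod_congr rfl (fun i _ => congrArg (fun w => w ^ a (Sum.inr (Sum.inl i))) (e1 i)),
        e3]
      ring)
  exact h2.1

end

theorem LD_generic (h : ModAx) (k : Type) [Field k] [IsAlgClosed k] [CharZero k] (α D : Type)
    [Fintype α] [Fintype D] :
    ∃ (L : Type) (_ : Field L) (_ : CharZero L) (_ : Algebra k L)
      (γ : Pt L α (α ⊕ (D ⊕ D))), aloc k (co γ) = vanIdeal (LD k α D) ∧
      atd k (co γ) = Fintype.card α + Fintype.card D ∧
      mr γ.2 = Fintype.card α + 2 * Fintype.card D ∧ ny γ.1 = Fintype.card α := by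
  have hch : CharZero (RatFun (α ⊕ D) k) :=
    charZero_of_injective_algebraMap (algebraMap k (RatFun (α ⊕ D) k)).injective
  refine ⟨RatFun (α ⊕ D) k, inferInstance, hch, inferInstance, ldG k α D, ld_main.2.symm, ld_atd,
    ld_mr, le_antisymm (ny_le h _) ?_⟩
  refine le_trans ?_ (atd_le_ny h (k := k) (ldG k α D).1)
  refine le_atd (K := k) (ldG k α D).1 (fun i : α => rvar k (Sum.inl i : α ⊕ D))
    ((ld_rvar_indep k (α ⊕ D)).comp Sum.inl Sum.inl_injective) fun j => ?_
  have hmem : rvar k (Sum.inl j : α ⊕ D) ∈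
      Algebra.adjoin k (Set.range fun i => (ldG k α D).1 i) := Algebra.subset_adjoin ⟨j, rfl⟩
  exact isAlgebraic_algebraMap
    (⟨_, hmem⟩ : Algebra.adjoin k (Set.range fun i => (ldG k α D).1 i))

theorem LD_irrClosed (k : Type) [Field k] [IsAlgClosed k] [CharZero k] (α D : Type)
    [Fintype α] [Fintype D] : IrrClosed (LD k α D) := ld_main.1

theorem LD_le_aloc {k L : Type} [Field k] [IsAlgClosed k] [CharZero k] [Field L] [Algebra k L]
    {α D : Type} [Fintype α] [Fintype D] (p : Pt L α (α ⊕ (D ⊕ D))) :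
    vanIdeal (LD k α D) ≤ aloc k (co p) ↔ (∀ i, (p.2 (Sum.inl i) : L) = p.1 i) ∧
      ∀ e, (p.2 (Sum.inr (Sum.inl e)) : L) + p.2 (Sum.inr (Sum.inr e)) = 1 := by
  rw [ld_main.2]
  exact ld_key p

end Pool.Agent.Lib.MP_a325a5_ag.MU
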