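import Pool.Agent.Lib.MP_a325a5_ag.MU.YDefs
import Pool.Agent.Lib.MP_a325a5_ag.UM.Pts

/-! Isogeny and CM points: first properties, constants, specialisation. -/

set_option autoImplicit false

namespace Pool.Agent.Lib.MP_a325a5_ag.MU

open MvPolynomial UM

/-- the polynomial `Φ_N(X_i, X_j)` -/
noncomputable def phiPoly (k : Type) [Field k] [CharZero k] {α : Type} (N : ℕ) (i j : α) :
    MvPolynomial α k :=
  (modPoly N).eval₂ (Polynomial.eval₂RingHom ((C : k →+* MvPolynomial α k).comp (Rat.castHom k))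
    (X i)) (X j)

private theorem yb_hom {R S : Type} [CommRing R] [CommRing S] (P : Polynomial (Polynomial ℚ))
    (f : ℚ →+* R) (g : ℚ →+* S) (φ : R →+* S) (x y : R) :
    φ (P.eval₂ (Polynomial.eval₂RingHom f x) y) =
      P.eval₂ (Polynomial.eval₂RingHom g (φ x)) (φ y) := by
  have h : φ.comp f = g := Subsingleton.elim _ _
  subst h
  rw [Polynomial.hom_eval₂]
  have h2 : φ.comp (Polynomial.eval₂RingHom f x) =
      Polynomial.eval₂RingHom (φ.comp f) (φ x) :=
    RingHom.ext fun p => Polynomial.hom_eval₂ p f φ x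
  rw [h2]

variable {k L : Type} [Field k] [CharZero k] [Field L] [CharZero L] [Algebra k L]

theorem aeval_phiPoly {α : Type} (N : ℕ) (i j : α) (q : α → L) :
    aeval q (phiPoly k N i j) = phi N (q i) (q j) := by
  have h := yb_hom (modPoly N) ((C : k →+* MvPolynomial α k).comp (Rat.castHom k))
    (Rat.castHom L) (aeval q : MvPolynomial α k →ₐ[k] L).toRingHom (X i) (X j)
  simp only [AlgHom.toRingHom_eq_coe, RingHom.coe_coe, aeval_X] at h
  exact h

theorem phi_algebraMap (N : ℕ) (x y : k) :
    phi N (algebraMap k L x) (algebraMap k L y) = algebraMap k L (phi N x y) :=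
  (yb_hom (modPoly N) (Rat.castHom k) (Rat.castHom L) (algebraMap k L) x y).symm

theorem isCM_algebraMap (x : k) : IsCM (algebraMap k L x) ↔ IsCM x := by
  unfold IsCM
  simp only [phi_algebraMap, map_eq_zero]

theorem isog_algebraMap (x y : k) : Isog (algebraMap k L x) (algebraMap k L y) ↔ Isog x y := by
  unfold Isog
  simp only [phi_algebraMap, map_eq_zero]

theorem isog_refl (h : ModAx) (x : L) : Isog x x := ⟨1, le_rfl, h.refl L x⟩

theorem isog_symm (h : ModAx) {x y : L} (hxy : Isog x y) : Isog y x := by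
  obtain ⟨N, hN, h1⟩ := hxy
  exact ⟨N, hN, h.symm L N x y hN h1⟩

theorem isog_trans (h : ModAx) {x y z : L} (hxy : Isog x y) (hyz : Isog y z) : Isog x z := by
  obtain ⟨N, hN, h1⟩ := hxy
  obtain ⟨M, hM, h2⟩ := hyz
  exact h.trans L N M x y z hN hM h1 h2

theorem isCM_of_isog (h : ModAx) {x y : L} (hxy : Isog x y) (hx : IsCM x) : IsCM y := by
  obtain ⟨N, hN, h1⟩ := hxy
  exact h.cm L N x y hN h1 hx

/-- `y` is integral over `k[x]`. -/
theorem isIntegral_of_phi (h : ModAx) {N : ℕ} (hN : 1 ≤ N) {x y : L} (hxy : phi N x y = 0) :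
    IsIntegral (Algebra.adjoin k {x}) y := by
  let ρ : Polynomial ℚ →+* Algebra.adjoin k {x} :=
    Polynomial.eval₂RingHom ((algebraMap k (Algebra.adjoin k {x})).comp (Rat.castHom k))
      ⟨x, Algebra.self_mem_adjoin_singleton k x⟩
  refine ⟨(modPoly N).map ρ, (h.monic N hN).map ρ, ?_⟩
  rw [Polynomial.eval₂_map]
  have h2 : (algebraMap (Algebra.adjoin k {x}) L).comp ρ =
      Polynomial.eval₂RingHom (Rat.castHom L) x := by
    refine RingHom.ext fun p => ?_
    have h3 := Polynomial.hom_eval₂ p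
      ((algebraMap k (Algebra.adjoin k {x})).comp (Rat.castHom k))
      (algebraMap (Algebra.adjoin k {x}) L) ⟨x, Algebra.self_mem_adjoin_singleton k x⟩
    have h4 : (algebraMap (Algebra.adjoin k {x}) L).comp
        ((algebraMap k (Algebra.adjoin k {x})).comp (Rat.castHom k)) = Rat.castHom L :=
      Subsingleton.elim _ _
    rw [h4] at h3
    exact h3
  rw [h2]
  exact hxy

theorem isAlgebraic_of_isog (h : ModAx) {x y : L} (hxy : Isog x y) :
    IsAlgebraic (Algebra.adjoin k {x}) y := by
  obtain ⟨N, hN, h1⟩ := hxy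
  exact (isIntegral_of_phi h hN h1).isAlgebraic

omit [CharZero k] [CharZero L] in
private theorem yb_const [IsAlgClosed k] {x : L} (hx : IsIntegral k x) :
    ∃ c : k, algebraMap k L c = x := by
  have h1 := IsAlgClosed.degree_eq_one_of_irreducible k (minpoly.irreducible hx)
  exact minpoly.mem_range_of_degree_eq_one k x h1

/-- CM points are constant. -/
theorem exists_of_isCM [IsAlgClosed k] (h : ModAx) {x : L} (hx : IsCM x) :
    ∃ c : k, algebraMap k L c = x := by
  obtain ⟨N, hN, h1⟩ := hx
  apply yb_const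
  rw [← isAlgebraic_iff_isIntegral]
  have h2 : (((modPoly N).eval Polynomial.X).map (Rat.castHom k)) ≠ 0 := by
    rw [Ne, Polynomial.map_eq_zero_iff (Rat.castHom k).injective]
    exact h.diag N hN
  refine ⟨_, h2, ?_⟩
  rw [Polynomial.aeval_def, Polynomial.eval₂_map]
  have h3 : (algebraMap k L).comp (Rat.castHom k) = Rat.castHom L := Subsingleton.elim _ _
  rw [h3]
  have h4 := Polynomial.hom_eval₂ (modPoly N) (RingHom.id (Polynomial ℚ))
    (Polynomial.eval₂RingHom (Rat.castHom L) x) Polynomial.X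
  rw [Polynomial.eval₂_id, RingHom.comp_id, Polynomial.coe_eval₂RingHom, Polynomial.eval₂_X]
    at h4
  rw [h4]
  exact h1

/-- Elements isogenous to constants are constant. -/
theorem exists_of_isog_algebraMap [IsAlgClosed k] (h : ModAx) {x : k} {y : L}
    (hxy : Isog (algebraMap k L x) y) : ∃ c : k, algebraMap k L c = y := by
  obtain ⟨N, hN, h1⟩ := hxy
  apply yb_const
  refine ⟨(modPoly N).map (Polynomial.eval₂RingHom (Rat.castHom k) x),
    (h.monic N hN).map _, ?_⟩
  rw [Polynomial.eval₂_map]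
  have h2 : (algebraMap k L).comp (Polynomial.eval₂RingHom (Rat.castHom k) x) =
      Polynomial.eval₂RingHom (Rat.castHom L) (algebraMap k L x) := by
    refine RingHom.ext fun p => ?_
    have h3 := Polynomial.hom_eval₂ p (Rat.castHom k) (algebraMap k L) x
    have h4 : (algebraMap k L).comp (Rat.castHom k) = Rat.castHom L := Subsingleton.elim _ _
    rw [h4] at h3
    exact h3
  rw [h2]
  exact h1

variable {L' : Type} [Field L'] [CharZero L'] [Algebra k L']

/-- Special relations specialise. -/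
theorem phi_spec {α : Type} {q : α → L} {q' : α → L'} (h : aloc k q' ≤ aloc k q) {N : ℕ}
    {i j : α} (hq : phi N (q' i) (q' j) = 0) : phi N (q i) (q j) = 0 := by
  have h1 : phiPoly k N i j ∈ aloc k q' := by
    rw [mem_aloc, aeval_phiPoly]
    exact hq
  have h2 := h h1
  rw [mem_aloc, aeval_phiPoly] at h2
  exact h2

theorem isog_spec {α : Type} {q : α → L} {q' : α → L'} (h : aloc k q' ≤ aloc k q) {i j : α}
    (hq : Isog (q' i) (q' j)) : Isog (q i) (q j) := by
  obtain ⟨N, hN, h1⟩ := hq
  exact ⟨N, hN, phi_spec h h1⟩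

theorem isCM_spec {α : Type} {q : α → L} {q' : α → L'} (h : aloc k q' ≤ aloc k q) {i : α}
    (hq : IsCM (q' i)) : IsCM (q i) := by
  obtain ⟨N, hN, h1⟩ := hq
  exact ⟨N, hN, phi_spec h h1⟩

set_option linter.unusedSectionVars false in
theorem const_spec {α : Type} {q : α → L} {q' : α → L'} (h : aloc k q' ≤ aloc k q) {i : α}
    {c : k} (hq : q' i = algebraMap k L' c) : q i = algebraMap k L c := by
  have h1 : (X i - C c : MvPolynomial α k) ∈ aloc k q' := by
    rw [mem_aloc, map_sub, aeval_X, aeval_C, hq, sub_self]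
  have h2 := h h1
  rw [mem_aloc, map_sub, aeval_X, aeval_C, sub_eq_zero] at h2
  exact h2

end Pool.Agent.Lib.MP_a325a5_ag.MU
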