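import Pool.Agent.Lib.MP_a325a5_ag.MU.EDefs
import Pool.Agent.Lib.MP_a325a5_ag.MU.YBasic
import Pool.Agent.Lib.MP_a325a5_ag.MU.LDGen
import Pool.Agent.Lib.MP_a325a5_ag.UM.TD
import Pool.Agent.Lib.MP_a325a5_ag.UL.SysInv
import Pool.Agent.Lib.MP_a325a5_ag.UL.Gen

/-! The point `(w; w, pt)` over the point `y`. -/

set_option autoImplicit false

namespace Pool.Agent.Lib.MP_a325a5_ag.MU

open MvPolynomial UM UL

/-- The constants as a homomorphism. -/
private noncomputable def thpt_rho (U E : Type) [Field E] : E →+* RatFun U E :=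
  (algebraMap (MvPolynomial U E) (RatFun U E)).comp C

private noncomputable def thpt_u (U E : Type) [Field E] : Eˣ →* (RatFun U E)ˣ :=
  Units.map (thpt_rho U E : E →* RatFun U E)

private theorem thpt_prod {L : Type} [Field L] {k : Type} [Field k] [Algebra k L]
    (R : Subalgebra k L) {ι : Type} [Fintype ι] (u : ι → Lˣ) (a : ι → ℤ)
    (h : ∀ i, IsAlgebraic R (u i : L)) : IsAlgebraic R ((∏ i, u i ^ a i : Lˣ) : L) := by
  rw [Units.coe_prod, ← Subalgebra.mem_algebraicClosure]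
  refine Subalgebra.prod_mem _ fun j _ => ?_
  rw [Subalgebra.mem_algebraicClosure]
  rcases Int.eq_nat_or_neg (a j) with ⟨n, hn | hn⟩
  · rw [hn, zpow_natCast, Units.val_pow_eq_pow_val]
    exact (h j).pow n
  · rw [hn, zpow_neg, zpow_natCast, Units.val_inv_eq_inv_val, Units.val_pow_eq_pow_val]
    exact ((h j).pow n).inv

section thpt

variable {α J : Type} [Fintype α] [Fintype J] (S : Sys J) {E : Type} [Field E] (w : α → Eˣ)
  (y : J → Eˣ) (hy : ∀ b, S.rel y b = 0)

omit [Fintype α] in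
private theorem thpt_inl (i : α) : (thPt S w y hy).2 (Sum.inl i) = thpt_u (J ⊕ S.B) E (w i) :=
  Units.ext rfl

private theorem thpt_y (j : J) : (genConfig S y hy).y j = thpt_u (J ⊕ S.B) E (y j) := by
  apply Units.ext
  rw [genConfig_y]
  rfl

omit [Fintype α] in
private theorem thpt_pow (hw : ∀ i, ∃ (N : ℕ) (a : J → ℤ), 0 < N ∧ w i ^ N = ∏ j, y j ^ a j)
    (i : α) : ∃ (N : ℕ) (a : J → ℤ), 0 < N ∧
      (thPt S w y hy).2 (Sum.inl i) ^ N = ∏ j, (genConfig S y hy).y j ^ a j := by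
  obtain ⟨N, a, hN, h⟩ := hw i
  refine ⟨N, a, hN, ?_⟩
  rw [thpt_inl, ← map_pow, h, map_prod]
  refine Finset.prod_congr rfl fun j _ => ?_
  rw [thpt_y, map_zpow]

theorem mr_thPt (hw : ∀ i, ∃ (N : ℕ) (a : J → ℤ), 0 < N ∧ w i ^ N = ∏ j, y j ^ a j) :
    mr (thPt S w y hy).2 = mr (genConfig S y hy).pt := by
  obtain ⟨A, hA⟩ := exists_base_exponents S
  apply le_antisymm
  · apply mr_le_of_pow_mem
    rintro (i | j)
    · obtain ⟨N, a, hN, h⟩ := thpt_pow S w y hy hw i
      refine ⟨N, hN, ?_⟩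
      rw [h]
      refine Subgroup.prod_mem _ fun j _ => Subgroup.zpow_mem _ ?_ _
      rw [hA]
      refine Subgroup.prod_mem _ fun l _ => Subgroup.zpow_mem _ ?_ _
      exact Subgroup.subset_closure (Set.mem_range_self l)
    · refine ⟨1, one_pos, ?_⟩
      rw [pow_one]
      exact Subgroup.subset_closure ⟨j, rfl⟩
  · apply mr_le_of_pow_mem
    intro j
    refine ⟨1, one_pos, ?_⟩
    rw [pow_one]
    exact Subgroup.subset_closure ⟨Sum.inr j, rfl⟩

theorem atd_thPt {k : Type} [Field k] [Algebra k E]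
    (hw : ∀ i, ∃ (N : ℕ) (a : J → ℤ), 0 < N ∧ w i ^ N = ∏ j, y j ^ a j) :
    atd k (co (thPt S w y hy)) = td k (genConfig S y hy).pt := by
  obtain ⟨A, hA⟩ := exists_base_exponents S
  rw [ul_td]
  apply le_antisymm
  · refine atd_le_of_algebraic (K := k) _ _ ?_
    set R := Algebra.adjoin k (Set.range fun j =>
      (((genConfig S y hy).pt j : (RatFun (J ⊕ S.B) E)ˣ) : RatFun (J ⊕ S.B) E)) with hR
    have h1 : ∀ j, IsAlgebraic R
        (((genConfig S y hy).pt j : (RatFun (J ⊕ S.B) E)ˣ) : RatFun (J ⊕ S.B) E) := by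
      intro j
      have h0 : (((genConfig S y hy).pt j : (RatFun (J ⊕ S.B) E)ˣ) : RatFun (J ⊕ S.B) E) ∈ R :=
        Algebra.subset_adjoin ⟨j, rfl⟩
      exact isAlgebraic_algebraMap (⟨_, h0⟩ : R)
    have h2 : ∀ j, IsAlgebraic R
        (((genConfig S y hy).y j : (RatFun (J ⊕ S.B) E)ˣ) : RatFun (J ⊕ S.B) E) := by
      intro j
      rw [hA]
      exact thpt_prod R _ _ h1
    have h3 : ∀ i, IsAlgebraic R
        (((thPt S w y hy).2 (Sum.inl i) : (RatFun (J ⊕ S.B) E)ˣ) : RatFun (J ⊕ S.B) E) := by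
      intro i
      obtain ⟨N, a, hN, h⟩ := thpt_pow S w y hy hw i
      refine IsAlgebraic.of_pow hN ?_
      rw [← Units.val_pow_eq_pow_val, h]
      exact thpt_prod R _ _ h2
    rintro (i | i | j)
    · exact h3 i
    · exact h3 i
    · exact h1 j
  · refine atd_le_of_algebraic (K := k) _ _ fun j => ?_
    exact isAlgebraic_algebraMap (⟨(((genConfig S y hy).pt j : (RatFun (J ⊕ S.B) E)ˣ) :
        RatFun (J ⊕ S.B) E), Algebra.subset_adjoin ⟨Sum.inr (Sum.inr j), rfl⟩⟩ :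
      Algebra.adjoin k (Set.range fun i => co (thPt S w y hy) i))

theorem thPt_mem {k : Type} [Field k] [IsAlgClosed k] [CharZero k] [Algebra k E] :
    vanIdeal (LD k α S.D) ≤ aloc k (co (thPt S w y hy)) := by
  rw [LD_le_aloc]
  exact ⟨fun i => rfl, fun e => (genConfig S y hy).pt_add e⟩

omit [Fintype α] in
theorem ny_thPt [CharZero E] : ny (thPt S w y hy).1 = ny (fun i => (w i : E)) := by
  have h1 : (thPt S w y hy).1 = fun i => algebraMap E (RatFun (J ⊕ S.B) E) (w i : E) := rfl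
  rw [h1]
  unfold ny
  simp only [isCM_algebraMap, isog_algebraMap]

end thpt

end Pool.Agent.Lib.MP_a325a5_ag.MU
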