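import Pool.Agent.Lib.MP_a325a5_ag.MU.EDefs
import Pool.Agent.Lib.MP_a325a5_ag.MU.YCls
import Pool.Agent.Lib.MP_a325a5_ag.MU.YLeast
import Pool.Agent.Lib.MP_a325a5_ag.MU.LDGen
import Pool.Agent.Lib.MP_a325a5_ag.MU.ThPt
import Pool.Agent.Lib.MP_a325a5_ag.UM.Comp
import Pool.Agent.Lib.MP_a325a5_ag.UM.Typ
import Pool.Agent.Lib.MP_a325a5_ag.UL.Iso

/-! The generic configuration lies on no atypical subvariety of `Δ^α × ℓ^D`. -/

set_option autoImplicit false

namespace Pool.Agent.Lib.MP_a325a5_ag.MU

open MvPolynomial UM UL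

/-- integral powers of algebraic elements -/
private theorem iT_zpow {R L : Type} [CommRing R] [IsDomain R] [Field L] [Algebra R L] {x : L}
    (hx : IsAlgebraic R x) (n : ℤ) : IsAlgebraic R (x ^ n) := by
  obtain ⟨m, rfl | rfl⟩ := n.eq_nat_or_neg
  · rw [zpow_natCast]
    exact hx.pow m
  · rw [zpow_neg, zpow_natCast]
    exact (hx.pow m).inv

/-- monomials in algebraic elements -/
private theorem iT_prod {R L : Type} [CommRing R] [IsDomain R] [Field L] [Algebra R L] {ι : Type}
    [Fintype ι] (x : ι → L) (hx : ∀ i, IsAlgebraic R (x i)) (n : ι → ℤ) :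
    IsAlgebraic R (∏ i, x i ^ n i) := by
  classical
  induction (Finset.univ : Finset ι) using Finset.induction_on with
  | empty =>
    rw [Finset.prod_empty]
    exact isAlgebraic_one
  | insert i s hi ih =>
    rw [Finset.prod_insert hi]
    exact (iT_zpow (hx i) (n i)).mul ih

theorem generic_not_mem (h : ModAx) {k E : Type} [Field k] [IsAlgClosed k] [CharZero k]
    [Field E] [CharZero E] [Algebra k E] {α J : Type} [Fintype α] [Fintype J] (S : Sys J)
    (w : α → Eˣ) (y : J → Eˣ) (hy : ∀ b, S.rel y b = 0)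
    (hw : ∀ i, ∃ (N : ℕ) (a : J → ℤ), 0 < N ∧ w i ^ N = ∏ j, y j ^ a j)
    (hny : ny (fun i => (w i : E)) = Fintype.card α) (hind : mr y = Fintype.card J)
    (hdist : ∀ b l l', S.part y b l = S.part y b l' → l = l')
    (hcard : Fintype.card S.B + td k y = Fintype.card J)
    (hiso : ∀ (L' : Type) [Field L'] [Algebra k L'] (y' : J → L'ˣ),
      locus k y' ≤ locus k y → (∀ b, S.rel y' b = 0) → td k y' ≤ td k y)
    (Z : Set (Pt k α (α ⊕ (S.D ⊕ S.D))))
    (hZ : UM.Atypical (YSpecial k α) (LD k α S.D) Z) :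
    ¬ vanIdeal Z ≤ aloc k (co (thPt S w y hy)) := by
  intro hle
  have hZ' := hZ
  obtain ⟨⟨hZirr, hZsub, hZc, -⟩, -⟩ := hZ'
  obtain ⟨L₁, i1, i2, γ, hγ⟩ := UM.exists_generic Z hZirr
  have c1 : CharZero L₁ := charZero_of_injective_algebraMap (algebraMap k L₁).injective
  obtain ⟨L₂, i3, c2, i4, γl, hγl, htdl, hmrl, hnyl⟩ := LD_generic h k α S.D
  obtain ⟨TX, hTX, hdX⟩ := exists_yleast (k := k) h γl.1
  obtain ⟨TZ, hTZ, hdZ⟩ := exists_yleast (k := k) h γ.1
  have hA := UM.atypical_lt (yfamily h k α) (LD k α S.D) Z (LD_irrClosed k α S.D) hZ γl γ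
    hγl hγ TX TZ hTX hTZ
  have hspec : aloc k (co γ) ≤ aloc k (co (thPt S w y hy)) := hγ.le.trans hle
  have hny1 : ny (thPt S w y hy).1 = Fintype.card α := (ny_thPt S w y hy).trans hny
  have hny2 : ny (thPt S w y hy).1 ≤ ny γ.1 := ny_mono (k := k) h _ _ (aloc_fst_le _ _ hspec)
  have hny3 : ny γ.1 ≤ Fintype.card α := ny_le h γ.1
  obtain ⟨A, hAexp⟩ := exists_base_exponents S
  have htdv := td_genConfig S (k := k) y hy
  have hatd := atd_thPt S w y hy (k := k) hw
  have key := UM.typical γ (thPt S w y hy) hspec (by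
    classical
    intro L' _ _ τ' h1 h2 h3
    obtain ⟨hdiag, hline⟩ := (LD_le_aloc (k := k) τ').mp
      (((UM.vanIdeal_anti hZsub).trans hγ.ge).trans h1)
    -- the relations of the configuration
    have hrel : ∀ (a : S.D ⊕ S.D → ℤ) (ζ : kˣ), IsOfFinOrder ζ →
        ∏ i, (genConfig S y hy).pt i ^ a i = cst k _ ζ →
        ∏ i, τ'.2 (Sum.inr i) ^ a i = cst k L' ζ := by
      intro a ζ hζ ha
      have h4 := h3 (Sum.elim (fun _ => 0) a) ζ hζ (by
        rw [Fintype.prod_sum_type]
        simp only [Sum.elim_inl, Sum.elim_inr, zpow_zero, Finset.prod_const_one, one_mul]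
        exact ha)
      rw [Fintype.prod_sum_type] at h4
      simpa using h4
    obtain ⟨v', hv'⟩ := exists_config S (K := k) (genConfig S y hy)
      (fun i => τ'.2 (Sum.inr i)) hline hrel
    have hloc0 : locus k (fun i => τ'.2 (Sum.inr i)) ≤ locus k (genConfig S y hy).pt := by
      intro f hf
      have e : ∀ {F : Type} [Field F] [Algebra k F] (p : Pt F α (α ⊕ (S.D ⊕ S.D))),
          aeval (co p) (rename (fun i => Sum.inr (Sum.inr i)) f :
            MvPolynomial (α ⊕ (α ⊕ (S.D ⊕ S.D))) k) =
            aeval (fun i => (p.2 (Sum.inr i) : F)) f := by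
        intro F _ _ p
        rw [aeval_rename]
        rfl
      have h5 := h2 (mem_aloc.mpr ((e τ').trans (mem_locus.mp hf)))
      rw [mem_aloc, e] at h5
      exact mem_locus.mpr h5
    have hloc : locus k v'.y ≤ locus k (genConfig S y hy).y := by
      have h4 := locus_monomial_le (K := k) (genConfig S y hy).pt
        (fun i => τ'.2 (Sum.inr i)) hloc0 A (fun _ => 1)
      have e1 : (fun j => cst k L' ((fun _ => 1 : J → kˣ) j) *
          ∏ i, τ'.2 (Sum.inr i) ^ A j i) = v'.y := by
        funext j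
        rw [map_one, one_mul, hAexp L' v' j, hv']
      have e2 : (fun j => cst k (RatFun (J ⊕ S.B) E) ((fun _ => 1 : J → kˣ) j) *
          ∏ i, (genConfig S y hy).pt i ^ A j i) = (genConfig S y hy).y := by
        funext j
        rw [map_one, one_mul, hAexp _ (genConfig S y hy) j]
      rw [e1, e2] at h4
      exact h4
    have h5 := hiso L' v'.y (hloc.trans (locus_genConfig_y S y hy).le)
      (fun b => v'.rel_eq_zero b)
    have h6 := v'.td_pt_le (K := k)
    -- the coordinates `w` are algebraic over the configuration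
    have hw' : ∀ i, ∃ (N : ℕ) (b : S.D ⊕ S.D → ℤ), 0 < N ∧
        τ'.2 (Sum.inl i) ^ N = ∏ l, τ'.2 (Sum.inr l) ^ b l := by
      intro i
      obtain ⟨N, a, hN, ha⟩ := hw i
      refine ⟨N, fun l => ∑ j, a j * A j l, hN, ?_⟩
      have hexp : ∀ {G : Type} [CommGroup G] (p : S.D ⊕ S.D → G),
          ∏ j, (∏ l, p l ^ A j l) ^ a j = ∏ l, p l ^ (∑ j, a j * A j l) := by
        intro G _ p
        have e2 : ∀ l, p l ^ (∑ j, a j * A j l) = ∏ j, p l ^ (a j * A j l) := by
          intro l
          classical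
          induction (Finset.univ : Finset J) using Finset.induction_on with
          | empty => simp
          | insert x s hx ih => rw [Finset.sum_insert hx, Finset.prod_insert hx, zpow_add, ih]
        simp_rw [e2]
        rw [Finset.prod_comm]
        refine Finset.prod_congr rfl fun j _ => ?_
        rw [← Finset.prod_zpow]
        refine Finset.prod_congr rfl fun l _ => ?_
        rw [← zpow_mul, mul_comm]
      have hΘ : (thPt S w y hy).2 (Sum.inl i) ^ N =
          ∏ l, (genConfig S y hy).pt l ^ (∑ j, a j * A j l) := by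
        rw [← hexp]
        have e3 : ∀ j, ∏ l, (genConfig S y hy).pt l ^ A j l = (genConfig S y hy).y j :=
          fun j => (hAexp _ (genConfig S y hy) j).symm
        simp_rw [e3]
        apply Units.ext
        have e4 := congrArg (fun u : Eˣ => algebraMap E (RatFun (J ⊕ S.B) E) (u : E)) ha
        simp only [Units.val_pow_eq_pow_val, map_pow, Units.coe_prod, map_prod,
          Units.val_zpow_eq_zpow_val, map_zpow₀] at e4
        rw [Units.val_pow_eq_pow_val, Units.coe_prod]
        refine e4.trans (Finset.prod_congr rfl fun j _ => ?_)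
        rw [Units.val_zpow_eq_zpow_val, genConfig_y]
        rfl
      have h7 := h3 (Sum.elim (Pi.single i (N : ℤ)) (fun l => - ∑ j, a j * A j l)) 1
        IsOfFinOrder.one (by
          rw [Fintype.prod_sum_type]
          simp only [Sum.elim_inl, Sum.elim_inr]
          rw [Finset.prod_eq_single i (fun j _ hj => by
            rw [Pi.single_eq_of_ne hj, zpow_zero]) (fun hi => absurd (Finset.mem_univ i) hi),
            Pi.single_eq_same, zpow_natCast, hΘ, map_one]
          simp only [zpow_neg, Finset.prod_inv_distrib]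
          exact mul_inv_cancel _)
      rw [Fintype.prod_sum_type] at h7
      simp only [Sum.elim_inl, Sum.elim_inr] at h7
      rw [Finset.prod_eq_single i (fun j _ hj => by
        rw [Pi.single_eq_of_ne hj, zpow_zero]) (fun hi => absurd (Finset.mem_univ i) hi),
        Pi.single_eq_same, zpow_natCast, map_one] at h7
      simp only [zpow_neg, Finset.prod_inv_distrib] at h7
      exact mul_inv_eq_one.mp h7
    have h8 : atd k (co τ') ≤ td k (fun i => τ'.2 (Sum.inr i)) := by
      rw [ul_td]
      apply UM.atd_le_of_algebraic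
      have hpt : ∀ l, IsAlgebraic (Algebra.adjoin k
          (Set.range fun l => (τ'.2 (Sum.inr l) : L'))) (τ'.2 (Sum.inr l) : L') := fun l =>
        isAlgebraic_algebraMap (⟨_, Algebra.subset_adjoin ⟨l, rfl⟩⟩ :
          Algebra.adjoin k (Set.range fun l => (τ'.2 (Sum.inr l) : L')))
      have hwa : ∀ i, IsAlgebraic (Algebra.adjoin k
          (Set.range fun l => (τ'.2 (Sum.inr l) : L'))) (τ'.2 (Sum.inl i) : L') := by
        intro i
        obtain ⟨N, b, hN, hb⟩ := hw' i
        refine IsAlgebraic.of_pow hN ?_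
        have e5 := congrArg (fun u : L'ˣ => (u : L')) hb
        simp only [Units.val_pow_eq_pow_val, Units.coe_prod, Units.val_zpow_eq_zpow_val] at e5
        rw [e5]
        exact iT_prod _ hpt b
      rintro (i | i | l)
      · rw [co_inl, ← hdiag i]
        exact hwa i
      · exact hwa i
      · exact hpt l
    rw [hv'] at h6
    rw [hatd]
    omega)
  have h7 : mr (genConfig S y hy).pt = 4 * Fintype.card J + ∑ b : S.B, (S.m b + 1) := by
    rw [Config.mr_pt, mr_genConfig S y hy hind hdist]
  have h8 := S.card_D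
  rw [mr_thPt S w y hy hw, hatd] at key
  rw [hdX, hdZ, htdl, hmrl, hnyl] at hA
  omega

end Pool.Agent.Lib.MP_a325a5_ag.MU
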