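import Pool.Agent.Lib.MP_a325a5_ag.MU.EDefs
import Pool.Agent.Lib.MP_a325a5_ag.UM.TD
import Pool.Agent.Lib.MP_a325a5_ag.UL.MRloc

/-! MU, E3: adding constants. Adapted from UM/SeedM.lean (helper51, helper8): from the point `γ`
of `Y(1)^α × 𝔾_m^β` over `K` to the small field `k`, by the torus coordinates, the affine
coordinates in `R` and finitely many constants. -/

set_option autoImplicit false

namespace Pool.Agent.Lib.MP_a325a5_ag.MU

open MvPolynomial UM UL

section
variable {k K F : Type} [Field k] [Field K] [Field F] [Algebra k K] [Algebra K F] [Algebra k F]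
  [IsScalarTower k K F]

/-- finitely many constants suffice for one algebraic equation -/
private theorem seedE_one {J : Type} (g : J → F) (hg : AlgebraicIndependent K g) (x : F)
    (hx : IsAlgebraic (Algebra.adjoin K (Set.range g)) x) :
    ∃ T : Finset Kˣ, IsAlgebraic (Algebra.adjoin k
      (((fun u : Kˣ => algebraMap K F (u : K)) '' (T : Set Kˣ)) ∪ Set.range g)) x := by
  classical
  have hnot : ¬ AlgebraicIndependent K (fun o : Option J => o.elim x g) := by
    intro h
    exact (AlgebraicIndependent.option_iff.mp h).2 hx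
  rw [algebraicIndependent_iff] at hnot
  push Not at hnot
  obtain ⟨P, hP1, hP2⟩ := hnot
  set T : Finset Kˣ := P.support.attach.image
    (fun m => Units.mk0 (P.coeff m.1) (MvPolynomial.mem_support_iff.mp m.2)) with hT
  refine ⟨T, ?_⟩
  set TK : Set K := (fun u : Kˣ => (u : K)) '' (T : Set Kˣ) with hTK
  set k1 : Subalgebra k K := Algebra.adjoin k TK with hk1
  have hcoef : ∀ m, P.coeff m ∈ k1 := by
    intro m
    by_cases hm : m ∈ P.support
    · refine Algebra.subset_adjoin ⟨Units.mk0 (P.coeff m) (MvPolynomial.mem_support_iff.mp hm), ?_, rfl⟩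
      rw [Finset.mem_coe, hT, Finset.mem_image]
      exact ⟨⟨m, hm⟩, Finset.mem_attach _ _, rfl⟩
    · rw [MvPolynomial.notMem_support_iff.mp hm]
      exact k1.zero_mem
  -- the polynomial over `k1`
  obtain ⟨P1, hP1'⟩ : ∃ P1 : MvPolynomial (Option J) k1, MvPolynomial.map (algebraMap k1 K) P1 = P := by
    refine MvPolynomial.mem_range_map_iff_coeffs_subset.mpr ?_
    intro a ha
    obtain ⟨m, _, rfl⟩ := MvPolynomial.mem_coeffs_iff.mp ha
    exact ⟨⟨P.coeff m, hcoef m⟩, rfl⟩
  have hinj : Function.Injective (algebraMap k1 K) := Subtype.val_injective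
  have hg1 : AlgebraicIndependent k1 g := hg.restrictScalars hinj
  have halg1 : IsAlgebraic (Algebra.adjoin k1 (Set.range g)) x := by
    by_contra hcon
    have h1 : AlgebraicIndependent k1 (fun o : Option J => o.elim x g) :=
      AlgebraicIndependent.option_iff.mpr ⟨hg1, hcon⟩
    rw [algebraicIndependent_iff] at h1
    apply hP2
    rw [← hP1']
    rw [h1 P1, map_zero]
    rw [← hP1, ← hP1', MvPolynomial.aeval_map_algebraMap]
  -- compare the two algebras
  set S2 : Subalgebra k F := Algebra.adjoin k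
      (((fun u : Kˣ => algebraMap K F (u : K)) '' (T : Set Kˣ)) ∪ Set.range g) with hS2
  have hle : (Algebra.adjoin k1 (Set.range g)).restrictScalars k ≤ S2 := by
    intro z hz
    rw [Subalgebra.mem_restrictScalars] at hz
    induction hz using Algebra.adjoin_induction with
    | mem y hy => exact Algebra.subset_adjoin (Or.inr hy)
    | algebraMap r =>
      have h2 : algebraMap k1 F r = (IsScalarTower.toAlgHom k K F) r.1 := rfl
      rw [h2]
      have h3 : (IsScalarTower.toAlgHom k K F) r.1 ∈ k1.map (IsScalarTower.toAlgHom k K F) :=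
        ⟨r.1, r.2, rfl⟩
      have h4 : k1.map (IsScalarTower.toAlgHom k K F) ≤ S2 := by
        rw [hk1, AlgHom.map_adjoin]
        refine Algebra.adjoin_mono ?_
        rintro _ ⟨_, ⟨u, hu, rfl⟩, rfl⟩
        exact Or.inl ⟨u, hu, rfl⟩
      exact h4 h3
    | add _ _ _ _ ha hb => exact S2.add_mem ha hb
    | mul _ _ _ _ ha hb => exact S2.mul_mem ha hb
  have halg2 : IsAlgebraic ((Algebra.adjoin k1 (Set.range g)).restrictScalars k) x := halg1
  obtain ⟨p, hp1, hp2⟩ := halg2
  refine ⟨p.map (Subalgebra.inclusion hle).toRingHom, ?_, ?_⟩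
  · intro h
    apply hp1
    exact (Polynomial.map_eq_zero_iff (Subalgebra.inclusion_injective hle)).mp h
  · rw [← hp2, Polynomial.aeval_def, Polynomial.aeval_def, Polynomial.eval₂_map]
    rfl


/-- Finitely many constants: the transcendence degree over `k` of `(q, c)` is at most that of `q`
over `K` plus that of `c` over `k`. -/
private theorem seedE_constants {ι : Type} [Fintype ι] (q : ι → F) :
    ∃ (e : ℕ) (c : Fin e → Kˣ),
      atd k (Sum.elim q (fun j => algebraMap K F ((c j : Kˣ) : K))) ≤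
        atd K q + atd k (fun j => ((c j : Kˣ) : K)) := by
  classical
  obtain ⟨J, hJ1, hJ2, hJ3⟩ := atd_spec (K := K) q
  have h1 : ∀ i, ∃ T : Finset Kˣ, IsAlgebraic (Algebra.adjoin k
      (((fun u : Kˣ => algebraMap K F (u : K)) '' (T : Set Kˣ)) ∪
        Set.range (fun j : J => (q j : F)))) (q i) := by
    intro i
    refine seedE_one (k := k) (fun j : J => (q j : F)) hJ1 _ ?_
    have h2 := hJ3 i
    rw [Set.image_eq_range] at h2
    exact h2
  choose T hT using h1
  set TU : Finset Kˣ := Finset.univ.biUnion T with hTU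
  refine ⟨TU.card, fun j => (TU.equivFin.symm j : Kˣ), ?_⟩
  set c : Fin TU.card → Kˣ := fun j => (TU.equivFin.symm j : Kˣ) with hc
  have hcr : ∀ u ∈ TU, ∃ j, c j = u := by
    intro u hu
    refine ⟨TU.equivFin ⟨u, hu⟩, ?_⟩
    rw [hc]
    simp
  obtain ⟨J', hJ'1, hJ'2, hJ'3⟩ := atd_spec (K := k) (fun j => ((c j : Kˣ) : K))
  rw [← hJ2, ← hJ'2]
  set r : J ⊕ J' → F := Sum.elim (fun j => q j)
    (fun j => algebraMap K F ((c j : Kˣ) : K)) with hr
  have hcalg : ∀ j, IsAlgebraic (Algebra.adjoin k (Set.range r)) (algebraMap K F ((c j : Kˣ) : K)) := by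
    intro j
    obtain ⟨p, hp1, hp2⟩ := hJ'3 j
    have hle : (Algebra.adjoin k ((fun j => ((c j : Kˣ) : K)) '' (J' : Set (Fin TU.card)))).map
        (IsScalarTower.toAlgHom k K F) ≤ Algebra.adjoin k (Set.range r) := by
      rw [AlgHom.map_adjoin]
      refine Algebra.adjoin_mono ?_
      rintro _ ⟨_, ⟨l, hl, rfl⟩, rfl⟩
      exact ⟨Sum.inr ⟨l, hl⟩, rfl⟩
    let φ : Algebra.adjoin k ((fun j => ((c j : Kˣ) : K)) '' (J' : Set (Fin TU.card))) →+*
        Algebra.adjoin k (Set.range r) :=
      { toFun := fun a => ⟨algebraMap K F a.1, hle ⟨a.1, a.2, rfl⟩⟩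
        map_one' := Subtype.ext (map_one _)
        map_mul' := fun a b => Subtype.ext (map_mul _ _ _)
        map_zero' := Subtype.ext (map_zero _)
        map_add' := fun a b => Subtype.ext (map_add _ _ _) }
    have hφ : Function.Injective φ := by
      intro a b hab
      apply Subtype.ext
      apply (algebraMap K F).injective
      exact congrArg (fun z => z.1) hab
    refine ⟨p.map φ, ?_, ?_⟩
    · intro h
      apply hp1
      exact (Polynomial.map_eq_zero_iff hφ).mp h
    · rw [Polynomial.aeval_def, Polynomial.eval₂_map]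
      have h2 : (algebraMap (Algebra.adjoin k (Set.range r)) F).comp φ =
          (algebraMap K F).comp (algebraMap (Algebra.adjoin k
            ((fun j => ((c j : Kˣ) : K)) '' (J' : Set (Fin TU.card)))) K) := rfl
      rw [h2, ← Polynomial.hom_eval₂, ← Polynomial.aeval_def, hp2, map_zero]
  have hle := atd_le_card_of_algebraic (K := k)
    (Sum.elim q (fun j => algebraMap K F ((c j : Kˣ) : K))) r ?_
  · rwa [Fintype.card_sum, Fintype.card_coe, Fintype.card_coe] at hle
  · rintro (i | j)
    · refine IsAlgebraic.adjoin_of_forall_isAlgebraic (s := (((fun u : Kˣ => algebraMap K F (u : K)) ''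
        (T i : Set Kˣ)) ∪ Set.range (fun j : J => (q j : F)))) ?_ (hT i)
      rintro z ⟨hz | hz, hz2⟩
      · obtain ⟨u, hu, rfl⟩ := hz
        obtain ⟨j, hj⟩ := hcr u (Finset.mem_biUnion.mpr ⟨i, Finset.mem_univ i, hu⟩)
        rw [← hj]
        exact hcalg j
      · obtain ⟨j, rfl⟩ := hz
        exact absurd ⟨Sum.inl j, rfl⟩ hz2
    · exact hcalg j

/-- Additivity (lower bound). -/
private theorem seedE_add {ι κ : Type} [Fintype ι] [Fintype κ] (q : ι → F) (c : κ → K) :
    atd K q + atd k c ≤ atd k (Sum.elim q (fun j => algebraMap K F (c j))) := by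
  obtain ⟨J, hJ1, hJ2, -⟩ := atd_spec (K := K) q
  obtain ⟨J', hJ'1, hJ'2, -⟩ := atd_spec (K := k) c
  have h1 : AlgebraicIndependent k (Sum.elim (fun j : J => q j)
      (algebraMap K F ∘ fun j : J' => c j)) := hJ'1.sumElim_comp hJ1
  have h2 := le_atd (K := k) (Sum.elim q (fun j => algebraMap K F (c j)))
    (Sum.elim (fun j : J => q j) (algebraMap K F ∘ fun j : J' => c j)) h1 (fun j => by
      rcases j with j | j
      · exact isAlgebraic_algebraMap (⟨q j, Algebra.subset_adjoin ⟨Sum.inl j.1, rfl⟩⟩ :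
          Algebra.adjoin k (Set.range (Sum.elim q (fun j => algebraMap K F (c j)))))
      · exact isAlgebraic_algebraMap (⟨algebraMap K F (c j),
          Algebra.subset_adjoin ⟨Sum.inr j.1, rfl⟩⟩ :
          Algebra.adjoin k (Set.range (Sum.elim q (fun j => algebraMap K F (c j))))))
  rw [Fintype.card_sum, Fintype.card_coe, Fintype.card_coe, hJ2, hJ'2] at h2
  exact h2

end

theorem exists_seed {k K F : Type} [Field k] [Field K] [Field F] [Algebra k K] [Algebra K F]
    [Algebra k F] [IsScalarTower k K F] {α β : Type} [Fintype α] [Fintype β] (γ : Pt F α β)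
    (R : Finset α) (hR : ∀ r ∈ R, γ.1 r ≠ 0) :
    ∃ (e : ℕ) (c : Fin e → Kˣ) (I : Finset ((β ⊕ R) ⊕ Fin e)),
      mr (fun i : I => fam R c γ hR i) = I.card ∧
      ∀ (L : Type) [Field L] [Algebra K L] [Algebra k L] [IsScalarTower k K L] (x : Pt L α β)
        (hx : ∀ r ∈ R, x.1 r ≠ 0),
        (∀ i, IsAlgebraic (Algebra.adjoin k (Set.range fun r : R => x.1 r)) (x.1 i)) →
        aloc K (co γ) ≤ aloc K (co x) →
        (∀ r : R, ∃ (N : ℕ) (a : I → ℤ), 0 < N ∧
          Units.mk0 (x.1 r) (hx r r.2) ^ N = ∏ i : I, fam R c x hx i ^ a i) ∧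
        mr (fun i : I => fam R c x hx i) + td k (fun i : I => fam R c γ hR i) + mr γ.2 +
            atd K (co x) ≤
          I.card + td k (fun i : I => fam R c x hx i) + mr x.2 + atd K (co γ) := by
  classical
  obtain ⟨e, c, hc⟩ := seedE_constants (k := k) (K := K) (co γ)
  set Γ : (β ⊕ R) ⊕ Fin e → Fˣ := fam R c γ hR with hΓ
  obtain ⟨I, hI1, hI2, hI3⟩ := mr_spec Γ
  refine ⟨e, c, I, hI2, fun L _ _ _ _ x hx hxalg hγx => ?_⟩
  set W : (β ⊕ R) ⊕ Fin e → Lˣ := fam R c x hx with hW
  -- the torus coordinates and the affine coordinates in `R`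
  set γ' : β ⊕ R → Fˣ := Sum.elim γ.2 fun r => Units.mk0 (γ.1 r) (hR r r.2) with hγ'
  set x' : β ⊕ R → Lˣ := Sum.elim x.2 fun r => Units.mk0 (x.1 r) (hx r r.2) with hx'
  have hx2 : locus K γ' ≤ locus K x' := by
    intro f hf
    have key : ∀ (M : Type) [Field M] [Algebra K M] (y : Pt M α β) (hy : ∀ r ∈ R, y.1 r ≠ 0),
        aeval (co y) (rename (Sum.elim Sum.inr (fun r : R => Sum.inl (r : α))) f) =
        aeval (fun j => (((Sum.elim y.2 fun r : R => Units.mk0 (y.1 r) (hy r r.2) :
          β ⊕ R → Mˣ) j : Mˣ) : M)) f := by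
      intro M _ _ y hy
      rw [aeval_rename]
      congr 2
      funext j
      rcases j with j | j
      · rfl
      · rfl
    have h1 : rename (Sum.elim Sum.inr (fun r : R => Sum.inl (r : α))) f ∈ aloc K (co γ) := by
      rw [mem_aloc, key F γ hR]
      exact UL.mem_locus.mp hf
    have h2 := mem_aloc.mp (hγx h1)
    rw [key L x hx] at h2
    exact UL.mem_locus.mpr h2
  -- specialisation of monomial relations
  have hspec : ∀ a : (β ⊕ R) ⊕ Fin e → ℤ, ∏ i, Γ i ^ a i = 1 → ∏ i, W i ^ a i = 1 := by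
    intro a ha
    rw [Fintype.prod_sum_type] at ha ⊢
    have h1 : ∏ i, γ' i ^ a (Sum.inl i) = cst K F ((∏ j, c j ^ a (Sum.inr j))⁻¹) := by
      rw [map_inv, map_prod]
      have h2 : ∏ j, cst K F (c j ^ a (Sum.inr j)) = ∏ j, Γ (Sum.inr j) ^ a (Sum.inr j) := by
        refine Finset.prod_congr rfl fun j _ => ?_
        rw [map_zpow]
        rfl
      rw [h2]
      exact eq_inv_of_mul_eq_one_left ha
    have h3 := monomial_spec x' γ' hx2 (fun i => a (Sum.inl i)) _ h1
    have h4 : cst K L ((∏ j, c j ^ a (Sum.inr j))⁻¹) = (∏ j, W (Sum.inr j) ^ a (Sum.inr j))⁻¹ := by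
      rw [map_inv, map_prod]
      congr 1
      refine Finset.prod_congr rfl fun j _ => ?_
      rw [map_zpow]
      rfl
    rw [h4] at h3
    change (∏ i, x' i ^ a (Sum.inl i)) * (∏ j, W (Sum.inr j) ^ a (Sum.inr j)) = 1
    rw [h3, inv_mul_cancel]
  have e1 : mr γ.2 + mr W ≤ mr Γ + mr x.2 := mr_comp_add_le W Γ hspec (Sum.inl ∘ Sum.inl)
  -- the coordinates outside `I`
  have hout : ∀ i, ∃ (N : ℕ) (a : (β ⊕ R) ⊕ Fin e → ℤ), 0 < N ∧ (∀ j, j ∉ I → a j = 0) ∧
      W i ^ N = ∏ j, W j ^ a j := by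
    intro i
    obtain ⟨N, a, hN, ha, hrel⟩ := hI3 i
    refine ⟨N, a, hN, ha, ?_⟩
    have h1 : ∏ j, Γ j ^ ((if j = i then (N : ℤ) else 0) - a j) = 1 := by
      have h2 : ∏ j, Γ j ^ ((if j = i then (N : ℤ) else 0) - a j) =
          (∏ j, Γ j ^ (if j = i then (N : ℤ) else 0)) * (∏ j, Γ j ^ a j)⁻¹ := by
        rw [← Finset.prod_inv_distrib, ← Finset.prod_mul_distrib]
        exact Finset.prod_congr rfl fun j _ => zpow_sub _ _ _
      have h3 : ∏ j, Γ j ^ (if j = i then (N : ℤ) else 0) = Γ i ^ N := by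
        rw [Finset.prod_eq_single i]
        · rw [if_pos rfl, zpow_natCast]
        · intro j _ hj
          rw [if_neg hj, zpow_zero]
        · intro h
          exact absurd (Finset.mem_univ i) h
      rw [h2, h3, hrel, mul_inv_cancel]
    have h4 := hspec _ h1
    have h2 : ∏ j, W j ^ ((if j = i then (N : ℤ) else 0) - a j) =
        (∏ j, W j ^ (if j = i then (N : ℤ) else 0)) * (∏ j, W j ^ a j)⁻¹ := by
      rw [← Finset.prod_inv_distrib, ← Finset.prod_mul_distrib]
      exact Finset.prod_congr rfl fun j _ => zpow_sub _ _ _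
    have h3 : ∏ j, W j ^ (if j = i then (N : ℤ) else 0) = W i ^ N := by
      rw [Finset.prod_eq_single i]
      · rw [if_pos rfl, zpow_natCast]
      · intro j _ hj
        rw [if_neg hj, zpow_zero]
      · intro h
        exact absurd (Finset.mem_univ i) h
    rw [h2, h3] at h4
    exact eq_of_mul_inv_eq_one h4
  have hin : ∀ r : R, ∃ (N : ℕ) (a : I → ℤ), 0 < N ∧
      Units.mk0 (x.1 r) (hx r r.2) ^ N = ∏ i : I, W i ^ a i := by
    intro r
    obtain ⟨N, a, hN, ha, hrel⟩ := hout (Sum.inl (Sum.inr r))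
    refine ⟨N, fun i => a i, hN, ?_⟩
    have h1 : W (Sum.inl (Sum.inr r)) = Units.mk0 (x.1 r) (hx r r.2) := rfl
    rw [← h1, hrel]
    have h2 : ∏ j, W j ^ a j = ∏ j ∈ I, W j ^ a j := by
      symm
      refine Finset.prod_subset (Finset.subset_univ _) fun j _ hj => ?_
      rw [ha j hj, zpow_zero]
    rw [h2, ← Finset.prod_coe_sort]
  refine ⟨hin, ?_⟩
  have e2 : mr (fun i : I => W i) ≤ mr W := by
    refine mr_le_of_pow_mem W (fun i : I => W i) fun j => ⟨1, one_pos, ?_⟩
    rw [pow_one]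
    exact Subgroup.subset_closure ⟨j.1, rfl⟩
  have e3 : td k (fun i : I => Γ i) ≤
      atd k (Sum.elim (co γ) (fun j => algebraMap K F ((c j : Kˣ) : K))) := by
    rw [ul_td]
    refine atd_le_of_algebraic (K := k) _ _ fun i => ?_
    set A := Algebra.adjoin k (Set.range fun j =>
      (Sum.elim (co γ) (fun j => algebraMap K F ((c j : Kˣ) : K)) j : F)) with hA
    obtain ⟨i, hi⟩ := i
    rcases i with (i | i) | i
    · exact isAlgebraic_algebraMap (⟨(γ.2 i : F),
        Algebra.subset_adjoin ⟨Sum.inl (Sum.inr i), rfl⟩⟩ : A)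
    · exact isAlgebraic_algebraMap (⟨γ.1 i, Algebra.subset_adjoin ⟨Sum.inl (Sum.inl i), rfl⟩⟩ : A)
    · exact isAlgebraic_algebraMap (⟨algebraMap K F ((c i : Kˣ) : K),
        Algebra.subset_adjoin ⟨Sum.inr i, rfl⟩⟩ : A)
  have e4 := seedE_add (k := k) (K := K) (co x) (fun j => ((c j : Kˣ) : K))
  have e5 : atd k (Sum.elim (co x) (fun j => algebraMap K L ((c j : Kˣ) : K))) ≤
      td k (fun i : I => W i) := by
    rw [ul_td]
    refine atd_le_of_algebraic (K := k) _ _ fun i => ?_
    set A := Algebra.adjoin k (Set.range fun i : I => ((W i : Lˣ) : L)) with hA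
    have hWalg : ∀ i, IsAlgebraic A ((W i : Lˣ) : L) := by
      intro i
      obtain ⟨N, a, hN, ha, hrel⟩ := hout i
      refine IsAlgebraic.of_pow hN ?_
      have h5 : ((W i : Lˣ) : L) ^ N = ∏ j, ((W j ^ a j : Lˣ) : L) := by
        have h6 := congrArg (fun u : Lˣ => (u : L)) hrel
        simp only [Units.val_pow_eq_pow_val, Units.coe_prod] at h6
        exact h6
      rw [h5]
      rw [← Subalgebra.mem_algebraicClosure]
      refine Subalgebra.prod_mem _ fun j _ => ?_
      rw [Subalgebra.mem_algebraicClosure]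
      by_cases hj : j ∈ I
      · have h7 : IsAlgebraic A ((W j : Lˣ) : L) := by
          have h8 : ((W j : Lˣ) : L) ∈ A := Algebra.subset_adjoin ⟨⟨j, hj⟩, rfl⟩
          exact isAlgebraic_algebraMap (R := A) (A := L) ⟨_, h8⟩
        rcases Int.eq_nat_or_neg (a j) with ⟨n, hn | hn⟩
        · rw [hn, zpow_natCast, Units.val_pow_eq_pow_val]
          exact h7.pow n
        · rw [hn, zpow_neg, zpow_natCast, Units.val_inv_eq_inv_val, Units.val_pow_eq_pow_val]
          exact (h7.pow n).inv
      · rw [ha j hj, zpow_zero, Units.val_one]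
        exact isAlgebraic_one
    rcases i with (i | i) | i
    · refine IsAlgebraic.adjoin_of_forall_isAlgebraic (s := Set.range fun r : R => x.1 r) ?_
        (hxalg i)
      rintro z ⟨⟨r, rfl⟩, -⟩
      exact hWalg (Sum.inl (Sum.inr r))
    · exact hWalg (Sum.inl (Sum.inl i))
    · exact hWalg (Sum.inr i)
  have e6 : mr Γ = I.card := hI1.symm
  change mr (fun i : I => W i) + td k (fun i : I => Γ i) + mr γ.2 + atd K (co x) ≤
    I.card + td k (fun i : I => W i) + mr x.2 + atd K (co γ)
  omega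

end Pool.Agent.Lib.MP_a325a5_ag.MU
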