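import Pool.Agent.Lib.MP_a325a5_ag.MU.YCls
import Pool.Agent.Lib.MP_a325a5_ag.MU.YLeast
import Pool.Agent.Lib.MP_a325a5_ag.MU.LDGen
import Pool.Agent.Lib.MP_a325a5_ag.MU.Seed
import Pool.Agent.Lib.MP_a325a5_ag.MU.Free
import Pool.Agent.Lib.MP_a325a5_ag.MU.FreeNy
import Pool.Agent.Lib.MP_a325a5_ag.MU.FreeLoc
import Pool.Agent.Lib.MP_a325a5_ag.MU.ThPt
import Pool.Agent.Lib.MP_a325a5_ag.MU.CoefT
import Pool.Agent.Lib.MP_a325a5_ag.MU.IsoT
import Pool.Agent.Lib.MP_a325a5_ag.UM.Comp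
import Pool.Agent.Lib.MP_a325a5_ag.UM.LocSet
import Pool.Agent.Lib.MP_a325a5_ag.UL.ConfMr
import Pool.Agent.Lib.MP_a325a5_ag.UL.Gen
import Pool.Agent.Lib.MP_a325a5_ag.UL.Sel

/-! Finiteness for all `ℓ^D × Δ^α` over `k` implies Zilber-Pink for `Y(1)^α × 𝔾_m^β` over `K`.

`γ` a generic point of `X`, `HLatyp` dense, `R` representatives of the non CM classes of `γ.1`.
`exists_seed` gives `c`, `I`; `p = fam R c γ`, `y = fy R p`; `exists_system` for `y`;
`generic_not_mem` for `w = fwu R γ.1`; `G = ∏ f_Z` over the finitely many maximal atypical `Z`;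
`exists_coeffs` gives `g` with `g(γ) ≠ 0`; `g * ∏_{r ∈ R} X_r` is not in `vanIdeal` of some atypical
`Z₀` in `X`; `x` generic in `Z₀`; `G` does not vanish at `Θ_x`; the count of defects shows that `Θ_x`
lies on an atypical subvariety: contradiction. -/

set_option autoImplicit false

namespace Pool.Agent.Lib.MP_a325a5_ag.MU

open MvPolynomial UM UL

private theorem MUBwd_rel {J : Type} [Fintype J] (S : Sys J) {k : Type} [Field k] (b : S.B) :
    ∃ P : MvPolynomial J k, ∀ (E : Type) [Field E] [Algebra k E] (y : J → Eˣ),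
      aeval (fun i => (y i : E)) P = S.rel y b := by
  refine ⟨∑ l, C (((S.ε b l : ℤˣ) : ℤ) : k) * ∏ i, (X i : MvPolynomial J k) ^ S.α b l i, ?_⟩
  intro E _ _ y
  unfold Sys.rel Sys.term sgnUnit
  rw [map_sum]
  refine Finset.sum_congr rfl fun l _ => ?_
  rw [map_mul, map_prod]
  simp

private theorem MUBwd_alg_mono {k L : Type} [Field k] [Field L] [Algebra k L] {A B : Set L}
    (hAB : A ⊆ B) {x : L} (hx : IsAlgebraic (Algebra.adjoin k A) x) :
    IsAlgebraic (Algebra.adjoin k B) x := by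
  have h := Algebra.adjoin_mono (R := k) hAB
  obtain ⟨f, hf, hfx⟩ := hx
  refine ⟨f.map (Subalgebra.inclusion h).toRingHom, ?_, ?_⟩
  · rw [Ne, Polynomial.map_eq_zero_iff]
    · exact hf
    · exact Subalgebra.inclusion_injective h
  · rw [Polynomial.aeval_def, Polynomial.eval₂_map]
    exact hfx

/-- all affine coordinates are algebraic over the representatives of the classes -/
private theorem MUBwd_alg (h : ModAx) {k F L : Type} [Field k] [IsAlgClosed k] [CharZero k]
    [Field F] [CharZero F] [Algebra k F] [Field L] [CharZero L] [Algebra k L] {α : Type}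
    (q : α → F) (R : Finset α) (hR : ∀ i, ¬ IsCM (q i) → ∃ r ∈ R, Isog (q r) (q i))
    (x : α → L) (hx : aloc k q ≤ aloc k x) (i : α) :
    IsAlgebraic (Algebra.adjoin k (Set.range fun r : R => x r)) (x i) := by
  by_cases hi : IsCM (q i)
  · obtain ⟨c, hc⟩ := exists_of_isCM (k := k) h hi
    have h1 := const_spec hx hc.symm
    rw [h1]
    exact isAlgebraic_algebraMap (R := Algebra.adjoin k (Set.range fun r : R => x r)) (A := L)
      (algebraMap k _ c)
  · obtain ⟨r, hr, hri⟩ := hR i hi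
    have h1 := isog_spec hx hri
    refine MUBwd_alg_mono ?_ (isAlgebraic_of_isog (k := k) h h1)
    rintro _ rfl
    exact ⟨⟨r, hr⟩, rfl⟩

theorem backward (h : ModAx) {k K : Type} [Field k] [IsAlgClosed k] [CharZero k]
    [Algebra.IsAlgebraic ℚ k] [Field K] [IsAlgClosed K] [CharZero K] [Algebra k K] {α : Type}
    [Fintype α]
    (hfin : ∀ (D : Type) [Fintype D], (UM.MaxAtypical (YSpecial k α) (LD k α D)).Finite)
    (β : Type) [Fintype β] (X : Set (Pt K α β)) (hX : IrrClosed X) :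
    ¬ DenseIn (UM.HLatyp (YSpecial k α) X) X := by
  classical
  intro hd
  have hF := yfamily h k α
  obtain ⟨F, iF, iA, γ, hγ⟩ := exists_generic X hX
  let iAk : Algebra k F := ((algebraMap K F).comp (algebraMap k K)).toAlgebra
  have iT : IsScalarTower k K F := IsScalarTower.of_algebraMap_eq' rfl
  have iCF : CharZero F := charZero_of_injective_algebraMap (algebraMap K F).injective
  obtain ⟨R, hRc, hR1, hR2, hR3⟩ := ny_spec h γ.1
  have hγR : ∀ r ∈ R, γ.1 r ≠ 0 := fun r hr h0 => hR1 r hr (by rw [h0]; exact h.cm_zero F)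
  obtain ⟨e, c, I, hmr, hseed⟩ := exists_seed (k := k) (K := K) γ R hγR
  set p : I → Fˣ := fun i => fam R c γ hγR i with hp
  set y := fy R p with hy
  obtain ⟨S, hrel, hdist, hcard, hiso⟩ := UL.exists_system (k := k) y
  have hcI : Fintype.card I = I.card := Fintype.card_coe I
  have hmrI : mr p = I.card := hmr
  have hcJ : Fintype.card (Un R ⊕ I) + R.card = Fintype.card I + Fintype.card α := card_fy R
  have hind : mr y = Fintype.card (Un R ⊕ I) := by
    have h1 : mr y + R.card = mr p + Fintype.card α := mr_fy R p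
    omega
  have hrelR := (hseed F γ hγR
    (fun i => MUBwd_alg h γ.1 R hR3 γ.1 le_rfl i) le_rfl).1
  have hw := fwu_pow R p γ.1 hγR hrelR
  have hny : ny (fun i => ((fwu R γ.1 hγR i : (RatFun (Un R) F)ˣ) : RatFun (Un R) F)) =
      Fintype.card α := ny_fw R h k γ.1 hR1 hR2
  have iCE : CharZero (RatFun (Un R) F) :=
    charZero_of_injective_algebraMap (algebraMap F (RatFun (Un R) F)).injective
  have hnot := generic_not_mem h S (fwu R γ.1 hγR) y hrel hw hny hind hdist hcard hiso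
  have hfinD := hfin S.D
  have hch : ∀ Z ∈ UM.MaxAtypical (YSpecial k α) (LD k α S.D), ∃ f ∈ vanIdeal Z,
      f ∉ aloc k (co (thPt S (fwu R γ.1 hγR) y hrel)) := by
    intro Z hZ
    have := hnot Z hZ.1
    rw [SetLike.not_le_iff_exists] at this
    exact this
  choose! f hfZ hfn using hch
  set G : MvPolynomial (α ⊕ (α ⊕ (S.D ⊕ S.D))) k := ∏ Z ∈ hfinD.toFinset, f Z with hG
  have hGn : G ∉ aloc k (co (thPt S (fwu R γ.1 hγR) y hrel)) := by
    rw [hG, Ideal.IsPrime.prod_mem_iff]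
    rintro ⟨Z, hZ, hZf⟩
    exact hfn Z (hfinD.mem_toFinset.mp hZ) hZf
  obtain ⟨𝒯, h𝒯⟩ := exists_coeffs (K := K) R c I S G
  obtain ⟨g, hg𝒯, hg⟩ := (h𝒯 F γ hγR hrel).mp hGn
  set g' : MvPolynomial (α ⊕ β) K := g * ∏ r ∈ R, MvPolynomial.X (Sum.inl r) with hg'
  have hg'γ : aeval (co γ) g' ≠ 0 := by
    rw [hg', map_mul, map_prod]
    refine mul_ne_zero hg (Finset.prod_ne_zero_iff.mpr fun r hr => ?_)
    rw [aeval_X, co_inl]
    exact hγR r hr
  have hgX : g' ∉ vanIdeal X := by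
    rw [← hγ, mem_aloc]
    exact hg'γ
  have hex : ∃ Z₀, UM.Atypical (YSpecial k α) X Z₀ ∧ g' ∉ vanIdeal Z₀ := by
    by_contra hcon
    push Not at hcon
    apply hgX
    apply hd
    rintro z ⟨Z, hZ, hz⟩
    exact hcon Z hZ z hz
  obtain ⟨Z₀, hZ₀, hgZ₀⟩ := hex
  obtain ⟨L, iL, iKL, x, hx⟩ := exists_generic Z₀ hZ₀.1.1
  let iAL : Algebra k L := ((algebraMap K L).comp (algebraMap k K)).toAlgebra
  have iTL : IsScalarTower k K L := IsScalarTower.of_algebraMap_eq' rfl
  have iCL : CharZero L := charZero_of_injective_algebraMap (algebraMap K L).injective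
  have hspec : aloc K (co γ) ≤ aloc K (co x) := by
    rw [hγ, hx]
    exact vanIdeal_anti hZ₀.1.2.1
  have hspec1 : aloc k γ.1 ≤ aloc k x.1 :=
    aloc_restrict_le k x.1 γ.1 (aloc_fst_le x γ hspec)
  have hg'x : aeval (co x) g' ≠ 0 := by
    intro h0
    apply hgZ₀
    rw [← hx]
    exact mem_aloc.mpr h0
  rw [hg', map_mul, map_prod] at hg'x
  have hgx : aeval (co x) g ≠ 0 := left_ne_zero_of_mul hg'x
  have hxR : ∀ r ∈ R, x.1 r ≠ 0 := by
    intro r hr
    have h1 := Finset.prod_ne_zero_iff.mp (right_ne_zero_of_mul hg'x) r hr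
    rw [aeval_X, co_inl] at h1
    exact h1
  obtain ⟨-, hsx⟩ := hseed L x hxR (fun i => MUBwd_alg h γ.1 R hR3 x.1 hspec1 i) hspec
  set px : I → Lˣ := fun i => fam R c x hxR i with hpx
  set yx := fy R px with hyx
  have hrelx : ∀ b, S.rel yx b = 0 := by
    intro b
    obtain ⟨P, hP⟩ := MUBwd_rel S (k := k) b
    have h1 : locus k y ≤ locus k yx :=
      locus_fy_le R p px (locus_fam_le (k := k) R c I γ hγR x hxR hspec)
    have h2 : P ∈ locus k y := by
      rw [mem_locus, hP]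
      exact hrel b
    have h3 := mem_locus.mp (h1 h2)
    rw [hP] at h3
    exact h3
  have hGx : G ∉ aloc k (co (thPt S (fwu R x.1 hxR) yx hrelx)) :=
    (h𝒯 L x hxR hrelx).mpr ⟨g, hg𝒯, hgx⟩
  have iCEx : CharZero (RatFun (Un R) L) :=
    charZero_of_injective_algebraMap (algebraMap L (RatFun (Un R) L)).injective
  have iCM : CharZero (RatFun ((Un R ⊕ I) ⊕ S.B) (RatFun (Un R) L)) :=
    charZero_of_injective_algebraMap
      (algebraMap (RatFun (Un R) L) (RatFun ((Un R ⊕ I) ⊕ S.B) (RatFun (Un R) L))).injective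
  have hΘ := thPt_mem (k := k) S (fwu R x.1 hxR) yx hrelx
  obtain ⟨LV, _, _, _, γV, hγV, htdV, hmrV, hnyV⟩ := LD_generic h k α S.D
  have hVirr := LD_irrClosed k α S.D
  obtain ⟨TV, hTV, hTVd⟩ := exists_yleast h (k := k) γV.1
  obtain ⟨TΘ, hTΘ, hTΘd⟩ := exists_yleast h (k := k) (thPt S (fwu R x.1 hxR) yx hrelx).1
  obtain ⟨Tγ, hTγ, hTγd⟩ := exists_yleast h (k := k) γ.1
  obtain ⟨Tx, hTx, hTxd⟩ := exists_yleast h (k := k) x.1
  have hlt := UM.atypical_lt hF X Z₀ hX hZ₀ γ x hγ hx Tγ Tx hTγ hTx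
  -- the relations for `x` (again, for the estimate of the rank)
  have hrelRx := (hseed L x hxR (fun i => MUBwd_alg h γ.1 R hR3 x.1 hspec1 i) hspec).1
  have hwx := fwu_pow R px x.1 hxR hrelRx
  obtain ⟨Z, hZ, hZl⟩ := UM.exists_atypical hF (LD k α S.D) hVirr (by
      intro q _ f' hf'
      have h1 := hf' q.1 (Set.mem_univ _)
      exact mem_aloc.mp (mem_aloc_self.mpr h1))
    γV hγV (thPt S (fwu R x.1 hxR) yx hrelx) hΘ TV TΘ hTV hTΘ (by
      have h1 := (genConfig S yx hrelx).mr_pt_le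
      rw [mr_genConfig_y] at h1
      have h2 := td_genConfig (k := k) S yx hrelx
      have h3 := Sys.card_D S
      have h4 : mr yx + R.card = mr px + Fintype.card α := mr_fy R px
      have h5 : td k yx + R.card = td k px + Fintype.card α := td_fy R px
      have h6 : td k y + R.card = td k p + Fintype.card α := td_fy R p
      have h7 : ny (fw R x.1) + R.card ≤ ny x.1 + Fintype.card α := ny_fw_le R h x.1
      have h8 : ny (thPt S (fwu R x.1 hxR) yx hrelx).1 = ny (fw R x.1) :=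
        ny_thPt S (fwu R x.1 hxR) yx hrelx
      have h9 := mr_thPt S (fwu R x.1 hxR) yx hrelx hwx
      have h10 := atd_thPt (k := k) S (fwu R x.1 hxR) yx hrelx hwx
      have h11 : mr px + td k p + mr γ.2 + atd K (co x) ≤
          I.card + td k px + mr x.2 + atd K (co γ) := hsx
      omega)
  obtain ⟨W, hW, hZW⟩ := UM.exists_maxAtypical _ Z hZ
  apply hGx
  rw [hG, Ideal.IsPrime.prod_mem_iff]
  exact ⟨W, hfinD.mem_toFinset.mpr hW, hZl (vanIdeal_anti hZW (hfZ W hW))⟩

end Pool.Agent.Lib.MP_a325a5_ag.MU
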