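import Pool.Agent.Lib.MP_a325a5_ag.MU.YDefs

/-! Zilber-Pink for `Y(1)^α × 𝔾_m^β`: the definitions used in the statement of the universality
theorem. -/

set_option autoImplicit false

namespace Pool.Agent.Lib.MP_a325a5_ag.MU

open MvPolynomial UM

/-- The product of copies `Δ_i`, `i ∈ α`, of the curve `Δ = {(x, x)} ⊆ Y(1) × 𝔾_m` and of copies
`ℓ_e`, `e ∈ D`, of the line `ℓ = {(x, y) : x + y = 1} ⊆ 𝔾_m²`, as a subset of
`Y(1)^α × 𝔾_m^(α ⊕ (D ⊕ D))`. -/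
def LD (k : Type) [Field k] (α D : Type) : Set (Pt k α (α ⊕ (D ⊕ D))) :=
  {p | (∀ i, (p.2 (Sum.inl i) : k) = p.1 i) ∧
    ∀ e, (p.2 (Sum.inr (Sum.inl e)) : k) + p.2 (Sum.inr (Sum.inr e)) = 1}

section

variable {K : Type} [Field K] {α β : Type} {k : Type} [Field k] [Algebra k K] [Fintype β]
  (𝒮 : Set (Set (α → k)))

/-- `Z` is an atypical special subvariety of `X`: the codimension of `Z` in `X` is not the
codimension of `⟨Z⟩` in `⟨X⟩`. -/
def Atypical (X Z : Set (Pt K α β)) : Prop :=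
  SpecialIn 𝒮 X Z ∧ zdim X + zdim (hull 𝒮 Z) ≠ zdim (hull 𝒮 X) + zdim Z

/-- The atypical Hodge locus of `X`. -/
def HLatyp (X : Set (Pt K α β)) : Set (Pt K α β) := ⋃₀ {Z | Atypical 𝒮 X Z}

/-- The maximal atypical special subvarieties of `X`. -/
def MaxAtypical (X : Set (Pt K α β)) : Set (Set (Pt K α β)) :=
  {Z | Atypical 𝒮 X Z ∧ ∀ W, Atypical 𝒮 X W → Z ⊆ W → W = Z}

end

end Pool.Agent.Lib.MP_a325a5_ag.MU
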