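import Pool.Agent.Lib.MP_a325a5_ag.MU.Defs
import Pool.Agent.Lib.MP_a325a5_ag.UM.Pts
import Pool.Agent.Lib.MP_a325a5_ag.UL.GenA

/-! The encoding of a point of `Y(1)^α × 𝔾_m^β` (MU, part E): definitions. -/

set_option autoImplicit false

namespace Pool.Agent.Lib.MP_a325a5_ag.MU

open MvPolynomial UM UL

theorem rcst_ne_zero {U L : Type} [Field L] {c : L} (hc : c ≠ 0) : rcst U c ≠ 0 := by
  intro h
  unfold rcst at h
  rw [map_eq_zero_iff _ (IsFractionRing.injective (MvPolynomial U L) (RatFun U L)),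
    map_eq_zero_iff _ (C_injective _ _)] at h
  exact hc h

theorem rvar_ne_zero {U L : Type} [Field L] (u : U) : rvar L u ≠ 0 := by
  have h1 := rvar_add_rcst_ne_zero (E := L) u 0
  have h2 : rcst U (0 : L) = 0 := by
    unfold rcst
    rw [map_zero, map_zero]
  rwa [h2, add_zero] at h1

/-- The complement of `R`. -/
def Un {α : Type} (R : Finset α) : Type := {i // i ∉ R}

noncomputable instance {α : Type} [Fintype α] (R : Finset α) : Fintype (Un R) := by
  classical exact inferInstanceAs (Fintype {i // i ∉ R})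

section free

variable {L : Type} [Field L] {α : Type} (R : Finset α)

open Classical in
/-- The affine coordinates `x_i`, `i ∈ R`, with new variables in place of the others. -/
noncomputable def fw (s : α → L) (i : α) : RatFun (Un R) L :=
  if h : i ∈ R then rcst (Un R) (s i) else rvar L (⟨i, h⟩ : Un R)

theorem fw_ne_zero (s : α → L) (hs : ∀ r ∈ R, s r ≠ 0) (i : α) : fw R s i ≠ 0 := by
  unfold fw
  split_ifs with h
  · exact rcst_ne_zero (hs i h)
  · exact rvar_ne_zero _

/-- The same as a point of the torus. -/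
noncomputable def fwu (s : α → L) (hs : ∀ r ∈ R, s r ≠ 0) (i : α) : (RatFun (Un R) L)ˣ :=
  Units.mk0 (fw R s i) (fw_ne_zero R s hs i)

/-- The new variables and the point `p`. -/
noncomputable def fy {I : Type} (p : I → Lˣ) : Un R ⊕ I → (RatFun (Un R) L)ˣ :=
  Sum.elim (fun u => Units.mk0 (rvar L u) (rvar_ne_zero u))
    (fun i => Units.mk0 (rcst (Un R) (p i : L)) (rcst_ne_zero (p i).ne_zero))

end free

/-- The torus coordinates of `x`, its affine coordinates `x_r`, `r ∈ R`, and the constants `c`. -/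
noncomputable def fam {K L : Type} [Field K] [Field L] [Algebra K L] {α β : Type} (R : Finset α)
    {e : ℕ} (c : Fin e → Kˣ) (x : Pt L α β) (hx : ∀ r ∈ R, x.1 r ≠ 0) :
    (β ⊕ R) ⊕ Fin e → Lˣ :=
  Sum.elim (Sum.elim x.2 fun r => Units.mk0 (x.1 r) (hx r r.2)) fun j => cst K L (c j)

/-- The point `(w; w, pt)`, where `pt` is the generic configuration over `y`. -/
noncomputable def thPt {α J : Type} [Fintype J] (S : Sys J) {E : Type} [Field E] (w : α → Eˣ)
    (y : J → Eˣ) (hy : ∀ b, S.rel y b = 0) :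
    Pt (RatFun (J ⊕ S.B) E) α (α ⊕ (S.D ⊕ S.D)) :=
  (fun i => rcst (J ⊕ S.B) (w i : E),
    Sum.elim (fun i => Units.mk0 (rcst (J ⊕ S.B) (w i : E)) (rcst_ne_zero (w i).ne_zero))
      (genConfig S y hy).pt)

end Pool.Agent.Lib.MP_a325a5_ag.MU
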