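import Pool.Agent.Lib.MP_a325a5_ag.MU.YLeast
import Pool.Agent.Lib.MP_a325a5_ag.MU.LDGen
import Pool.Agent.Lib.MP_a325a5_ag.UM.Dec
import Pool.Agent.Lib.MP_a325a5_ag.UM.LocSet
import Pool.Agent.Lib.MP_a325a5_ag.UM.BC
import Pool.Agent.Lib.MP_a325a5_ag.UM.Comp

/-! Zilber-Pink for all subvarieties of `Y(1)^α × 𝔾_m^β` over `K` implies the finiteness for the
varieties `V = Δ^α × ℓ^D` over a subfield `k`.  Proof as in `UM/FwdM.lean`. -/

set_option autoImplicit false

namespace Pool.Agent.Lib.MP_a325a5_ag.MU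

open MvPolynomial UM UL

theorem forward (h : ModAx) {k K : Type} [Field k] [IsAlgClosed k] [CharZero k] [Field K]
    [IsAlgClosed K] [CharZero K] [Algebra k K] {α : Type} [Fintype α]
    (hZP : ∀ (β : Type) [Fintype β] (X : Set (Pt K α β)), IrrClosed X →
      ¬ DenseIn (UM.HLatyp (YSpecial k α) X) X)
    (D : Type) [Fintype D] : (UM.MaxAtypical (YSpecial k α) (LD k α D)).Finite := by
  classical
  have hF := yfamily h k α
  have hV : IrrClosed (LD k α D) := LD_irrClosed k α D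
  have huniv : ∀ (L : Type) [Field L] [Algebra k L] (q : α → L),
      avan (Set.univ : Set (α → k)) ≤ aloc k q := by
    intro L _ _ q f hf
    have h0 : f = 0 := by
      refine MvPolynomial.funext fun x => ?_
      rw [map_zero]
      exact hf x (Set.mem_univ x)
    rw [h0]
    exact zero_mem _
  have hS : ∀ (M : Type) [Field M] [Algebra k M] (x : α → M),
      x ∈ bc M (Set.univ : Set (α → k)) := by
    intro M _ _ x
    rw [mem_bc]
    exact huniv M x
  obtain ⟨LV, _, _, _, γV, hγV, -, -, -⟩ := LD_generic h k α D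
  obtain ⟨𝒲, hfin, hW, hcov⟩ := exists_decomposition (UM.MaxAtypical (YSpecial k α) (LD k α D))
    fun Z hZ => hZ.1.1.1
  -- it is enough that every piece contains finitely many
  suffices hsuf : ∀ W ∈ 𝒲,
      {Z | Z ∈ UM.MaxAtypical (YSpecial k α) (LD k α D) ∧ Z ⊆ W}.Finite by
    refine (hfin.biUnion hsuf).subset fun Z hZ => ?_
    obtain ⟨W, hWm, hZW⟩ := hcov Z hZ
    exact Set.mem_biUnion hWm ⟨hZ, hZW⟩
  intro W hWm
  obtain ⟨hWirr, hWd⟩ := hW W hWm
  set B : Set (Pt k α (α ⊕ (D ⊕ D))) :=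
    ⋃₀ {Z | Z ∈ UM.MaxAtypical (YSpecial k α) (LD k α D) ∧ Z ⊆ W} with hBdef
  have hBW : B ⊆ W := Set.sUnion_subset fun Z hZ => hZ.2
  have hWV : W ⊆ LD k α D := by
    rw [UM.subset_iff hV, ← hWd]
    exact UM.vanIdeal_anti (Set.sUnion_subset fun Z hZ => hZ.1.1.1.2.1)
  -- the base change of `W`
  obtain ⟨X, hX, hXW, hXd, hXk, hXg⟩ := UM.base_change (K := K) W hWirr
  obtain ⟨LX, _, _, γX, hγX⟩ := UM.exists_generic X hX
  let _ : Algebra k LX := ((algebraMap K LX).comp (algebraMap k K)).toAlgebra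
  have _ : IsScalarTower k K LX := IsScalarTower.of_algebraMap_eq fun _ => rfl
  obtain ⟨hγk, hγt⟩ := hXg LX γX hγX
  have hγXV : UM.vanIdeal (LD k α D) ≤ aloc k (co γX) := by
    rw [hγk]
    exact UM.vanIdeal_anti hWV
  obtain ⟨TV, hTV⟩ := exists_least hF γV.1 (huniv LV γV.1)
  obtain ⟨TX, hTX⟩ := exists_least hF γX.1 (huniv LX γX.1)
  by_cases hlt : dm TX + mr γX.2 + atd k (co γV) < dm TV + mr γV.2 + atd k (co γX)
  · -- `W` is contained in a maximal atypical subvariety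
    obtain ⟨Z, hZ, hZle⟩ := UM.exists_atypical hF (LD k α D) hV (fun p _ => hS k p.1) γV hγV
      γX hγXV TV TX hTV hTX hlt
    obtain ⟨M, hM, hZM⟩ := UM.exists_maxAtypical (LD k α D) Z hZ
    have hWZ : W ⊆ Z := by
      rw [UM.subset_iff hZ.1.1, ← hγk]
      exact hZle
    refine (Set.finite_singleton M).subset fun Z' hZ' => ?_
    exact (hZ'.1.2 M hM.1 ((hZ'.2.trans hWZ).trans hZM)).symm
  · -- `HLatyp X` is dense in `X`
    exfalso
    push Not at hlt
    apply hZP _ X hX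
    refine le_trans (UM.vanIdeal_anti ?_) (hXd B hBW hWd.le)
    rintro _ ⟨z, hzB, rfl⟩
    obtain ⟨Z, ⟨hZmax, hZW⟩, hzZ⟩ := hzB
    have hZat := hZmax.1
    have hZirr := hZat.1.1
    -- a generic point of the base change of `Z`
    obtain ⟨Y, hY, hYZ, hYd, -, hYg⟩ := UM.base_change (K := K) Z hZirr
    obtain ⟨L, _, _, p, hp⟩ := UM.exists_generic Y hY
    let _ : Algebra k L := ((algebraMap K L).comp (algebraMap k K)).toAlgebra
    have _ : IsScalarTower k K L := IsScalarTower.of_algebraMap_eq fun _ => rfl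
    obtain ⟨hpk, hpt⟩ := hYg L p hp
    have hpX : UM.vanIdeal X ≤ aloc K (co p) := by
      rw [hp]
      refine le_trans ?_ (hYd Z subset_rfl le_rfl)
      refine UM.vanIdeal_anti ?_
      rintro _ ⟨y, hy, rfl⟩
      exact hXW y (hZW hy)
    obtain ⟨Tp, hTp⟩ := exists_least hF p.1 (huniv L p.1)
    have h1 := UM.atypical_lt hF (LD k α D) Z hV hZat γV p hγV hpk TV Tp hTV hTp
    obtain ⟨Z', hZ', hZ'le⟩ := UM.exists_atypical hF X hX (fun p _ => hS K p.1) γX hγX p hpX
      TX Tp hTX hTp (by rw [hγt, hpt]; omega)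
    refine ⟨Z', hZ', ?_⟩
    rw [UM.mem_iff_le_aloc hZ'.1.1]
    refine le_trans hZ'le ?_
    rw [hp]
    exact (UM.mem_iff_le_aloc hY _).1 (hYZ z hzZ)

end Pool.Agent.Lib.MP_a325a5_ag.MU
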