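import Pool.Agent.Lib.MP_a325a5_ag.MU.Defs
import Pool.Agent.Lib.MP_a325a5_ag.MU.YLeast
import Pool.Agent.Lib.MP_a325a5_ag.UM.BC

/-! The special subvarieties of `Y(1)^α` do not depend on the algebraically closed base field. -/

set_option autoImplicit false

namespace Pool.Agent.Lib.MP_a325a5_ag.MU

open MvPolynomial UM

private theorem yb_dm_le {k : Type} [Field k] {α : Type} [Fintype α] (W : Set (α → k))
    (hW : AIrr W) : dm W ≤ Fintype.card α := by
  classical
  obtain ⟨L, i1, i2, q, hq⟩ := exists_ageneric W hW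
  rw [dm_eq W q hq]
  unfold atd
  exact Finset.sup_le fun J _ => Finset.card_le_univ J

private theorem yb_exists_comp {k : Type} [Field k] {α : Type} [Fintype α] (V Z : Set (α → k))
    (hZ : AIrr Z) (hZV : Z ⊆ V) : ∃ T, IsComp T V ∧ Z ⊆ T := by
  obtain ⟨T, ⟨hT, hZT, hTV⟩, hmin⟩ :=
    (measure (fun T : Set (α → k) => Fintype.card α - dm T)).wf.has_min
      {T | AIrr T ∧ Z ⊆ T ∧ T ⊆ V} ⟨Z, hZ, subset_rfl, hZV⟩
  refine ⟨T, ⟨hT, hTV, fun W hW hTW hWV => ?_⟩, hZT⟩
  have h1 : Fintype.card α - dm T ≤ Fintype.card α - dm W :=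
    not_lt.mp (hmin W ⟨hW, hZT.trans hTW, hWV⟩)
  have h2 := yb_dm_le T hT
  have h3 := yb_dm_le W hW
  exact ((dm_mono hT hW hTW).2 (by omega)).symm

/-- A vector which satisfies the equations defines a point of `ylocus`. -/
private theorem yb_phi_mem {k : Type} [Field k] [CharZero k] {α : Type} {T : Set (α → k)}
    {N : ℕ} {i j : α} (hT : ∀ x ∈ T, phi N (x i) (x j) = 0) : phiPoly k N i j ∈ avan T := by
  intro x hx
  rw [← MvPolynomial.coe_aeval_eq_eval, RingHom.coe_coe, aeval_phiPoly]
  exact hT x hx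

private theorem yb_cst_mem {k : Type} [Field k] {α : Type} {T : Set (α → k)} {i : α} {c : k}
    (hT : ∀ x ∈ T, x i = c) : (X i - C c : MvPolynomial α k) ∈ avan T := by
  intro x hx
  rw [map_sub, eval_X, eval_C, sub_eq_zero]
  exact hT x hx

/-- The smallest special subvariety containing `q` satisfies the special relations of `q`. -/
theorem least_subset_ylocus {k L : Type} [Field k] [IsAlgClosed k] [CharZero k] [Field L]
    [CharZero L] [Algebra k L] {α : Type} [Fintype α] (q : α → L) (T : Set (α → k))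
    (hT : Least (YSpecial k α) T q) (E : Set (α × α × ℕ)) (F : Set (α × k))
    (hE : ∀ e ∈ E, 1 ≤ e.2.2 ∧ phi e.2.2 (q e.1) (q e.2.1) = 0)
    (hF : ∀ f ∈ F, IsCM f.2 ∧ q f.1 = algebraMap k L f.2) : T ⊆ ylocus E F := by
  obtain ⟨Z, hZ, hZq⟩ := exists_airr (K := k) q
  have hZV : Z ⊆ ylocus E F := by
    intro x hx
    have hqx : aloc k q ≤ aloc k x := by
      rw [← hZq]
      intro f hf
      exact mem_aloc_self.mpr (hf x hx)
    constructor
    · intro e he
      exact phi_spec hqx (hE e he).2
    · intro f hf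
      exact const_spec hqx (hF f hf).2
  obtain ⟨T₁, hTc, hZT⟩ := yb_exists_comp (ylocus E F) Z hZ hZV
  have hTS : T₁ ∈ YSpecial k α := ⟨E, F, fun e he => (hE e he).1, fun f hf => (hF f hf).1, hTc⟩
  refine (hT.2.2 T₁ hTS ?_).trans hTc.2.1
  rw [← hZq]
  exact avan_anti hZT

/-- The special subvarieties over `K` are the base changes of those over `k`. -/
theorem yspecial_bc (h : ModAx) {k K : Type} [Field k] [IsAlgClosed k] [CharZero k] [Field K]
    [IsAlgClosed K] [CharZero K] [Algebra k K] {α : Type} [Fintype α] (T : Set (α → K)) :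
    T ∈ YSpecial K α ↔ ∃ T₀ ∈ YSpecial k α, T = bc K T₀ := by
  constructor
  · rintro ⟨E, F, hE, hF, hT, hTV, hmax⟩
    obtain ⟨L, i1, i2, q, hq⟩ := exists_ageneric T hT
    have : CharZero L := charZero_of_injective_algebraMap (algebraMap K L).injective
    letI : Algebra k L := ((algebraMap K L).comp (algebraMap k K)).toAlgebra
    haveI : IsScalarTower k K L := IsScalarTower.of_algebraMap_eq fun x => rfl
    obtain ⟨T₀, hT₀, -⟩ := exists_yleast (k := k) h q
    have hirr : AIrr T₀ := by
      obtain ⟨E₀, F₀, -, -, hc⟩ := hT₀.1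
      exact hc.1
    refine ⟨T₀, hT₀.1, (hmax (bc K T₀) (bc_airr T₀ hirr) ?_ ?_).symm⟩
    · rw [asubset_iff (bc_airr T₀ hirr), ← hq, avan_bc_le_iff T₀ hirr q]
      exact hT₀.2.1
    · intro x hx
      rw [mem_bc] at hx
      constructor
      · intro e he
        have h1 : T₀ ⊆ ylocus {e} ∅ := by
          refine least_subset_ylocus q T₀ hT₀ {e} ∅ ?_ (by simp)
          intro e' he'
          rw [Set.mem_singleton_iff.mp he']
          refine ⟨hE _ he, ?_⟩
          have h2 : phiPoly K e.2.2 e.1 e.2.1 ∈ aloc K q := by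
            rw [hq]
            exact yb_phi_mem fun y hy => (hTV hy).1 e he
          rw [mem_aloc, aeval_phiPoly] at h2
          exact h2
        have h3 : phiPoly k e.2.2 e.1 e.2.1 ∈ aloc k x :=
          hx (yb_phi_mem fun y hy => (h1 hy).1 e rfl)
        rw [mem_aloc, aeval_phiPoly] at h3
        exact h3
      · intro f hf
        obtain ⟨c, hc⟩ := exists_of_isCM (k := k) h (hF f hf)
        have hcm : IsCM c := by
          rw [← isCM_algebraMap (L := K) c, hc]
          exact hF f hf
        have h1 : T₀ ⊆ ylocus ∅ {(f.1, c)} := by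
          refine least_subset_ylocus q T₀ hT₀ ∅ {(f.1, c)} (by simp) ?_
          rintro _ rfl
          refine ⟨hcm, ?_⟩
          have h2 : (X f.1 - C f.2 : MvPolynomial α K) ∈ aloc K q := by
            rw [hq]
            exact yb_cst_mem fun y hy => (hTV hy).2 f hf
          rw [mem_aloc, map_sub, aeval_X, aeval_C, sub_eq_zero, ← hc] at h2
          exact h2
        have h3 : (X f.1 - C c : MvPolynomial α k) ∈ aloc k x :=
          hx (yb_cst_mem fun y hy => (h1 hy).2 (f.1, c) rfl)
        rw [mem_aloc, map_sub, aeval_X, aeval_C, sub_eq_zero, hc] at h3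
        exact h3
  · rintro ⟨T₀, ⟨E, F, hE, hF, hT, hTV, hmax⟩, rfl⟩
    refine ⟨E, (fun f => (f.1, algebraMap k K f.2)) '' F, hE, ?_, bc_airr T₀ hT, ?_, ?_⟩
    · rintro _ ⟨f, hf, rfl⟩
      exact (isCM_algebraMap f.2).mpr (hF f hf)
    · intro x hx
      rw [mem_bc] at hx
      constructor
      · intro e he
        have h3 : phiPoly k e.2.2 e.1 e.2.1 ∈ aloc k x :=
          hx (yb_phi_mem fun y hy => (hTV hy).1 e he)
        rw [mem_aloc, aeval_phiPoly] at h3
        exact h3
      · rintro _ ⟨f, hf, rfl⟩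
        have h3 : (X f.1 - C f.2 : MvPolynomial α k) ∈ aloc k x :=
          hx (yb_cst_mem fun y hy => (hTV hy).2 f hf)
        rw [mem_aloc, map_sub, aeval_X, aeval_C, sub_eq_zero] at h3
        exact h3
    · intro W hW hTW hWV
      refine Set.Subset.antisymm ?_ hTW
      obtain ⟨L, i1, i2, q, hq⟩ := exists_ageneric W hW
      have : CharZero L := charZero_of_injective_algebraMap (algebraMap K L).injective
      letI : Algebra k L := ((algebraMap K L).comp (algebraMap k K)).toAlgebra
      haveI : IsScalarTower k K L := IsScalarTower.of_algebraMap_eq fun x => rfl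
      obtain ⟨Z, hZ, hZq⟩ := exists_airr (K := k) q
      rw [asubset_iff (bc_airr T₀ hT), ← hq, avan_bc_le_iff T₀ hT q]
      have hT₀Z : T₀ ⊆ Z := by
        intro z hz
        rw [amem_iff_le_aloc hZ, hZq]
        have h1 : (fun i => algebraMap k K (z i)) ∈ bc K T₀ := by
          rw [mem_bc, aloc_algebraMap]
          exact (amem_iff_le_aloc hT z).mp hz
        have h2 := (amem_iff_le_aloc hW _).mp (hTW h1)
        rw [← hq] at h2
        have h4 : aloc k q ≤ aloc k (fun i => algebraMap k K (z i)) :=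
          aloc_restrict_le k _ _ h2
        rwa [aloc_algebraMap] at h4
      have hZV : Z ⊆ ylocus E F := by
        intro x hx
        have hqx : aloc k q ≤ aloc k x := by
          rw [← hZq]
          intro f hf
          exact mem_aloc_self.mpr (hf x hx)
        constructor
        · intro e he
          have h2 : phiPoly K e.2.2 e.1 e.2.1 ∈ aloc K q := by
            rw [hq]
            exact yb_phi_mem fun y hy => (hWV hy).1 e he
          rw [mem_aloc, aeval_phiPoly] at h2
          exact phi_spec hqx h2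
        · intro f hf
          have h2 : (X f.1 - C (algebraMap k K f.2) : MvPolynomial α K) ∈ aloc K q := by
            rw [hq]
            exact yb_cst_mem fun y hy => (hWV hy).2 _ ⟨f, hf, rfl⟩
          rw [mem_aloc, map_sub, aeval_X, aeval_C, sub_eq_zero] at h2
          exact const_spec hqx h2
      rw [← hmax Z hZ hT₀Z hZV, hZq]

private theorem yb_special (h : ModAx) (k : Type) {K : Type} [Field k] [IsAlgClosed k]
    [CharZero k] [Field K] [IsAlgClosed K] [CharZero K] [Algebra k K] {α β : Type} [Fintype α]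
    [Fintype β] (H : Set (Pt K α β)) :
    UM.IsSpecial (YSpecial K α) H ↔ UM.IsSpecial (YSpecial k α) H := by
  have hK : ∀ T ∈ YSpecial K α, bc K T = T := by
    rintro T ⟨E, F, -, -, hc⟩
    exact bc_self hc.1
  constructor
  · rintro ⟨T, hT, C, hC, rfl⟩
    obtain ⟨T₀, hT₀, hTT⟩ := (yspecial_bc (k := k) h T).mp hT
    refine ⟨T₀, hT₀, C, hC, ?_⟩
    rw [hK T hT, hTT]
  · rintro ⟨T₀, hT₀, C, hC, rfl⟩
    have hT : bc K T₀ ∈ YSpecial K α := (yspecial_bc (k := k) h _).mpr ⟨T₀, hT₀, rfl⟩
    refine ⟨bc K T₀, hT, C, hC, ?_⟩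
    rw [hK _ hT]

/-- The atypical Hodge locus for the special subvarieties over `K` and over `k`. -/
theorem hlatyp_base (h : ModAx) (k : Type) {K : Type} [Field k] [IsAlgClosed k] [CharZero k]
    [Field K] [IsAlgClosed K] [CharZero K] [Algebra k K] {α β : Type} [Fintype α] [Fintype β]
    (X : Set (Pt K α β)) :
    MU.HLatyp (YSpecial K α) X = MU.HLatyp (YSpecial k α) X := by
  have h1 : ∀ Z : Set (Pt K α β), hull (YSpecial K α) Z = hull (YSpecial k α) Z := by
    intro Z
    unfold hull
    simp only [yb_special h k]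
  unfold MU.HLatyp MU.Atypical SpecialIn
  simp only [h1]

end Pool.Agent.Lib.MP_a325a5_ag.MU
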