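import Pool.Agent.Lib.MP_a325a5_ag.MU.Mod
import Pool.Agent.Lib.MP_a325a5_ag.UM.Defs

/-! The special subvarieties of `Y(1)^α`. -/

set_option autoImplicit false

namespace Pool.Agent.Lib.MP_a325a5_ag.MU

open MvPolynomial UM

section

variable {k : Type} [Field k] [CharZero k] {α : Type}

/-- The closed subset of `Y(1)^α = 𝔸^α` defined by the modular equations
`Φ_N(x_i, x_j) = 0`, `(i, j, N) ∈ E`, and the equations `x_i = c`, `(i, c) ∈ F`. -/
def ylocus (E : Set (α × α × ℕ)) (F : Set (α × k)) : Set (α → k) :=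
  {x | (∀ e ∈ E, phi e.2.2 (x e.1) (x e.2.1) = 0) ∧ ∀ f ∈ F, x f.1 = f.2}

/-- `T` is an irreducible component of `V`. -/
def IsComp (T V : Set (α → k)) : Prop :=
  AIrr T ∧ T ⊆ V ∧ ∀ W, AIrr W → T ⊆ W → W ⊆ V → W = T

/-- The special subvarieties of `Y(1)^α` over `k`: the irreducible components of the closed
subsets defined by modular equations `Φ_N(x_i, x_j) = 0` and equations `x_i = c` with singular
moduli `c`. -/
def YSpecial (k : Type) [Field k] [CharZero k] (α : Type) : Set (Set (α → k)) :=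
  {T | ∃ (E : Set (α × α × ℕ)) (F : Set (α × k)), (∀ e ∈ E, 1 ≤ e.2.2) ∧
    (∀ f ∈ F, IsCM f.2) ∧ IsComp T (ylocus E F)}

end

/-- The number of isogeny classes of coordinates of `q` which are not CM. -/
noncomputable def ny {L : Type} [Field L] [CharZero L] {α : Type} (q : α → L) : ℕ :=
  Set.ncard {C : Set α | ∃ i, ¬ IsCM (q i) ∧ C = {j | Isog (q i) (q j)}}

/-- All special relations of `q` hold at `q'`. -/
def YSat (k : Type) [Field k] [CharZero k] {L L' : Type} [Field L] [CharZero L] [Algebra k L]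
    [Field L'] [CharZero L'] [Algebra k L'] {α : Type} (q : α → L) (q' : α → L') : Prop :=
  (∀ i j N, 1 ≤ N → phi N (q i) (q j) = 0 → phi N (q' i) (q' j) = 0) ∧
    ∀ i (c : k), IsCM c → q i = algebraMap k L c → q' i = algebraMap k L' c

end Pool.Agent.Lib.MP_a325a5_ag.MU
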